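import Mathlib

set_option autoImplicit false

/-!
# A second Borel-Cantelli lemma
-/

open Finset Filter Topology MeasureTheory

namespace Pool.Agent.K9h18.EX

section

variable {Ω : Type*} [MeasurableSpace Ω] {μ : Measure Ω} [IsProbabilityMeasure μ]

lemma cheb {X : Ω → ℝ} (hX : Measurable X) {B : ℝ} (hB : ∀ x, |X x| ≤ B) {E : Set Ω}
    (hE : ∀ x ∈ E, X x = 0) (hEm : MeasurableSet E) :
    (∫ x, X x ∂μ) ^ 2 * μ.real E ≤ ∫ x, X x ^ 2 ∂μ - (∫ x, X x ∂μ) ^ 2 := by
  set s := ∫ x, X x ∂μ with hs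
  have hXi : Integrable X μ := Integrable.of_bound hX.aestronglyMeasurable B
    (Eventually.of_forall fun x => by rw [Real.norm_eq_abs]; exact hB x)
  have hX2 : Integrable (fun x => X x ^ 2) μ := by
    refine Integrable.of_bound (hX.pow_const 2).aestronglyMeasurable (B ^ 2)
      (Eventually.of_forall fun x => ?_)
    rw [Real.norm_eq_abs, abs_pow]
    exact pow_le_pow_left₀ (abs_nonneg _) (hB x) 2
  have h1 : ∫ x, (X x - s) ^ 2 ∂μ = ∫ x, X x ^ 2 ∂μ - s ^ 2 := by
    have e1 : ∀ x, (X x - s) ^ 2 = X x ^ 2 - 2 * s * X x + s ^ 2 := fun x => by ring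
    simp only [e1]
    have i1 : Integrable (fun x => 2 * s * X x) μ := hXi.const_mul _
    have i2 : Integrable (fun x => X x ^ 2 - 2 * s * X x) μ := hX2.sub i1
    rw [integral_add i2 (integrable_const _), integral_sub hX2 i1,
      integral_const_mul, integral_const, probReal_univ, ← hs]
    simp only [smul_eq_mul]
    ring
  have hint : Integrable (fun x => (X x - s) ^ 2) μ := by
    have e1 : (fun x => (X x - s) ^ 2) = fun x => X x ^ 2 - 2 * s * X x + s ^ 2 := by
      ext x
      ring
    rw [e1]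
    exact (hX2.sub (hXi.const_mul _)).add (integrable_const _)
  rw [← h1]
  calc s ^ 2 * μ.real E = ∫ x in E, (X x - s) ^ 2 ∂μ := by
        have e2 : ∫ x in E, (X x - s) ^ 2 ∂μ = ∫ _x in E, s ^ 2 ∂μ := by
          refine setIntegral_congr_fun hEm fun x hx => ?_
          simp only [hE x hx]
          ring
        rw [e2, setIntegral_const, smul_eq_mul]
        ring
    _ ≤ ∫ x, (X x - s) ^ 2 ∂μ :=
        setIntegral_le_integral hint (Eventually.of_forall fun x => sq_nonneg _)

/-- **A second Borel-Cantelli lemma.** -/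
theorem bc2 {X : ℕ → Ω → ℝ} (hm : ∀ m, Measurable (X m)) (h0 : ∀ m x, 0 ≤ X m x)
    {B : ℕ → ℝ} (hB : ∀ m x, X m x ≤ B m) {ρ : ℕ → ℝ} (hρ0 : ∀ m, 0 ≤ ρ m) (hρ : Summable ρ)
    {g : ℕ → ℕ → ℝ} (hg0 : ∀ m n, 0 ≤ g m n) {C : ℝ} (hC : 0 ≤ C)
    (hg : ∀ (m : ℕ) (F : Finset ℕ), ∑ n ∈ F, g m n ≤ C)
    (hsq : ∀ᶠ m in atTop, ∫ x, X m x ^ 2 ∂μ ≤ C * (∫ x, X m x ∂μ + ρ m))
    (hpair : ∀ ε : ℝ, 0 < ε → ∀ᶠ m in atTop, ∀ n > m, ∫ x, X m x * X n x ∂μ ≤
      (1 + ε) * ((∫ x, X m x ∂μ) * ∫ x, X n x ∂μ) + g m n * ∫ x, X m x ∂μ + ρ m * ρ n)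
    (hdiv : ¬ Summable fun m => ∫ x, X m x ∂μ) :
    ∀ᵐ x ∂μ, ∃ᶠ m in atTop, X m x ≠ 0 := by
  set b : ℕ → ℝ := fun m => ∫ x, X m x ∂μ with hb
  have hb0 : ∀ m, 0 ≤ b m := fun m => integral_nonneg fun x => h0 m x
  have hprod : ∀ m n, Integrable (fun x => X m x * X n x) μ := by
    intro m n
    refine Integrable.of_bound ((hm m).mul (hm n)).aestronglyMeasurable (B m * B n)
      (Eventually.of_forall fun x => ?_)
    rw [Real.norm_eq_abs, abs_of_nonneg (mul_nonneg (h0 m x) (h0 n x))]
    exact mul_le_mul (hB m x) (hB n x) (h0 n x) ((h0 m x).trans (hB m x))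
  set R := ∑' m, ρ m with hR
  have hRF : ∀ F : Finset ℕ, ∑ m ∈ F, ρ m ≤ R := fun F => hρ.sum_le_tsum F fun m _ => hρ0 m
  have hR0 : 0 ≤ R := tsum_nonneg hρ0
  -- the main estimate
  have key : ∀ ε : ℝ, 0 < ε → ∃ M0 : ℕ, ∀ M ≥ M0,
      μ.real {x | ∀ m ≥ M, X m x = 0} ≤ 2 * ε := by
    intro ε hε
    obtain ⟨M0, hM0⟩ := eventually_atTop.1 (hsq.and (hpair ε hε))
    refine ⟨M0, fun M hM => ?_⟩
    set s : ℕ → ℝ := fun N => ∑ m ∈ Ico M N, b m with hs
    have hs0 : ∀ N, 0 ≤ s N := fun N => Finset.sum_nonneg fun m _ => hb0 m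
    have hstop : Tendsto s atTop atTop := by
      have h1 : ¬ Summable fun m => b (m + M) := by
        rw [summable_nat_add_iff M]
        exact hdiv
      rw [not_summable_iff_tendsto_nat_atTop_of_nonneg (fun m => hb0 _)] at h1
      have h2 : Tendsto (fun N => ∑ i ∈ range (N - M), b (i + M)) atTop atTop :=
        h1.comp (tendsto_sub_atTop_nat M)
      refine h2.congr fun N => ?_
      simp only [hs]
      rw [Finset.sum_Ico_eq_sum_range]
      exact Finset.sum_congr rfl fun i _ => by rw [add_comm]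
    have hvar : ∀ N, ∫ x, (∑ m ∈ Ico M N, X m x) ^ 2 ∂μ ≤
        (1 + ε) * s N ^ 2 + (3 * C * s N + R ^ 2 + C * R) := by
      intro N
      have e1 : ∀ x, (∑ m ∈ Ico M N, X m x) ^ 2 = ∑ m ∈ Ico M N, ∑ n ∈ Ico M N, X m x * X n x := by
        intro x
        rw [sq, Finset.sum_mul_sum]
      simp only [e1]
      rw [integral_finsetSum _ fun m _ => integrable_finsetSum _ fun n _ => hprod m n]
      have e2 : ∑ m ∈ Ico M N, ∫ x, ∑ n ∈ Ico M N, X m x * X n x ∂μ =
          ∑ m ∈ Ico M N, ∑ n ∈ Ico M N, ∫ x, X m x * X n x ∂μ := by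
        refine Finset.sum_congr rfl fun m _ => ?_
        rw [integral_finsetSum _ fun n _ => hprod m n]
      rw [e2]
      have e3 : ∀ m ∈ Ico M N, ∀ n ∈ Ico M N, ∫ x, X m x * X n x ∂μ ≤
          (1 + ε) * (b m * b n) + g m n * b m + g n m * b n + ρ m * ρ n +
            if n = m then C * (b m + ρ m) else 0 := by
        intro m hm' n hn'
        rw [mem_Ico] at hm' hn'
        have p1 : 0 ≤ (1 + ε) * (b m * b n) := mul_nonneg (by linarith) (mul_nonneg (hb0 m) (hb0 n))
        have p2 : 0 ≤ g m n * b m := mul_nonneg (hg0 _ _) (hb0 _)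
        have p3 : 0 ≤ g n m * b n := mul_nonneg (hg0 _ _) (hb0 _)
        have p4 : 0 ≤ ρ m * ρ n := mul_nonneg (hρ0 _) (hρ0 _)
        rcases lt_trichotomy m n with h | h | h
        · have h1 := (hM0 m (hM.trans hm'.1)).2 n h
          rw [if_neg (by omega)]
          linarith
        · subst h
          rw [if_pos rfl]
          have h1 := (hM0 m (hM.trans hm'.1)).1
          have h2 : ∫ x, X m x * X m x ∂μ = ∫ x, X m x ^ 2 ∂μ := by
            congr 1
            ext x
            ring
          rw [h2]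
          linarith
        · have h1 := (hM0 n (hM.trans hn'.1)).2 m h
          rw [if_neg (by omega)]
          have h2 : ∫ x, X m x * X n x ∂μ = ∫ x, X n x * X m x ∂μ := by
            congr 1
            ext x
            ring
          rw [h2]
          have h3 : (1 + ε) * (b m * b n) = (1 + ε) * (b n * b m) := by ring
          have h4 : ρ m * ρ n = ρ n * ρ m := by ring
          rw [h3, h4]
          linarith
      refine (Finset.sum_le_sum fun m hm' => Finset.sum_le_sum fun n hn' => e3 m hm' n hn').trans ?_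
      simp only [Finset.sum_add_distrib]
      have q1 : ∑ m ∈ Ico M N, ∑ n ∈ Ico M N, (1 + ε) * (b m * b n) = (1 + ε) * s N ^ 2 := by
        simp only [hs]
        rw [sq, Finset.sum_mul_sum, Finset.mul_sum]
        refine Finset.sum_congr rfl fun m _ => ?_
        rw [Finset.mul_sum]
      have q2 : ∑ m ∈ Ico M N, ∑ n ∈ Ico M N, g m n * b m ≤ C * s N := by
        simp only [hs]
        rw [Finset.mul_sum]
        refine Finset.sum_le_sum fun m _ => ?_
        rw [← Finset.sum_mul]
        exact mul_le_mul_of_nonneg_right (hg m _) (hb0 m)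
      have q3 : ∑ m ∈ Ico M N, ∑ n ∈ Ico M N, g n m * b n ≤ C * s N := by
        rw [Finset.sum_comm]
        exact q2
      have q4 : ∑ m ∈ Ico M N, ∑ n ∈ Ico M N, ρ m * ρ n ≤ R ^ 2 := by
        rw [← Finset.sum_mul_sum, sq]
        have := hRF (Ico M N)
        exact mul_le_mul this this (Finset.sum_nonneg fun m _ => hρ0 m) hR0
      have q5 : ∑ m ∈ Ico M N, ∑ n ∈ Ico M N, (if n = m then C * (b m + ρ m) else 0) ≤
          C * s N + C * R := by
        have : ∀ m ∈ Ico M N, ∑ n ∈ Ico M N, (if n = m then C * (b m + ρ m) else 0) =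
            C * (b m + ρ m) := by
          intro m hm'
          rw [Finset.sum_ite_eq' (Ico M N) m (fun _ => C * (b m + ρ m)), if_pos hm']
        rw [Finset.sum_congr rfl this, ← Finset.mul_sum, Finset.sum_add_distrib, ← mul_add]
        apply mul_le_mul_of_nonneg_left _ hC
        have := hRF (Ico M N)
        simp only [hs]
        linarith
      linarith
    set E : Set Ω := {x | ∀ m ≥ M, X m x = 0} with hE
    have hEm : MeasurableSet E := by
      have : E = ⋂ m : ℕ, {x | m ≥ M → X m x = 0} := by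
        ext x
        simp only [hE, Set.mem_ofPred_eq, Set.mem_iInter]
      rw [this]
      refine MeasurableSet.iInter fun m => ?_
      by_cases h : m ≥ M
      · simp only [h, forall_true_left]
        exact hm m (measurableSet_singleton 0)
      · simp only [h, false_imp_iff]
        exact MeasurableSet.univ
    have hcheb : ∀ N, s N ^ 2 * μ.real E ≤ ε * s N ^ 2 + (3 * C * s N + R ^ 2 + C * R) := by
      intro N
      have h1 := cheb (μ := μ) (X := fun x => ∑ m ∈ Ico M N, X m x)
        (Finset.measurable_fun_sum _ fun m _ => hm m) (B := ∑ m ∈ Ico M N, B m) (fun x => by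
          rw [abs_of_nonneg (Finset.sum_nonneg fun m _ => h0 m x)]
          exact Finset.sum_le_sum fun m _ => hB m x) (E := E) (fun x hx => by
          exact Finset.sum_eq_zero fun m hm' => hx m (mem_Ico.1 hm').1) hEm
      have h2 : ∫ x, ∑ m ∈ Ico M N, X m x ∂μ = s N := by
        simp only [hs, hb]
        refine integral_finsetSum _ fun m _ => ?_
        exact Integrable.of_bound (hm m).aestronglyMeasurable (B m)
          (Eventually.of_forall fun x => by
            rw [Real.norm_eq_abs, abs_of_nonneg (h0 m x)]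
            exact hB m x)
      rw [h2] at h1
      have := hvar N
      linarith
    have hlim : Tendsto (fun N => ε + (3 * C / s N + (R ^ 2 + C * R) / s N ^ 2)) atTop
        (𝓝 (ε + (0 + 0))) := by
      refine tendsto_const_nhds.add (Tendsto.add ?_ ?_)
      · exact hstop.const_div_atTop _
      · exact ((tendsto_pow_atTop (two_ne_zero)).comp hstop).const_div_atTop _
    rw [add_zero, add_zero] at hlim
    have h3 := hlim.eventually_le_const (show ε < 2 * ε by linarith)
    obtain ⟨N, h4, h5⟩ := (h3.and (hstop.eventually_ge_atTop 1)).exists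
    refine le_trans ?_ h4
    have h6 := hcheb N
    have hs1 : 0 < s N ^ 2 := by positivity
    have h7 : μ.real E ≤ (ε * s N ^ 2 + (3 * C * s N + R ^ 2 + C * R)) / s N ^ 2 := by
      rw [le_div_iff₀ hs1]
      linarith
    refine h7.trans (le_of_eq ?_)
    have : s N ≠ 0 := by
      have : 0 < s N := by linarith
      exact this.ne'
    field_simp
    ring
  have hzero : ∀ M : ℕ, μ {x | ∀ m ≥ M, X m x = 0} = 0 := by
    intro M
    have h1 : μ.real {x | ∀ m ≥ M, X m x = 0} = 0 := by
      refine le_antisymm (le_of_forall_pos_le_add fun ε hε => ?_) measureReal_nonneg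
      obtain ⟨M0, hM0⟩ := key (ε / 2) (by positivity)
      have h2 := hM0 (max M M0) (le_max_right _ _)
      have h3 : {x | ∀ m ≥ M, X m x = 0} ⊆ {x | ∀ m ≥ max M M0, X m x = 0} :=
        fun x hx m hm' => hx m ((le_max_left _ _).trans hm')
      have h4 := measureReal_mono (μ := μ) h3
      linarith
    rwa [measureReal_eq_zero_iff] at h1
  have h5 : ∀ᵐ x ∂μ, ∀ M : ℕ, ¬ ∀ m ≥ M, X m x = 0 := by
    rw [ae_all_iff]
    intro M
    rw [ae_iff]
    simp only [not_not]
    exact hzero M
  filter_upwards [h5] with x hx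
  rw [frequently_atTop]
  intro M
  have := hx M
  push Not at this
  obtain ⟨m, hm1, hm2⟩ := this
  exact ⟨m, hm1, hm2⟩

end

end Pool.Agent.K9h18.EX
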