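import Pool.Agent.K9h18.EX.BC

set_option autoImplicit false

/-!
# The first Borel-Cantelli lemma for nonnegative integer valued variables
-/

open Finset Filter Topology MeasureTheory

namespace Pool.Agent.K9h18.EX

theorem bc1 {Ω : Type*} [MeasurableSpace Ω] {μ : Measure Ω} [IsProbabilityMeasure μ] {X : ℕ → Ω → ℝ}
    (hi : ∀ m, Integrable (X m) μ) (h0 : ∀ m x, 0 ≤ X m x) (h1 : ∀ m x, X m x ≠ 0 → 1 ≤ X m x)
    (hs : Summable fun m => ∫ x, X m x ∂μ) : ∀ᵐ x ∂μ, ∀ᶠ m in atTop, X m x = 0 := by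
  have h2 : ∀ m, μ {x | 1 ≤ X m x} ≤ ENNReal.ofReal (∫ x, X m x ∂μ) := by
    intro m
    have h3 := mul_meas_ge_le_integral_of_nonneg (μ := μ) (Eventually.of_forall (h0 m)) (hi m) 1
    rw [one_mul] at h3
    rw [← ofReal_measureReal]
    exact ENNReal.ofReal_le_ofReal h3
  have h3 : ∑' m, μ {x | 1 ≤ X m x} ≠ ⊤ := by
    refine ne_top_of_le_ne_top ?_ (ENNReal.tsum_le_tsum h2)
    exact hs.tsum_ofReal_ne_top
  filter_upwards [ae_eventually_notMem h3] with x hx
  filter_upwards [hx] with m hm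
  by_contra h
  exact hm (h1 m x h)

end Pool.Agent.K9h18.EX
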