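import Pool.Agent.K9h18.EX.Wn

set_option autoImplicit false

/-!
# Long intervals without events: the divergent case
-/

open Finset Filter Topology MeasureTheory

namespace Pool.Agent.K9h18.EX

open Pool.Agent.TH888.R (wt wt_nonneg wt_le_one VS VS_univ_bound VS_nonneg VS_mono)
open Pool.Agent.K9h18.HS (kc kc_pos log_ge_one wt_tendsto win Nx VS_zero VS_step mass_Ioc)
open Pool.Agent.K9h18.AP

lemma kc_gt : 2 < kc := by
  have h1 := Real.one_half_lt_eulerMascheroniConstant
  have h2 : 0 < Real.log 2 := Real.log_pos (by norm_num)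
  have h3 := Real.log_two_lt_d9
  have h4 := Real.add_one_le_exp Real.eulerMascheroniConstant
  change 2 < Real.exp Real.eulerMascheroniConstant / Real.log 2
  rw [lt_div_iff₀ h2]
  linarith

lemma kc_lt : kc < 3 := by
  have h1 := Real.eulerMascheroniConstant_lt_two_thirds
  have h2 : 0 < Real.log 2 := Real.log_pos (by norm_num)
  have h3 := Real.log_two_gt_d9
  have h4 : Real.exp Real.eulerMascheroniConstant < 2 := by
    refine (Real.exp_lt_exp.2 h1).trans ?_
    have h5 : Real.exp (2 / 3) ^ 3 < 2 ^ 3 := by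
      rw [← Real.exp_nat_mul]
      have e1 : ((3 : ℕ) : ℝ) * (2 / 3) = 1 + 1 := by norm_num
      rw [e1, Real.exp_add]
      have := Real.exp_one_lt_d9
      have := Real.exp_pos 1
      nlinarith
    exact lt_of_pow_lt_pow_left₀ 3 (by norm_num) h5
  change Real.exp Real.eulerMascheroniConstant / Real.log 2 < 3
  rw [div_lt_iff₀ h2]
  linarith

section

variable {S : Set ℕ} (hS : Tendsto (VS S) atTop atTop)
include hS

lemma win_sub {x y x' y' : ℝ} (hx : x' ≤ x) (hy : y ≤ y') : win S x y ⊆ win S x' y' := by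
  intro p hp
  rw [mem_win' hS] at hp ⊢
  exact ⟨hp.1, hp.2.1, lt_of_le_of_lt hx hp.2.2.1, hp.2.2.2.trans hy⟩

lemma win_union {x y z : ℝ} (hxy : x ≤ y) (hyz : y ≤ z) : win S x z = win S x y ∪ win S y z := by
  ext p
  rw [Finset.mem_union, mem_win' hS, mem_win' hS, mem_win' hS]
  constructor
  · rintro ⟨h1, h2, h3, h4⟩
    rcases le_or_gt (VS S p) y with h | h
    · exact Or.inl ⟨h1, h2, h3, h⟩
    · exact Or.inr ⟨h1, h2, h, h4⟩
  · rintro (⟨h1, h2, h3, h4⟩ | ⟨h1, h2, h3, h4⟩)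
    · exact ⟨h1, h2, h3, h4.trans hyz⟩
    · exact ⟨h1, h2, lt_of_le_of_lt hxy h3, h4⟩

lemma win_disj {x y y' z : ℝ} (h : y ≤ y') : Disjoint (win S x y) (win S y' z) := by
  rw [Finset.disjoint_left]
  intro p h1 h2
  rw [mem_win' hS] at h1 h2
  linarith [h1.2.2.2, h2.2.2.1]

end

lemma vd_union {e A : ℕ → ℕ} {T U : Finset ℕ} (h : Disjoint T U) (c : ℕ → ℝ) :
    vd e A (T ∪ U) c = vd e A T c * vd e A U c := by
  unfold vd
  exact Finset.prod_union h

/-- there is an event in the window `(m - 1, m]`, and none in `(m, m + L]` -/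
noncomputable def gX (e A : ℕ → ℕ) (S : Set ℕ) (m : ℕ) (L : ℝ) (c : ℕ → ℝ) : ℝ :=
  vd e A (win S m (m + L)) c - vd e A (win S ((m : ℝ) - 1) (m + L)) c

lemma gX_meas (e A : ℕ → ℕ) (S : Set ℕ) (m : ℕ) (L : ℝ) : Measurable (gX e A S m L) :=
  (vd_meas _ _ _).sub (vd_meas _ _ _)

lemma gX_01 {S : Set ℕ} (hS : Tendsto (VS S) atTop atTop) (e A : ℕ → ℕ) (m : ℕ) (L : ℝ) (c : ℕ → ℝ) :
    gX e A S m L c = 0 ∨ gX e A S m L c = 1 := by
  have h := vd_anti (e := e) (A := A) (win_sub hS (x := m) (y := m + L) (x' := (m : ℝ) - 1) (y' := m + L)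
    (by linarith) le_rfl) c
  unfold gX
  rcases vd_01 e A (win S m (m + L)) c with h1 | h1 <;>
    rcases vd_01 e A (win S ((m : ℝ) - 1) (m + L)) c with h2 | h2 <;> rw [h1, h2] at h ⊢
  · left; norm_num
  · norm_num at h
  · right; norm_num
  · left; norm_num

lemma gX_nonneg {S : Set ℕ} (hS : Tendsto (VS S) atTop atTop) (e A : ℕ → ℕ) (m : ℕ) (L : ℝ) (c : ℕ → ℝ) :
    0 ≤ gX e A S m L c := by
  rcases gX_01 hS e A m L c with h | h <;> rw [h]
  exact zero_le_one

lemma gX_le_one {S : Set ℕ} (hS : Tendsto (VS S) atTop atTop) (e A : ℕ → ℕ) (m : ℕ) (L : ℝ) (c : ℕ → ℝ) :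
    gX e A S m L c ≤ 1 := by
  rcases gX_01 hS e A m L c with h | h <;> rw [h]
  exact zero_le_one

/-- the meaning of `gX` -/
lemma gX_spec {S : Set ℕ} (hS : Tendsto (VS S) atTop atTop) {e A : ℕ → ℕ} {m : ℕ} {L : ℝ} {c : ℕ → ℝ}
    (h : gX e A S m L c ≠ 0) :
    (∃ p ∈ win S ((m : ℝ) - 1) m, fa e A p c = 1) ∧ ∀ p ∈ win S m (m + L), fa e A p c = 0 := by
  unfold gX at h
  have h0 := vd_anti (e := e) (A := A) (win_sub hS (x := m) (y := m + L) (x' := (m : ℝ) - 1) (y' := m + L)
    (by linarith) le_rfl) c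
  rcases vd_01 e A (win S m (m + L)) c with h1 | h1
  · rw [h1] at h h0
    have h2 := vd_nonneg e A (win S ((m : ℝ) - 1) (m + L)) c
    exact absurd (by linarith) h
  · have h3 := (vd_one_iff e A _ c).1 h1
    refine ⟨?_, h3⟩
    by_contra h4
    push Not at h4
    apply h
    have h5 : vd e A (win S ((m : ℝ) - 1) (m + L)) c = 1 := by
      rw [vd_one_iff]
      intro q hq
      rcases le_or_gt (VS S q) m with h6 | h6
      · have h7 := h4 q (by
          rw [mem_win' hS] at hq ⊢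
          exact ⟨hq.1, hq.2.1, hq.2.2.1, h6⟩)
        rcases fa_01 e A q c with h8 | h8
        · exact h8
        · exact absurd h8 h7
      · exact h3 q (by
          rw [mem_win' hS] at hq ⊢
          exact ⟨hq.1, hq.2.1, h6, hq.2.2.2⟩)
    rw [h1, h5, sub_self]

section

variable {η : ℝ} {e A : ℕ → ℕ} {m κ : ℕ → ℝ} {P : ℕ} {K : ℝ} (hD : Dat η e A m κ P K)
include hD

/-- the probability of the absence of events in a window -/
lemma void_win : ∃ X : ℝ, 1 ≤ X ∧ ∀ (S : Set ℕ), Tendsto (VS S) atTop atTop → ∀ x y : ℝ, X ≤ x →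
    x ≤ y → y ≤ x + 4 * Real.log x → ∀ (M : ℝ) (Φ : (ℕ → ℝ) → ℝ), Ph M 1 Φ →
      (∀ p ∈ win S x y, M ≤ Real.exp (η / 4 * p)) →
      |∫ c, Φ c * vd e A (win S x y) c ∂muI - (∏ q ∈ win S x y, (1 - m q)) * ∫ c, Φ c ∂muI| ≤
        Real.exp (-(x / 4)) := by
  obtain ⟨C, hC1, hC, -, hmass⟩ := win_fact
  obtain ⟨a0, ha0⟩ := (void_gen hD (show (0 : ℝ) < 16 by norm_num)).exists_forall_of_atTop
  refine ⟨max (2 * |a0|) (2 * C + 16), ?_, ?_⟩
  · refine le_trans ?_ (le_max_right _ _)
    linarith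
  intro S hS x y hx hxy hy M Φ hΦ hM
  have hx1 := (le_max_left _ _).trans hx
  have hx2 := (le_max_right _ _).trans hx
  have hx0 : 0 < x := by linarith
  have ha : a0 ≤ x / 2 := by
    have := le_abs_self a0
    linarith
  have hxC : x / 2 ≤ x - C := by linarith
  have h1 := ha0 (x / 2) ha (win S x y) (fun p hp => by
    rw [mem_win' hS] at hp
    refine le_trans ?_ (hC S p hp.1.one_lt.le)
    rw [Real.exp_le_exp]
    linarith [hp.2.2.1]) (by
    have h2 := (abs_le.1 (hmass S hS x y hx0.le hxy)).2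
    have h3 : Real.exp (-(x - C) / 2) ≤ 1 := by
      rw [Real.exp_le_one_iff]
      linarith
    have h4 : Real.log x = Real.log 2 + Real.log (x / 2) := by
      rw [← Real.log_mul (by norm_num) (by positivity)]
      congr 1
      ring
    have h5 : 1 ≤ Real.log (x / 2) := by
      rw [Real.le_log_iff_exp_le (by positivity)]
      have := Real.exp_one_lt_d9
      linarith
    have h6 := Real.log_two_lt_d9
    linarith) M Φ hΦ hM
  refine h1.trans ?_
  rw [Real.exp_le_exp]
  linarith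

omit hD in
lemma ev_log (B : ℝ) : ∀ᶠ n : ℕ in atTop, Real.log (6 * n) + B ≤ 4 * Real.log ((n : ℝ) - 1) := by
  have h1 : Tendsto (fun n : ℕ => Real.log ((n : ℝ) - 1)) atTop atTop :=
    Real.tendsto_log_atTop.comp (tendsto_atTop_add_const_right _ (-1) tendsto_natCast_atTop_atTop)
  filter_upwards [h1.eventually_ge_atTop (Real.log 12 + |B|), eventually_ge_atTop 3] with n hn hn3
  have hn3' : (3 : ℝ) ≤ n := by exact_mod_cast hn3
  have h2 : Real.log (6 * n) ≤ Real.log 12 + Real.log ((n : ℝ) - 1) := by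
    rw [← Real.log_mul (by norm_num) (by linarith)]
    apply Real.log_le_log (by positivity)
    linarith
  have h3 := le_abs_self B
  have h4 : 0 ≤ Real.log 12 := Real.log_nonneg (by norm_num)
  have h5 := abs_nonneg B
  linarith

/-- **The mean.** -/
lemma gX_mean : ∃ M0 : ℕ, ∀ (S : Set ℕ), Tendsto (VS S) atTop atTop → ∀ n ≥ M0, ∀ L : ℝ, 0 ≤ L →
    kc * L ≤ 2 * Real.log (6 * n) →
    1 / 4 * Real.exp (-(kc * L)) ≤ ∫ c, gX e A S n L c ∂muI ∧
    ∏ q ∈ win S n (n + L), (1 - m q) - ∏ q ∈ win S ((n : ℝ) - 1) (n + L), (1 - m q) ≤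
      ∫ c, gX e A S n L c ∂muI + 2 * Real.exp (-(((n : ℝ) - 1) / 4)) := by
  obtain ⟨C, X, hC, hX, hprod⟩ := win_prod hD
  obtain ⟨X2, hX2, hvoid⟩ := void_win hD
  have hk1 := kc_gt
  have hk2 := kc_lt
  -- conditions on `n`
  have l1 : Tendsto (fun n : ℕ => C * (Real.log (6 * n) + 2) / ((n : ℝ) - 1)) atTop (𝓝 0) := by
    have e1 : Tendsto (fun n : ℕ => (6 : ℝ) * n) atTop atTop :=
      tendsto_natCast_atTop_atTop.const_mul_atTop (by norm_num)
    have e2 : Tendsto (fun x : ℝ => C * (Real.log x + 2) / (x / 6 - 1)) atTop (𝓝 0) := by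
      have e3 : Tendsto (fun x : ℝ => (C * (Real.log x / x + 2 / x)) / (1 / 6 - 1 / x)) atTop
          (𝓝 ((C * (0 + 0)) / (1 / 6 - 0))) := by
        refine Tendsto.div ((Tendsto.add ?_ ?_).const_mul C) (tendsto_const_nhds.sub ?_) (by norm_num)
        · exact Real.isLittleO_log_id_atTop.tendsto_div_nhds_zero
        · exact tendsto_const_nhds.div_atTop tendsto_id
        · exact tendsto_const_nhds.div_atTop tendsto_id
      simp only [add_zero, mul_zero, zero_div] at e3
      refine e3.congr' ?_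
      filter_upwards [eventually_gt_atTop 7] with x hx
      have hx0 : x ≠ 0 := by linarith
      have hx1 : x / 6 - 1 ≠ 0 := by
        have : 0 < x / 6 - 1 := by linarith
        exact this.ne'
      have hx2 : 1 / 6 - 1 / x ≠ 0 := by
        have h7 : 1 / x < 1 / 6 := one_div_lt_one_div_of_lt (by norm_num) (by linarith)
        have : 0 < 1 / 6 - 1 / x := by linarith
        exact this.ne'
      have e4 : x / 6 - 1 = x * (1 / 6 - 1 / x) := by field_simp
      rw [e4]
      field_simp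
    have e4 := e2.comp e1
    refine e4.congr fun n => ?_
    simp only [Function.comp]
    congr 2
    ring
  have l2 : ∀ᶠ n : ℕ in atTop, 2 * Real.exp (-(((n : ℝ) - 1) / 4)) ≤ 1 / 4 * (1 / (6 * n) ^ 2) := by
    have e1 : Tendsto (fun n : ℕ => (n : ℝ) / 4) atTop atTop :=
      tendsto_natCast_atTop_atTop.atTop_div_const (by norm_num)
    have e2 := (Real.tendsto_pow_mul_exp_neg_atTop_nhds_zero 2).comp e1
    filter_upwards [e2.eventually_le_const (show (0 : ℝ) < 1 / 32000 by norm_num),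
      eventually_ge_atTop 1] with n hn hn1
    have hn0 : (0 : ℝ) < n := by exact_mod_cast (by omega : 0 < n)
    simp only [Function.comp] at hn
    have e3 : Real.exp (-(((n : ℝ) - 1) / 4)) ≤ 2 * Real.exp (-((n : ℝ) / 4)) := by
      have e4 : -(((n : ℝ) - 1) / 4) = 1 / 4 + -((n : ℝ) / 4) := by ring
      rw [e4, Real.exp_add]
      apply mul_le_mul_of_nonneg_right _ (Real.exp_pos _).le
      have e5 : Real.exp (1 / 4) ≤ Real.exp (1 / 4) ^ 4 :=
        le_self_pow₀ (Real.one_le_exp (by norm_num)) (by norm_num)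
      have e6 : Real.exp (1 / 4) ^ 4 = Real.exp 1 := by
        rw [← Real.exp_nat_mul]
        norm_num
      by_contra hcon
      push Not at hcon
      have e7 : (2 : ℝ) ^ 4 ≤ Real.exp (1 / 4) ^ 4 := pow_le_pow_left₀ (by norm_num) hcon.le 4
      rw [e6] at e7
      have := Real.exp_one_lt_d9
      norm_num at e7
      linarith
    have e8 : ((n : ℝ) / 4) ^ 2 * Real.exp (-((n : ℝ) / 4)) = (n : ℝ) ^ 2 * Real.exp (-((n : ℝ) / 4)) / 16 := by
      ring
    rw [e8] at hn
    rw [mul_one_div, div_div, le_div_iff₀ (by positivity)]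
    have e9 := Real.exp_pos (-((n : ℝ) / 4))
    calc 2 * Real.exp (-(((n : ℝ) - 1) / 4)) * (4 * (6 * n) ^ 2) ≤
          2 * (2 * Real.exp (-((n : ℝ) / 4))) * (4 * (6 * n) ^ 2) := by gcongr
      _ = 576 * ((n : ℝ) ^ 2 * Real.exp (-((n : ℝ) / 4))) := by ring
      _ ≤ 1 := by linarith
  obtain ⟨N1, hN1⟩ := eventually_atTop.1 ((l1.eventually_le_const (show (0 : ℝ) < 1 / 20 by norm_num)).and
    (l2.and ((ev_log 1).and (tendsto_natCast_atTop_atTop.eventually_ge_atTop (X + X2 + 10)))))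
  refine ⟨N1, fun S hS n hn L hL0 hL => ?_⟩
  obtain ⟨c1, c2, c3, c4⟩ := hN1 n hn
  have hn0 : (0 : ℝ) < n := by linarith
  have hlog : 0 < Real.log (6 * n) := Real.log_pos (by linarith)
  have hLL : L ≤ Real.log (6 * n) := by
    nlinarith
  have hn1 : (1 : ℝ) < (n : ℝ) - 1 := by linarith
  have hln1 : Real.log ((n : ℝ) - 1) ≤ Real.log n := Real.log_le_log (by linarith) (by linarith)
  have hlnn : Real.log n ≤ n / 4 + 1 := by
    have e1 := Real.log_le_sub_one_of_pos (show (0 : ℝ) < n / 4 by positivity)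
    have e2 : Real.log n = Real.log 4 + Real.log (n / 4) := by
      rw [← Real.log_mul (by norm_num) (by positivity)]
      congr 1
      ring
    have e3 : Real.log 4 ≤ 2 := by
      have e4 : (4 : ℝ) = 2 ^ 2 := by norm_num
      rw [e4, Real.log_pow]
      have := Real.log_two_lt_d9
      push_cast
      linarith
    linarith
  have hl12 : Real.log (6 * n) ≤ (n : ℝ) - 3 := by
    have e1 : Real.log ((6 : ℝ) * n) = Real.log 6 + Real.log n := Real.log_mul (by norm_num) hn0.ne'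
    have e2 : Real.log 6 ≤ 2 := by
      rw [Real.log_le_iff_le_exp (by norm_num)]
      have e3 : Real.exp 2 = Real.exp 1 * Real.exp 1 := by rw [← Real.exp_add]; norm_num
      rw [e3]
      nlinarith [Real.exp_one_gt_d9]
    rw [e1]
    linarith
  obtain ⟨a1, -⟩ := hprod S hS n (n + L) (by linarith) (by linarith) (by linarith)
  obtain ⟨-, a2⟩ := hprod S hS ((n : ℝ) - 1) (n + L) (by linarith) (by linarith) (by linarith)
  have v1 := hvoid S hS n (n + L) (by linarith) (by linarith) (by linarith) 0 (fun _ => 1) ph_one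
    (fun p _ => (Real.exp_pos _).le)
  have v2 := hvoid S hS ((n : ℝ) - 1) (n + L) (by linarith) (by linarith) (by linarith) 0 (fun _ => 1) ph_one
    (fun p _ => (Real.exp_pos _).le)
  simp only [one_mul, integral_const, probReal_univ, smul_eq_mul, mul_one] at v1 v2
  have hexpn : Real.exp (-((n : ℝ) / 4)) ≤ Real.exp (-(((n : ℝ) - 1) / 4)) :=
    Real.exp_le_exp.2 (by linarith)
  have hI : ∫ c, gX e A S n L c ∂muI = ∫ c, vd e A (win S n (n + L)) c ∂muI -
      ∫ c, vd e A (win S ((n : ℝ) - 1) (n + L)) c ∂muI :=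
    integral_sub (vd_int _ _ _) (vd_int _ _ _)
  have v1' := abs_le.1 v1
  have v2' := abs_le.1 v2
  have hmain : ∏ q ∈ win S n (n + L), (1 - m q) - ∏ q ∈ win S ((n : ℝ) - 1) (n + L), (1 - m q) ≤
      ∫ c, gX e A S n L c ∂muI + 2 * Real.exp (-(((n : ℝ) - 1) / 4)) := by
    rw [hI]
    linarith [v1'.1, v2'.2]
  refine ⟨?_, hmain⟩
  have hsm1 : C * (↑n + L - ↑n + 1) / n ≤ 1 / 20 := by
    refine le_trans ?_ c1
    have e1 : C * (↑n + L - ↑n + 1) ≤ C * (Real.log (6 * n) + 2) := by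
      apply mul_le_mul_of_nonneg_left _ (by linarith)
      linarith
    exact div_le_div₀ (by positivity) e1 (by linarith) (by linarith)
  have hsm2 : C * (↑n + L - (↑n - 1) + 1) / ((n : ℝ) - 1) ≤ 1 / 20 := by
    refine le_trans ?_ c1
    have e1 : C * (↑n + L - (↑n - 1) + 1) ≤ C * (Real.log (6 * n) + 2) := by
      apply mul_le_mul_of_nonneg_left _ (by linarith)
      linarith
    exact div_le_div_of_nonneg_right e1 (by linarith)
  set E := Real.exp (-(kc * L)) with hE
  have hE0 : 0 < E := Real.exp_pos _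
  have b1 : 19 / 20 * E ≤ ∏ q ∈ win S n (n + L), (1 - m q) := by
    refine le_trans ?_ a1
    have e1 : -(kc * (↑n + L - ↑n)) - C * (↑n + L - ↑n + 1) / n =
        -(kc * L) + -(C * (↑n + L - ↑n + 1) / n) := by ring
    rw [e1, Real.exp_add]
    have e2 := Real.add_one_le_exp (-(C * (↑n + L - ↑n + 1) / n))
    have e3 : 19 / 20 ≤ Real.exp (-(C * (↑n + L - ↑n + 1) / n)) := by linarith
    calc 19 / 20 * E = E * (19 / 20) := by ring
      _ ≤ _ := mul_le_mul_of_nonneg_left e3 hE0.le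
  have b2 : ∏ q ∈ win S ((n : ℝ) - 1) (n + L), (1 - m q) ≤ 9 / 20 * E := by
    refine a2.trans ?_
    have e1 : -(kc * (↑n + L - (↑n - 1))) + C * (↑n + L - (↑n - 1) + 1) / ((n : ℝ) - 1) =
        -(kc * L) + (-kc + C * (↑n + L - (↑n - 1) + 1) / ((n : ℝ) - 1)) := by ring
    rw [e1, Real.exp_add]
    have e2 : Real.exp (-kc + C * (↑n + L - (↑n - 1) + 1) / ((n : ℝ) - 1)) ≤ Real.exp (-1) :=
      Real.exp_le_exp.2 (by linarith)
    have e3 : Real.exp (-1) ≤ 9 / 20 := by
      rw [Real.exp_neg, inv_le_comm₀ (Real.exp_pos _) (by norm_num)]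
      have := Real.exp_one_gt_d9
      norm_num
      linarith
    calc E * Real.exp (-kc + C * (↑n + L - (↑n - 1) + 1) / ((n : ℝ) - 1)) ≤ E * (9 / 20) :=
          mul_le_mul_of_nonneg_left (e2.trans e3) hE0.le
      _ = _ := by ring
  have b3 : 2 * Real.exp (-(((n : ℝ) - 1) / 4)) ≤ 1 / 4 * E := by
    refine c2.trans ?_
    apply mul_le_mul_of_nonneg_left _ (by norm_num)
    have e1 : 1 / (6 * (n : ℝ)) ^ 2 = Real.exp (-(2 * Real.log (6 * n))) := by
      rw [Real.exp_neg, one_div]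
      congr 1
      rw [two_mul, Real.exp_add, Real.exp_log (by positivity)]
      ring
    rw [e1]
    exact Real.exp_le_exp.2 (by linarith)
  linarith

end

end Pool.Agent.K9h18.EX
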