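import Pool.Agent.K9h18.EX.Big

set_option autoImplicit false

/-!
# Long intervals without events: the divergent case
-/

open Finset Filter Topology MeasureTheory

namespace Pool.Agent.K9h18.EX

open Pool.Agent.TH888.R (wt wt_nonneg wt_le_one VS VS_univ_bound VS_nonneg VS_mono)
open Pool.Agent.K9h18.HS (kc kc_pos log_ge_one wt_tendsto win Nx VS_zero VS_step mass_Ioc)
open Pool.Agent.K9h18.AP

/-- the near pairs -/
noncomputable def nr (L : ℕ → ℝ) (C0 : ℕ) (m n : ℕ) : ℝ :=
  if (m : ℝ) + L m < n ∧ (n : ℝ) ≤ m + L m + (C0 + 1 : ℕ) then 1 else 0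

lemma nr_nonneg (L : ℕ → ℝ) (C0 m n : ℕ) : 0 ≤ nr L C0 m n := by
  unfold nr
  split_ifs
  · exact zero_le_one
  · exact le_rfl

lemma nr_sum {L : ℕ → ℝ} (hL : ∀ m, 0 ≤ L m) (C0 m : ℕ) (F : Finset ℕ) :
    ∑ n ∈ F, nr L C0 m n ≤ (C0 + 1 : ℕ) := by
  classical
  unfold nr
  rw [Finset.sum_boole]
  have h0 : 0 ≤ (m : ℝ) + L m := add_nonneg (Nat.cast_nonneg m) (hL m)
  have h1 : F.filter (fun n : ℕ => (m : ℝ) + L m < n ∧ (n : ℝ) ≤ m + L m + (C0 + 1 : ℕ)) ⊆
      Finset.Ioc ⌊(m : ℝ) + L m⌋₊ (⌊(m : ℝ) + L m⌋₊ + (C0 + 1)) := by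
    intro n hn
    rw [Finset.mem_filter] at hn
    rw [Finset.mem_Ioc, Nat.floor_lt h0]
    refine ⟨hn.2.1, ?_⟩
    rw [← Nat.floor_add_natCast h0]
    exact Nat.le_floor hn.2.2
  have h2 := Finset.card_le_card h1
  rw [Nat.card_Ioc] at h2
  exact_mod_cast (by omega)

section

variable {η : ℝ} {e A : ℕ → ℕ} {m κ : ℕ → ℝ} {P : ℕ} {K : ℝ} (hD : Dat η e A m κ P K)
include hD

/-- **Long intervals without events: the divergent case.** -/
theorem big_div (hup : ∀ p, e p ≤ p) {S : Set ℕ} (hS : Tendsto (VS S) atTop atTop) {L : ℕ → ℝ}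
    (hL0 : ∀ n, 0 ≤ L n) (hL : ∀ n, kc * L n ≤ 2 * Real.log (6 * n))
    (hdiv : ¬ Summable fun n : ℕ => Real.exp (-(kc * L n))) :
    ∀ᵐ c ∂muI, ∃ᶠ n : ℕ in atTop, gX e A S n (L n) c ≠ 0 := by
  obtain ⟨M0, hmean⟩ := gX_mean hD
  obtain ⟨X2, hX2, hvoid⟩ := void_win hD
  obtain ⟨C, hC1, hC, hinc, hmass⟩ := win_fact
  have hη := hD.η0
  have hk1 := kc_gt
  set C0 : ℕ := ⌈C + 8 / η⌉₊ with hC0
  have hC0' : C + 8 / η ≤ C0 := Nat.le_ceil _
  set ρ : ℕ → ℝ := fun n => 2 * Real.exp (-(((n : ℝ) - 1) / 8)) with hρ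
  have hρ0 : ∀ n, 0 ≤ ρ n := fun n => by
    have := Real.exp_pos (-(((n : ℝ) - 1) / 8))
    simp only [hρ]
    linarith
  have hρs : Summable ρ := by
    have h1 : ρ = fun n : ℕ => (2 * Real.exp (1 / 8)) * (Real.exp (-(1 / 8))) ^ n := by
      ext n
      simp only [hρ]
      rw [← Real.exp_nat_mul, mul_assoc, ← Real.exp_add]
      congr 2
      ring
    rw [h1]
    apply Summable.mul_left
    exact summable_geometric_of_lt_one (Real.exp_pos _).le (by
      rw [← Real.exp_zero]
      exact Real.exp_lt_exp.2 (by norm_num))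
  have hbint : ∀ n, Integrable (gX e A S n (L n)) muI := fun n =>
    int_bd (gX_meas _ _ _ _ _) (B := 1) fun c => by
      rw [abs_of_nonneg (gX_nonneg hS _ _ _ _ _)]
      exact gX_le_one hS _ _ _ _ _
  have hb01 : ∀ n, 0 ≤ ∫ c, gX e A S n (L n) c ∂muI ∧ ∫ c, gX e A S n (L n) c ∂muI ≤ 1 := fun n => by
    refine ⟨integral_nonneg fun c => gX_nonneg hS _ _ _ _ _, ?_⟩
    have h1 := integral_mono (hbint n) (integrable_const 1) (fun c => gX_le_one hS _ _ _ _ c)
    simpa using h1
  have hlogn : ∀ n : ℕ, 0 ≤ Real.log (6 * n) := fun n => by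
    rcases Nat.eq_zero_or_pos n with rfl | hn
    · simp
    · have : (1 : ℝ) ≤ n := by exact_mod_cast hn
      exact Real.log_nonneg (by linarith)
  have hLlog : ∀ n : ℕ, L n ≤ Real.log (6 * n) := fun n => by
    have h1 := hL n
    have h2 := hL0 n
    nlinarith
  refine bc2 (X := fun n => gX e A S n (L n)) (fun n => gX_meas _ _ _ _ _)
    (fun n c => gX_nonneg hS _ _ _ _ _) (B := fun _ => 1) (fun n c => gX_le_one hS _ _ _ _ _)
    hρ0 hρs (g := nr L C0) (nr_nonneg L C0) (C := (C0 + 1 : ℕ)) (by positivity)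
    (fun n F => nr_sum hL0 C0 n F) ?_ ?_ ?_
  · refine Eventually.of_forall fun n => ?_
    have h1 : ∫ c, gX e A S n (L n) c ^ 2 ∂muI = ∫ c, gX e A S n (L n) c ∂muI := by
      congr 1
      ext c
      rcases gX_01 hS e A n (L n) c with h | h <;> rw [h] <;> norm_num
    rw [h1]
    have h2 : (1 : ℝ) ≤ (C0 + 1 : ℕ) := by exact_mod_cast (by omega)
    have h3 := hρ0 n
    have h4 := (hb01 n).1
    have h5 : ∫ c, gX e A S n (L n) c ∂muI ≤ ∫ c, gX e A S n (L n) c ∂muI + ρ n := by linarith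
    refine h5.trans (le_mul_of_one_le_left (by linarith) h2)
  · intro ε hε
    have hNx := (Nx_top' hS).comp (tendsto_natCast_atTop_atTop (R := ℝ))
    have hev := (tendsto_natCast_atTop_atTop (R := ℝ)).eventually_ge_atTop (X2 + 2)
    obtain ⟨N1, hN1⟩ := eventually_atTop.1 ((ev_log 1).and (hev.and (hNx.eventually_ge_atTop 2)))
    filter_upwards [eventually_ge_atTop (M0 + N1)] with k hk n hkn
    have hbk := hb01 k
    have hbn := hb01 n
    have hknR : (k : ℝ) + 1 ≤ n := by exact_mod_cast hkn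
    have hLk := hL0 k
    by_cases h1 : (n : ℝ) ≤ k + L k
    · -- incompatible
      have h2 : ∀ c, gX e A S k (L k) c * gX e A S n (L n) c = 0 := by
        intro c
        by_contra h3
        have h4 := gX_spec hS (left_ne_zero_of_mul h3)
        have h5 := gX_spec hS (right_ne_zero_of_mul h3)
        obtain ⟨p, hp1, hp2⟩ := h5.1
        have h6 := h4.2 p (by
          rw [mem_win' hS] at hp1 ⊢
          exact ⟨hp1.1, hp1.2.1, by linarith [hp1.2.2.1], hp1.2.2.2.trans h1⟩)
        rw [hp2] at h6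
        exact one_ne_zero h6
      simp only [h2, integral_zero]
      have h3 := nr_nonneg L C0 k n
      have h4 := mul_nonneg hbk.1 hbn.1
      have h5 := mul_nonneg h3 hbk.1
      have h6 := mul_nonneg (hρ0 k) (hρ0 n)
      have h7 : 0 ≤ (1 + ε) * ((∫ c, gX e A S k (L k) c ∂muI) * ∫ c, gX e A S n (L n) c ∂muI) :=
        mul_nonneg (by linarith) h4
      linarith
    push Not at h1
    by_cases h2 : (n : ℝ) ≤ k + L k + (C0 + 1 : ℕ)
    · -- near pairs
      have h3 : nr L C0 k n = 1 := if_pos ⟨h1, h2⟩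
      rw [h3, one_mul]
      have h4 : ∫ c, gX e A S k (L k) c * gX e A S n (L n) c ∂muI ≤ ∫ c, gX e A S k (L k) c ∂muI := by
        refine integral_mono_of_nonneg (Eventually.of_forall fun c =>
          mul_nonneg (gX_nonneg hS _ _ _ _ _) (gX_nonneg hS _ _ _ _ _)) (hbint k)
          (Eventually.of_forall fun c => ?_)
        exact mul_le_of_le_one_right (gX_nonneg hS _ _ _ _ _) (gX_le_one hS _ _ _ _ _)
      have h5 := mul_nonneg hbk.1 hbn.1
      have h6 := mul_nonneg (hρ0 k) (hρ0 n)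
      have h7 : 0 ≤ (1 + ε) * ((∫ c, gX e A S k (L k) c ∂muI) * ∫ c, gX e A S n (L n) c ∂muI) :=
        mul_nonneg (by linarith) h5
      linarith
    push Not at h2
    -- far pairs
    obtain ⟨c1, c2, -⟩ := hN1 n (by omega)
    obtain ⟨d1, d2, d3⟩ := hN1 k (by omega)
    simp only [Function.comp] at d3
    have hk0 : (0 : ℝ) < k := by linarith
    push_cast at h2
    set q := Nx S (k + L k) with hq
    have hq2 : 2 ≤ q := d3.trans (Nx_mono' hS (by linarith))
    obtain ⟨r, hr⟩ := Nat.exists_eq_add_of_le' (show 1 ≤ q by omega)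
    have hr1 : 1 ≤ r := by omega
    have hr0 : (1 : ℝ) ≤ r := by exact_mod_cast hr1
    have hVr : VS S r ≤ k + L k := (lt_Nx' hS).1 (by omega)
    have hPh : Ph (2 ^ (r + 1)) 1 (gX e A S k (L k)) := by
      refine dep_Ph (A := A) hup (U := win S ((k : ℝ) - 1) (k + L k)) (k := r) ?_ (gX_meas _ _ _ _ _)
        (fun c => ⟨gX_nonneg hS _ _ _ _ _, gX_le_one hS _ _ _ _ _⟩) ?_
      · intro p hp
        rw [mem_win' hS] at hp
        refine ⟨hp.1.two_le, ?_⟩
        have : p < Nx S (k + L k) := (lt_Nx' hS).2 hp.2.2.2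
        omega
      · intro c c' h
        unfold gX
        rw [vd_dep (win_sub hS (by linarith) le_rfl) h, vd_dep subset_rfl h]
    have hMp : ∀ x : ℝ, (n : ℝ) - 1 ≤ x → ∀ y : ℝ, ∀ p ∈ win S x y, (2 : ℝ) ^ (r + 1) ≤ Real.exp (η / 4 * p) := by
      intro x hx y p hp
      rw [mem_win' hS] at hp
      have g1 : (n : ℝ) - 1 < VS S p := lt_of_le_of_lt hx hp.2.2.1
      have g2 : r ≤ p := by
        by_contra hcon
        have := VS_mono S (not_le.1 hcon).le
        linarith
      have g3 := hinc S r p hr1 g2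
      have hp0 : (0 : ℝ) < p := by exact_mod_cast hp.1.pos
      have g4 : 8 / η ≤ Real.log p - Real.log r := by linarith
      have g5 : 8 / η * r ≤ p := by
        have g6 : Real.log (p / r) = Real.log p - Real.log r := Real.log_div hp0.ne' (by linarith)
        rw [← g6, Real.le_log_iff_exp_le (by positivity)] at g4
        have g7 := Real.add_one_le_exp (8 / η)
        have g8 : 8 / η ≤ p / r := by linarith
        rwa [le_div_iff₀ (by linarith)] at g8
      have g6 : 2 * (r : ℝ) ≤ η / 4 * p := by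
        have : η / 4 * (8 / η * r) = 2 * r := by
          field_simp
          norm_num
        rw [← this]
        exact mul_le_mul_of_nonneg_left g5 (by positivity)
      have g7 : (2 : ℝ) ^ (r + 1) ≤ Real.exp (r + 1 : ℕ) := by
        rw [← Real.exp_one_pow]
        apply pow_le_pow_left₀ (by norm_num)
        linarith [Real.exp_one_gt_d9]
      refine g7.trans (Real.exp_le_exp.2 ?_)
      push_cast
      linarith
    have hLn := hL0 n
    have hLn2 := hLlog n
    have hn1 : Real.log ((n : ℝ) - 1) ≤ Real.log n := Real.log_le_log (by linarith) (by linarith)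
    have w1 := hvoid S hS n (n + L n) (by linarith) (by linarith) (by linarith) _ _ hPh
      (hMp n (by linarith) _)
    have w2 := hvoid S hS ((n : ℝ) - 1) (n + L n) (by linarith) (by linarith) (by linarith) _ _ hPh
      (hMp _ le_rfl _)
    have hexpn : Real.exp (-((n : ℝ) / 4)) ≤ Real.exp (-(((n : ℝ) - 1) / 4)) :=
      Real.exp_le_exp.2 (by linarith)
    have hI : ∫ c, gX e A S k (L k) c * gX e A S n (L n) c ∂muI =
        ∫ c, gX e A S k (L k) c * vd e A (win S n (n + L n)) c ∂muI -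
        ∫ c, gX e A S k (L k) c * vd e A (win S ((n : ℝ) - 1) (n + L n)) c ∂muI := by
      have i1 : ∀ T, Integrable (fun c => gX e A S k (L k) c * vd e A T c) muI := fun T =>
        int_bd ((gX_meas _ _ _ _ _).mul (vd_meas _ _ _)) (B := 1) fun c => by
          rw [abs_of_nonneg (mul_nonneg (gX_nonneg hS _ _ _ _ _) (vd_nonneg _ _ _ _))]
          exact mul_le_one₀ (gX_le_one hS _ _ _ _ _) (vd_nonneg _ _ _ _) (vd_le_one _ _ _ _)
      rw [← integral_sub (i1 _) (i1 _)]
      congr 1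
      ext c
      unfold gX
      ring
    have w1' := abs_le.1 w1
    have w2' := abs_le.1 w2
    have w3 := (hmean S hS n (by omega) (L n) hLn (hL n)).2
    set bk := ∫ c, gX e A S k (L k) c ∂muI with hbk'
    set bn := ∫ c, gX e A S n (L n) c ∂muI with hbn'
    set E := Real.exp (-(((n : ℝ) - 1) / 4)) with hE
    have hE0 : 0 < E := Real.exp_pos _
    have w4 : (∏ q ∈ win S n (n + L n), (1 - m q)) * bk -
        (∏ q ∈ win S ((n : ℝ) - 1) (n + L n), (1 - m q)) * bk ≤ bk * bn + 2 * E := by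
      have w5 : (∏ q ∈ win S n (n + L n), (1 - m q)) * bk -
        (∏ q ∈ win S ((n : ℝ) - 1) (n + L n), (1 - m q)) * bk =
        (∏ q ∈ win S n (n + L n), (1 - m q) - ∏ q ∈ win S ((n : ℝ) - 1) (n + L n), (1 - m q)) * bk := by ring
      rw [w5]
      calc (∏ q ∈ win S n (n + L n), (1 - m q) - ∏ q ∈ win S ((n : ℝ) - 1) (n + L n), (1 - m q)) * bk ≤
            (bn + 2 * E) * bk := mul_le_mul_of_nonneg_right w3 hbk.1
        _ = bk * bn + 2 * E * bk := by ring
        _ ≤ _ := by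
            have : 2 * E * bk ≤ 2 * E := mul_le_of_le_one_right (by linarith) hbk.2
            linarith
    have w6 : 4 * E ≤ ρ k * ρ n := by
      simp only [hρ, hE]
      have e1 : 2 * Real.exp (-(((k : ℝ) - 1) / 8)) * (2 * Real.exp (-(((n : ℝ) - 1) / 8))) =
          4 * (Real.exp (-(((k : ℝ) - 1) / 8)) * Real.exp (-(((n : ℝ) - 1) / 8))) := by ring
      rw [e1, ← Real.exp_add]
      apply mul_le_mul_of_nonneg_left _ (by norm_num)
      rw [Real.exp_le_exp]
      linarith
    have w7 := mul_nonneg (nr_nonneg L C0 k n) hbk.1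
    have w8 : 0 ≤ ε * (bk * bn) := mul_nonneg hε.le (mul_nonneg hbk.1 hbn.1)
    have w9 : (1 + ε) * (bk * bn) = bk * bn + ε * (bk * bn) := by ring
    rw [hI, w9]
    linarith [w1'.2, w2'.1]
  · intro hsum
    apply hdiv
    have h1 : Summable fun n : ℕ => 4 * ∫ c, gX e A S n (L n) c ∂muI := hsum.mul_left 4
    refine Summable.of_norm_bounded_eventually_nat h1 ?_
    filter_upwards [eventually_ge_atTop M0] with n hn
    rw [Real.norm_eq_abs, abs_of_pos (Real.exp_pos _)]
    have h2 := (hmean S hS n hn (L n) (hL0 n) (hL n)).1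
    linarith

end

end Pool.Agent.K9h18.EX
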