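import Pool.Agent.K9h18.EX.Cnt3

set_option autoImplicit false

/-!
# The number of integers with prime rough part in short intervals, with a smaller error
-/

open Filter Topology Set MeasureTheory Metric
open scoped Real

namespace Pool.Agent.K9h18.EX

open Pool.Agent.K9h18.HS (bigS smallS big_count small_eq rough_count)
open Pool.Agent.H305R2 (roughPart SM SMz SM_pos mem_SMz ZZ VV VV_le tail_le sum_rough_eq
  roughPart_mul roughPart_prime ZZ_nonneg VV_nonneg sum_le_VV)

lemma ev_small (C : ℝ) {c : ℝ} (hc : 0 < c) : ∀ᶠ q : ℕ in atTop, C + 8 * Real.log q ≤ c * q := by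
  have h1 := (Real.isLittleO_log_id_atTop).bound (show (0 : ℝ) < c / 16 by positivity)
  have h2 : ∀ᶠ x : ℝ in atTop, C + 8 * Real.log x ≤ c * x := by
    filter_upwards [h1, eventually_ge_atTop 1, eventually_ge_atTop (2 * |C| / c)] with x hx hx1 hx2
    rw [Real.norm_of_nonneg (Real.log_nonneg hx1), id, Real.norm_of_nonneg (by linarith)] at hx
    rw [div_le_iff₀ hc] at hx2
    have := le_abs_self C
    linarith
  exact tendsto_natCast_atTop_atTop.eventually h2

/-- large smooth parts are rare -/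
theorem big_rare2 {ε : ℝ} (hε : 0 < ε) (hε1 : ε ≤ 1 / 8) : ∃ P : ℕ, ∀ q ≥ P, ∀ A B : ℕ, A ≤ B →
    Real.exp (q / 2) ≤ (B : ℝ) - A →
    ((bigS q A B (Real.exp (ε * q))).card : ℝ) ≤ ((B : ℝ) - A) / q ^ 2 := by
  obtain ⟨C2, hC2, hZ⟩ := Pool.Agent.TH888.R.ZZ_rate
  have hlog : Tendsto (fun q : ℕ => Real.log q) atTop atTop :=
    Real.tendsto_log_atTop.comp tendsto_natCast_atTop_atTop
  have hsm2 : ∀ᶠ q : ℕ in atTop, Real.exp (ε * q) * q ≤ Real.exp (q / 2) / (2 * q ^ 2) ∧
      Real.exp (-(ε * q / 2)) * Real.exp (C2 * (q / Real.log q)) ≤ 1 / (2 * (q : ℝ) ^ 2) := by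
    filter_upwards [ev_small 1 (show (0 : ℝ) < 1 / 4 by norm_num), ev_small 1 (show 0 < ε / 4 by positivity),
      hlog.eventually_ge_atTop (4 * C2 / ε), eventually_ge_atTop 2] with q h1 h1' h2 h3
    have hq2 : (2 : ℝ) ≤ q := by exact_mod_cast h3
    have hq0 : (0 : ℝ) < q := by linarith
    have hlq : 0 < Real.log q := Real.log_pos (by linarith)
    have hee : Real.exp 1 ≥ 2 := by linarith [Real.exp_one_gt_d9]
    constructor
    · rw [le_div_iff₀ (by positivity)]
      have e1 : Real.exp (ε * q) * q * (2 * q ^ 2) ≤ Real.exp (ε * q + 3 * Real.log q + 1) := by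
        rw [Real.exp_add, Real.exp_add]
        have : Real.exp (3 * Real.log q) = (q : ℝ) ^ 3 := by
          rw [show 3 * Real.log (q : ℝ) = ((3 : ℕ) : ℝ) * Real.log q by norm_num,
            Real.exp_nat_mul, Real.exp_log hq0]
        rw [this]
        calc Real.exp (ε * q) * q * (2 * q ^ 2) = Real.exp (ε * q) * (q : ℝ) ^ 3 * 2 := by ring
          _ ≤ _ := mul_le_mul_of_nonneg_left hee (by positivity)
      refine e1.trans (Real.exp_le_exp.2 ?_)
      have h4 : ε * q ≤ 1 / 8 * q := mul_le_mul_of_nonneg_right hε1 hq0.le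
      linarith
    · rw [le_div_iff₀ (by positivity)]
      have h4 : C2 * (q / Real.log q) ≤ ε * q / 4 := by
        rw [mul_div_assoc', div_le_iff₀ hlq]
        rw [div_le_iff₀ hε] at h2
        have h5 : 4 * C2 * q ≤ Real.log q * ε * q := mul_le_mul_of_nonneg_right h2 hq0.le
        linarith
      have e1 : Real.exp (-(ε * q / 2)) * Real.exp (C2 * (q / Real.log q)) * (2 * q ^ 2) ≤
          Real.exp (-(ε * q / 2) + C2 * (q / Real.log q) + 2 * Real.log q + 1) := by
        rw [Real.exp_add, Real.exp_add, Real.exp_add]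
        have : Real.exp (2 * Real.log q) = (q : ℝ) ^ 2 := by
          rw [show 2 * Real.log (q : ℝ) = ((2 : ℕ) : ℝ) * Real.log q by norm_num,
            Real.exp_nat_mul, Real.exp_log hq0]
        rw [this]
        calc Real.exp (-(ε * q / 2)) * Real.exp (C2 * (q / Real.log q)) * (2 * q ^ 2) =
              Real.exp (-(ε * q / 2)) * Real.exp (C2 * (q / Real.log q)) * (q : ℝ) ^ 2 * 2 := by ring
          _ ≤ _ := mul_le_mul_of_nonneg_left hee (by positivity)
      refine e1.trans (Real.exp_le_one_iff.2 ?_)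
      have h6 : 0 ≤ Real.log q := hlq.le
      linarith
  obtain ⟨P, hP⟩ := (hsm2.and (eventually_ge_atTop 2)).exists_forall_of_atTop
  refine ⟨P, fun q hq A B hAB hH2 => ?_⟩
  obtain ⟨⟨hsm2, hsm3⟩, hq2⟩ := hP q hq
  have hq0 : (0 : ℝ) < q := by exact_mod_cast (by omega : 0 < q)
  set H := (B : ℝ) - A with hH
  have hH0 : 0 < H := lt_of_lt_of_le (Real.exp_pos _) hH2
  have h1 := big_count q A B (by omega) hAB (S := Real.exp (ε * q))
    (Real.one_le_exp (by positivity))
  rw [← hH] at h1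
  refine h1.trans ?_
  have h2 : Real.exp (ε * q) ^ (-(1 / 2) : ℝ) * ZZ q ≤ 1 / (2 * q ^ 2) := by
    have h10 : Real.exp (ε * q) ^ (-(1 / 2) : ℝ) = Real.exp (-(ε * q / 2)) := by
      rw [← Real.exp_mul]
      congr 1
      ring
    rw [h10]
    exact (mul_le_mul_of_nonneg_left (hZ q hq2) (Real.exp_pos _).le).trans hsm3
  have h3 : H * (Real.exp (ε * q) ^ (-(1 / 2) : ℝ) * ZZ q) ≤ H * (1 / (2 * q ^ 2)) :=
    mul_le_mul_of_nonneg_left h2 hH0.le
  have h4 : Real.exp (ε * q) * q ≤ H / (2 * q ^ 2) := by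
    refine hsm2.trans ?_
    gcongr
  have e1 : H / q ^ 2 = H * (1 / (2 * q ^ 2)) + H / (2 * q ^ 2) := by
    field_simp
    ring
  rw [e1]
  linarith

/-- the local density -/
noncomputable def DD (ε : ℝ) (q : ℕ) : ℝ :=
  ∑ s ∈ SMz q (Real.exp (ε * q)), (s : ℝ)⁻¹ / (q * Real.log 2 - Real.log s)

/-- **The number of integers with prime `q`-rough part in a short interval** around `2 ^ q`. -/
theorem rough_count3 (hPV : Pool.Agent.N176.OW.S_PV) {e : ℝ} (he : 0 < e) (he1 : e < 1 / 4) :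
    ∃ K : ℝ, 0 < K ∧ ∃ P : ℕ, ∀ q ≥ P, ∀ A B : ℕ, 2 ^ (q - 2) ≤ A → A ≤ 2 ^ (q + 1) → A ≤ B →
      ((B : ℝ) - A) * q ^ 2 ≤ A → Real.exp ((3 / 4 + e) * (q * Real.log 2)) ≤ (B : ℝ) - A →
      |(((Finset.Ioc A B).filter (fun m => (roughPart q m).Prime)).card : ℝ) -
        ((B : ℝ) - A) * DD (e / 16) q| ≤ K * (((B : ℝ) - A) * (Real.log q / q ^ 2)) := by
  obtain ⟨Z0, hZ0, hcnt⟩ := short_count2 hPV (e := e / 2) (by linarith) (by linarith)
  obtain ⟨C1, hC1, hV⟩ := Pool.Agent.TH888.R.VV_rate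
  obtain ⟨Pb, hPb⟩ := big_rare2 (ε := e / 16) (by positivity) (by linarith)
  set ε := e / 16 with hε
  have hε0 : 0 < ε := by positivity
  have hε1 : ε ≤ 1 / 64 := by rw [hε]; linarith
  set G := Real.exp Real.eulerMascheroniConstant with hG
  have hG0 : 0 < G := Real.exp_pos _
  have hl2 : 0 < Real.log 2 := Real.log_pos (by norm_num)
  have hl2a : 0.69 < Real.log 2 := by linarith [Real.log_two_gt_d9]
  have hl2b : Real.log 2 < 0.7 := by linarith [Real.log_two_lt_d9]
  obtain ⟨P, hP⟩ := ((ev_small (4 * Z0 + 64) (show (0 : ℝ) < 1 by norm_num)).and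
    (ev_small 4 (show 0 < e / 8 by positivity))).exists_forall_of_atTop
  refine ⟨8 * (G + C1) + 1, by positivity, P + Pb + 4, fun q hq A B hA1 hA2 hAB hH1 hH2 => ?_⟩
  obtain ⟨c1, c2⟩ := hP q (by omega)
  have hq4 : 4 ≤ q := by omega
  have hq4' : (4 : ℝ) ≤ q := by exact_mod_cast hq4
  have hq0 : (0 : ℝ) < q := by linarith
  set l := Real.log q with hl
  have hl1 : 1 ≤ l := by
    rw [hl, Real.le_log_iff_exp_le hq0]
    have := Real.exp_one_lt_d9
    linarith
  have hl0 : 0 < l := by linarith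
  have c5 : (64 : ℝ) ≤ q := by linarith
  have c4 : 4 * Z0 ≤ q := by linarith
  set H := (B : ℝ) - A with hH
  have hH0 : 0 < H := lt_of_lt_of_le (Real.exp_pos _) hH2
  have hA0 : (0 : ℝ) < A := by
    have : 0 < A := lt_of_lt_of_le (by positivity) hA1
    exact_mod_cast this
  have hB0 : (0 : ℝ) < B := by rw [hH] at hH0; linarith
  have hA1' : Real.exp ((q - 2) * Real.log 2) ≤ A := by
    have h1 : ((2 ^ (q - 2) : ℕ) : ℝ) ≤ A := by exact_mod_cast hA1
    have h2 : ((2 ^ (q - 2) : ℕ) : ℝ) = Real.exp ((q - 2) * Real.log 2) := by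
      have h3 : ((q : ℝ) - 2) = ((q - 2 : ℕ) : ℝ) := by
        rw [Nat.cast_sub (by omega), Nat.cast_ofNat]
      rw [h3, Real.exp_nat_mul, Real.exp_log (by norm_num)]
      push_cast
      rfl
    rw [← h2]
    exact h1
  have hA2' : (A : ℝ) ≤ Real.exp ((q + 1) * Real.log 2) := by
    have h1 : (A : ℝ) ≤ ((2 ^ (q + 1) : ℕ) : ℝ) := by exact_mod_cast hA2
    have h2 : ((2 ^ (q + 1) : ℕ) : ℝ) = Real.exp ((q + 1) * Real.log 2) := by
      have h3 : ((q : ℝ) + 1) = ((q + 1 : ℕ) : ℝ) := by push_cast; ring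
      rw [h3, Real.exp_nat_mul, Real.exp_log (by norm_num)]
      push_cast
      rfl
    rw [← h2]
    exact h1
  set y := Real.log A with hy
  have hy1 : (q - 2) * Real.log 2 ≤ y := by rw [hy, Real.le_log_iff_exp_le hA0]; exact hA1'
  have hy2 : y ≤ (q + 1) * Real.log 2 := by rw [hy, Real.log_le_iff_le_exp hA0]; exact hA2'
  have hql : (q : ℝ) * 0.69 ≤ q * Real.log 2 := mul_le_mul_of_nonneg_left hl2a.le hq0.le
  have hql2 : (q : ℝ) * Real.log 2 ≤ q * 0.7 := mul_le_mul_of_nonneg_left hl2b.le hq0.le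
  have hyq : (q : ℝ) * 0.64 ≤ y := by linarith only [hql, hy1, c5, hl2b]
  have hyq2 : y ≤ q := by linarith only [hql2, hy2, c5, hl2b]
  have hy0 : 0 < y := by linarith
  set S := Real.exp (ε * q) with hS
  have hS0 : 0 < S := Real.exp_pos _
  have hS1 : 1 ≤ S := Real.one_le_exp (by positivity)
  have hexpA : Real.exp y = A := Real.exp_log hA0
  have hεq : ε * q ≤ 1 / 64 * q := mul_le_mul_of_nonneg_right hε1 hq0.le
  have hSA : S ≤ A := by
    rw [← hexpA, hS]
    apply Real.exp_le_exp.2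
    linarith only [hεq, hyq, hq0]
  have hSB : S ≤ B := by
    have : (A : ℝ) ≤ B := by exact_mod_cast hAB
    linarith
  -- the ratio
  set ρ := Real.log B - y with hρ
  have hratio : ρ = Real.log (1 + H / A) := by
    rw [hρ, hy, ← Real.log_div hB0.ne' hA0.ne']
    congr 1
    rw [hH]
    field_simp
    ring
  have hHA : H / A ≤ 1 / q ^ 2 := by
    rw [div_le_div_iff₀ hA0 (by positivity)]
    linarith
  have hHA0 : 0 < H / A := by positivity
  have h1q : 1 / (q : ℝ) ^ 2 ≤ 1 / 64 := by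
    apply one_div_le_one_div_of_le (by norm_num)
    nlinarith
  have hρ1 : ρ ≤ 1 / q ^ 2 := by
    rw [hratio]
    have := Real.log_le_sub_one_of_pos (show 0 < 1 + H / A by positivity)
    linarith
  have hρ2 : H / A / 2 ≤ ρ := by
    rw [hratio, Real.le_log_iff_exp_le (by positivity)]
    have h2 : |H / A / 2| ≤ 1 := by rw [abs_of_pos (by positivity)]; linarith
    have := (abs_le.1 (Real.abs_exp_sub_one_le h2)).2
    rw [abs_of_pos (by positivity)] at this
    linarith
  have hρ0 : 0 < ρ := by linarith [half_pos hHA0]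
  -- the individual terms
  have hterm : ∀ s ∈ SMz q S, q ≤ A / s ∧
      |(((Finset.Ioc (A / s) (B / s)).filter Nat.Prime).card : ℝ) -
        H * ((s : ℝ)⁻¹ / (q * Real.log 2 - Real.log s))| ≤ H * (s : ℝ)⁻¹ * (8 / q ^ 2) := by
    intro s hs
    rw [mem_SMz hS0.le] at hs
    have hs0 := SM_pos hs.1
    have hs0' : (0 : ℝ) < s := by exact_mod_cast hs0
    have hls0 : 0 ≤ Real.log s := Real.log_nonneg (by exact_mod_cast hs0)
    have hls : Real.log s ≤ ε * q := by
      rw [Real.log_le_iff_le_exp hs0']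
      exact hs.2
    set a := y - Real.log s with ha
    set b := Real.log B - Real.log s with hb
    have hab : b - a = ρ := by rw [ha, hb, hρ]; ring
    have ha2 : a ≤ y := by rw [ha]; linarith
    have ha3 : q / 2 ≤ a := by
      rw [ha]
      linarith only [hyq, hls, hεq, hq0]
    have ha0 : 0 < a := by linarith only [ha3, hq0]
    have hea : Real.exp a = A / s := by
      rw [ha, Real.exp_sub, Real.exp_log hs0', hexpA]
    have heb : Real.exp b = B / s := by
      rw [hb, Real.exp_sub, Real.exp_log hs0', Real.exp_log hB0]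
    have hfa : ⌊Real.exp a⌋₊ = A / s := by rw [hea, Nat.floor_div_eq_div]
    have hfb : ⌊Real.exp b⌋₊ = B / s := by rw [heb, Nat.floor_div_eq_div]
    have hqA : q ≤ A / s := by
      rw [← hfa]
      apply Nat.le_floor
      have h2 : (q : ℝ) ≤ Real.exp (q / 4) := by
        have h3 := Real.quadratic_le_exp_of_nonneg (show 0 ≤ (q : ℝ) / 4 by positivity)
        have h4 : 64 * (q : ℝ) ≤ q * q := mul_le_mul_of_nonneg_right c5 hq0.le
        have e1 : ((q : ℝ) / 4) ^ 2 / 2 = q * q / 32 := by ring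
        rw [e1] at h3
        linarith only [h3, h4, hq0]
      exact h2.trans (Real.exp_le_exp.2 (by linarith only [ha3, hq0]))
    refine ⟨hqA, ?_⟩
    have h3 := hcnt a b (by linarith only [c4, ha3, hZ0]) (by linarith only [hab, hρ0]) (by
      have h4 : 1 / (q : ℝ) ^ 2 ≤ 1 / a ^ 2 := by
        apply one_div_le_one_div_of_le (by positivity)
        exact pow_le_pow_left₀ ha0.le (ha2.trans hyq2) 2
      linarith only [h4, hab, hρ1]) (by
      rw [hab]
      refine le_trans ?_ hρ2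
      rw [le_div_iff₀ (by norm_num), le_div_iff₀ hA0]
      have h5 : Real.exp (-((1 / 4 - e / 2) * a)) * 2 * A ≤
          Real.exp (-((1 / 4 - e / 2) * a) + 1 * Real.log 2 + (q + 1) * Real.log 2) := by
        rw [Real.exp_add, Real.exp_add, one_mul, Real.exp_log (by norm_num : (0 : ℝ) < 2)]
        exact mul_le_mul_of_nonneg_left hA2' (by positivity)
      refine h5.trans (le_trans (Real.exp_le_exp.2 ?_) hH2)
      have h6 : (1 / 4 - e / 2) * ((q - 2) * Real.log 2 - ε * q) ≤ (1 / 4 - e / 2) * a := by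
        apply mul_le_mul_of_nonneg_left _ (by linarith only [he1])
        rw [ha]
        linarith only [hy1, hls]
      have h7 : e * (q * 0.69) ≤ e * (q * Real.log 2) := mul_le_mul_of_nonneg_left hql he.le
      have h8 : 0 ≤ e * Real.log 2 := by positivity
      have h9 : (1 / 4 - e / 2) * (ε * q) ≤ 1 / 4 * (ε * q) :=
        mul_le_mul_of_nonneg_right (by linarith) (by positivity)
      have h10 : ε * q = e * q / 16 := by rw [hε]; ring
      rw [h10] at h6 h9
      have h11 : 32 ≤ e * q := by linarith [hl0, c2]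
      nlinarith [h6, h7, h8, h9, hl2b, h11])
    rw [hfa, hfb, hea, heb] at h3
    have h4 : (B : ℝ) / s - A / s = H / s := by rw [hH]; ring
    rw [h4] at h3
    -- comparison of the densities
    set a' := q * Real.log 2 - Real.log s with ha'
    have ha'2 : q / 2 ≤ a' := by
      rw [ha']
      linarith only [hql, hls, hεq, hq0]
    have ha'0 : 0 < a' := by linarith only [ha'2, hq0]
    have haa : |a' - a| ≤ 1.4 := by
      have : a' - a = q * Real.log 2 - y := by rw [ha', ha]; ring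
      rw [this, abs_le]
      constructor <;> linarith only [hy1, hy2, hl2b, hl2]
    have hHs0 : 0 < H * (s : ℝ)⁻¹ := by positivity
    have e1 : H / s / a - H * ((s : ℝ)⁻¹ / a') = H * (s : ℝ)⁻¹ * ((a' - a) / (a * a')) := by
      field_simp
    have h5 : |H / s / a - H * ((s : ℝ)⁻¹ / a')| ≤ H * (s : ℝ)⁻¹ * (6 / q ^ 2) := by
      rw [e1, abs_mul, abs_of_pos hHs0]
      apply mul_le_mul_of_nonneg_left _ hHs0.le
      rw [abs_div, abs_of_pos (by positivity : 0 < a * a'), div_le_div_iff₀ (by positivity) (by positivity)]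
      have h6 : (q : ℝ) / 2 * (q / 2) ≤ a * a' := mul_le_mul ha3 ha'2 (by positivity) ha0.le
      have h7 : |a' - a| * (q : ℝ) ^ 2 ≤ 1.4 * (q : ℝ) ^ 2 := mul_le_mul_of_nonneg_right haa (by positivity)
      nlinarith
    have h6 : 16 * (H / s / a) / a ^ 2 ≤ H * (s : ℝ)⁻¹ * (2 / q ^ 2) := by
      have e2 : 16 * (H / s / a) / a ^ 2 = H * (s : ℝ)⁻¹ * (16 / a ^ 3) := by
        field_simp
      rw [e2]
      apply mul_le_mul_of_nonneg_left _ hHs0.le
      rw [div_le_div_iff₀ (by positivity) (by positivity)]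
      have h7 : ((q : ℝ) / 2) ^ 3 ≤ a ^ 3 := pow_le_pow_left₀ (by positivity) ha3 3
      have h8 : 64 * (q : ℝ) ^ 2 ≤ q * q ^ 2 := mul_le_mul_of_nonneg_right c5 (by positivity)
      nlinarith
    have e3 : (((Finset.Ioc (A / s) (B / s)).filter Nat.Prime).card : ℝ) - H * ((s : ℝ)⁻¹ / a') =
        ((((Finset.Ioc (A / s) (B / s)).filter Nat.Prime).card : ℝ) - H / s / a) +
        (H / s / a - H * ((s : ℝ)⁻¹ / a')) := by ring
    rw [e3]
    refine (abs_add_le _ _).trans ?_
    have e4 : H * (s : ℝ)⁻¹ * (8 / q ^ 2) = H * (s : ℝ)⁻¹ * (2 / q ^ 2) + H * (s : ℝ)⁻¹ * (6 / q ^ 2) := by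
      ring
    rw [e4]
    exact add_le_add (h3.trans h6) h5
  have hsmall := small_eq q A B hS0.le hSB fun s hs => (hterm s hs).1
  -- the Euler products
  obtain ⟨_, hVb⟩ := abs_le.1 (hV q (by omega))
  rw [← hl] at hVb
  set V1 := ∑ s ∈ SMz q S, (s : ℝ)⁻¹ with hV1
  have hW1u : V1 ≤ VV q := sum_le_VV q _ fun n hn => ((mem_SMz hS0.le).1 hn).1
  have hV1l : V1 ≤ (G + C1) * l := by
    have : C1 ≤ C1 * l := le_mul_of_one_le_right hC1.le hl1
    linarith
  have hss : |((smallS q A B S).card : ℝ) - H * DD ε q| ≤ H * (8 / q ^ 2) * V1 := by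
    unfold DD
    rw [hsmall, Finset.mul_sum, ← Finset.sum_sub_distrib, hV1, Finset.mul_sum]
    refine (Finset.abs_sum_le_sum_abs _ _).trans (Finset.sum_le_sum fun s hs => ?_)
    refine (hterm s hs).2.trans (le_of_eq ?_)
    ring
  have hbig := hPb q (by omega) A B hAB (by
    refine le_trans (Real.exp_le_exp.2 ?_) hH2
    have h1 : 0 ≤ e * (q * Real.log 2) := by positivity
    linarith only [h1, hql, hq0])
  rw [← hH, ← hS] at hbig
  set R := (Finset.Ioc A B).filter (fun m => (roughPart q m).Prime) with hR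
  have hRsplit : (R.card : ℝ) = ((smallS q A B S).card : ℝ) + ((bigS q A B S).card : ℝ) := by
    have h1 := Finset.card_filter_add_card_filter_not (s := R)
      (fun m => ((m / roughPart q m : ℕ) : ℝ) ≤ S)
    have h2 : R.filter (fun m => ((m / roughPart q m : ℕ) : ℝ) ≤ S) = smallS q A B S := by
      rw [hR, Finset.filter_filter]
      rfl
    have h3 : R.filter (fun m => ¬ ((m / roughPart q m : ℕ) : ℝ) ≤ S) = bigS q A B S := by
      rw [hR, Finset.filter_filter]
      unfold bigS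
      simp only [not_le]
    rw [h2, h3] at h1
    exact_mod_cast h1.symm
  have hb0 : (0 : ℝ) ≤ ((bigS q A B S).card : ℝ) := Nat.cast_nonneg _
  have e1 : (R.card : ℝ) - H * DD ε q = (((smallS q A B S).card : ℝ) - H * DD ε q) +
      ((bigS q A B S).card : ℝ) := by rw [hRsplit]; ring
  rw [e1]
  refine (abs_add_le _ _).trans ?_
  rw [abs_of_nonneg hb0]
  have h1 : H * (8 / q ^ 2) * V1 ≤ H * (8 / q ^ 2) * ((G + C1) * l) :=
    mul_le_mul_of_nonneg_left hV1l (by positivity)
  have h2 : H / q ^ 2 ≤ H / q ^ 2 * l := le_mul_of_one_le_right (by positivity) hl1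
  calc |((smallS q A B S).card : ℝ) - H * DD ε q| + ((bigS q A B S).card : ℝ) ≤
        H * (8 / q ^ 2) * ((G + C1) * l) + H / q ^ 2 * l := by linarith
    _ = (8 * (G + C1) + 1) * (H * (l / q ^ 2)) := by ring

end Pool.Agent.K9h18.EX
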