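import Mathlib

set_option autoImplicit false

/-!
# Upper and lower limits
-/

open Filter Topology

namespace Pool.Agent.K9h18.EX

lemma log_ratio {δ : ℝ} (hδ : 0 < δ) : ∀ᶠ k : ℕ in atTop, 0 < Real.log k ∧
    Real.log ((k : ℝ) + 1) ≤ (1 + δ) * Real.log k := by
  have h1 : Tendsto (fun k : ℕ => Real.log (k : ℝ)) atTop atTop :=
    Real.tendsto_log_atTop.comp tendsto_natCast_atTop_atTop
  filter_upwards [h1.eventually_ge_atTop (1 / δ + 1), eventually_ge_atTop 1] with k hk hk1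
  have hk0 : (1 : ℝ) ≤ k := by exact_mod_cast hk1
  have hd : 0 < 1 / δ := by positivity
  have h2 : Real.log ((k : ℝ) + 1) ≤ Real.log k + 1 := by
    have h3 : Real.log ((k : ℝ) + 1) - Real.log k = Real.log (((k : ℝ) + 1) / k) :=
      (Real.log_div (by linarith) (by linarith)).symm
    have h4 : Real.log (((k : ℝ) + 1) / k) ≤ ((k : ℝ) + 1) / k - 1 :=
      Real.log_le_sub_one_of_pos (by positivity)
    have h5 : ((k : ℝ) + 1) / k - 1 = 1 / k := by
      field_simp
      ring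
    have h6 : 1 / (k : ℝ) ≤ 1 := by
      rw [div_le_one (by linarith)]
      exact hk0
    linarith
  refine ⟨by linarith, ?_⟩
  have h7 : 1 ≤ δ * Real.log k := by
    have : 1 / δ ≤ Real.log k := by linarith
    rw [div_le_iff₀ hδ] at this
    linarith
  linarith

/-- the upper limit -/
lemma limsup_law {g : ℕ → ℝ} {κ : ℝ} (hκ : 0 < κ) (h0 : ∀ k, 0 ≤ g k)
    (hu : ∀ n : ℕ, ∀ᶠ k : ℕ in atTop, κ * g k < (1 + 1 / ((n : ℝ) + 1)) * Real.log ((k : ℝ) + 1))
    (hl : ∃ᶠ k : ℕ in atTop, Real.log ((k : ℝ) + 1) < κ * g k) :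
    limsup (fun k : ℕ => g k / Real.log k) atTop = 1 / κ := by
  have hup : ∀ ε : ℝ, 0 < ε → ∀ᶠ k : ℕ in atTop, g k / Real.log k ≤ 1 / κ + ε := by
    intro ε hε
    -- `(1 + 1/(n+1)) (1 + δ) ≤ 1 + κ ε`
    set δ := min 1 (κ * ε) / 3 with hδ
    have hδ0 : 0 < δ := by
      have : 0 < min 1 (κ * ε) := lt_min one_pos (by positivity)
      positivity
    have hδ1 : δ ≤ 1 / 3 := by
      have : min 1 (κ * ε) ≤ 1 := min_le_left _ _
      linarith
    have hδ2 : 3 * δ ≤ κ * ε := by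
      have : min 1 (κ * ε) ≤ κ * ε := min_le_right _ _
      linarith
    obtain ⟨n, hn⟩ := exists_nat_one_div_lt hδ0
    filter_upwards [hu n, log_ratio hδ0] with k h1 h2
    obtain ⟨h3, h4⟩ := h2
    rw [div_le_iff₀ h3]
    have h5 : κ * g k ≤ (1 + δ) * ((1 + δ) * Real.log k) := by
      refine h1.le.trans ?_
      apply mul_le_mul (by linarith) h4 _ (by linarith)
      exact Real.log_nonneg (by have : (0 : ℝ) ≤ k := Nat.cast_nonneg k; linarith)
    have h6 : (1 + δ) * ((1 + δ) * Real.log k) ≤ (1 + κ * ε) * Real.log k := by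
      rw [← mul_assoc]
      apply mul_le_mul_of_nonneg_right _ h3.le
      nlinarith
    have h7 : κ * g k ≤ κ * ((1 / κ + ε) * Real.log k) := by
      have h8 : κ * ((1 / κ + ε) * Real.log k) = (1 + κ * ε) * Real.log k := by
        field_simp
      rw [h8]
      linarith
    exact le_of_mul_le_mul_left h7 hκ
  have hlo : ∃ᶠ k : ℕ in atTop, 1 / κ ≤ g k / Real.log k := by
    refine (hl.and_eventually (log_ratio one_pos)).mono fun k hk => ?_
    obtain ⟨h1, h2, h3⟩ := hk
    rw [le_div_iff₀ h2, div_mul_eq_mul_div, one_mul, div_le_iff₀ hκ]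
    have hk0 : (0 : ℝ) < k := by
      by_contra hcon
      have : (k : ℝ) = 0 := le_antisymm (not_lt.1 hcon) (Nat.cast_nonneg k)
      rw [this, Real.log_zero] at h2
      exact lt_irrefl _ h2
    have h4 : Real.log k ≤ Real.log ((k : ℝ) + 1) := Real.log_le_log hk0 (by linarith)
    linarith
  have hbdd : IsBoundedUnder (· ≤ ·) atTop (fun k : ℕ => g k / Real.log k) :=
    isBoundedUnder_of_eventually_le (hup 1 one_pos)
  have hcob : IsCoboundedUnder (· ≤ ·) atTop (fun k : ℕ => g k / Real.log k) :=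
    IsCoboundedUnder.of_frequently_ge hlo
  refine le_antisymm ?_ (le_limsup_of_frequently_le hlo hbdd)
  refine le_of_forall_pos_le_add fun ε hε => ?_
  exact limsup_le_of_le hcob (hup ε hε)

/-- the lower limit -/
lemma liminf_law {g : ℕ → ℝ} (h0 : ∀ k, 0 < g k)
    (hl : ∀ n : ℕ, ∀ᶠ k : ℕ in atTop, Real.exp (-((1 + 1 / ((n : ℝ) + 1)) * Real.log ((k : ℝ) + 1))) < g k)
    (hu : ∃ᶠ k : ℕ in atTop, g k < 1 / ((k : ℝ) + 1)) :
    liminf (fun k : ℕ => Real.log (g k) / Real.log k) atTop = -1 := by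
  have hlo : ∀ ε : ℝ, 0 < ε → ∀ᶠ k : ℕ in atTop, -1 - ε ≤ Real.log (g k) / Real.log k := by
    intro ε hε
    set δ := min 1 ε / 3 with hδ
    have hδ0 : 0 < δ := by
      have : 0 < min 1 ε := lt_min one_pos hε
      positivity
    have hδ1 : δ ≤ 1 / 3 := by
      have : min 1 ε ≤ 1 := min_le_left _ _
      linarith
    have hδ2 : 3 * δ ≤ ε := by
      have : min 1 ε ≤ ε := min_le_right _ _
      linarith
    obtain ⟨n, hn⟩ := exists_nat_one_div_lt hδ0
    filter_upwards [hl n, log_ratio hδ0] with k h1 h2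
    obtain ⟨h3, h4⟩ := h2
    rw [le_div_iff₀ h3]
    have h5 : -((1 + 1 / ((n : ℝ) + 1)) * Real.log ((k : ℝ) + 1)) ≤ Real.log (g k) := by
      rw [Real.le_log_iff_exp_le (h0 k)]
      exact h1.le
    have h6 : (1 + 1 / ((n : ℝ) + 1)) * Real.log ((k : ℝ) + 1) ≤ (1 + δ) * ((1 + δ) * Real.log k) := by
      apply mul_le_mul (by linarith) h4 _ (by linarith)
      exact Real.log_nonneg (by have : (0 : ℝ) ≤ k := Nat.cast_nonneg k; linarith)
    have h7 : (1 + δ) * ((1 + δ) * Real.log k) ≤ (1 + ε) * Real.log k := by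
      rw [← mul_assoc]
      apply mul_le_mul_of_nonneg_right _ h3.le
      nlinarith
    linarith
  have hup : ∃ᶠ k : ℕ in atTop, Real.log (g k) / Real.log k ≤ -1 := by
    refine (hu.and_eventually (log_ratio one_pos)).mono fun k hk => ?_
    obtain ⟨h1, h2, h3⟩ := hk
    rw [div_le_iff₀ h2]
    have hk0 : (0 : ℝ) < k := by
      by_contra hcon
      have : (k : ℝ) = 0 := le_antisymm (not_lt.1 hcon) (Nat.cast_nonneg k)
      rw [this, Real.log_zero] at h2
      exact lt_irrefl _ h2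
    have h4 : Real.log k ≤ Real.log ((k : ℝ) + 1) := Real.log_le_log hk0 (by linarith)
    have h5 : Real.log (g k) ≤ Real.log (1 / ((k : ℝ) + 1)) := Real.log_le_log (h0 k) h1.le
    rw [one_div, Real.log_inv] at h5
    linarith
  have hbdd : IsBoundedUnder (· ≥ ·) atTop (fun k : ℕ => Real.log (g k) / Real.log k) :=
    isBoundedUnder_of_eventually_ge (hlo 1 one_pos)
  have hcob : IsCoboundedUnder (· ≥ ·) atTop (fun k : ℕ => Real.log (g k) / Real.log k) :=
    IsCoboundedUnder.of_frequently_le hup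
  refine le_antisymm (liminf_le_of_frequently_le hup hbdd) ?_
  refine le_of_forall_pos_le_add fun ε hε => ?_
  have := le_liminf_of_le hcob (hlo ε hε)
  linarith

lemma sum_pow_exp (n : ℕ) : Summable fun k : ℕ =>
    Real.exp (-((1 + 1 / ((n : ℝ) + 1)) * Real.log ((k : ℝ) + 1))) := by
  have h1 : Summable fun k : ℕ => 1 / (((k + 1 : ℕ) : ℝ)) ^ (1 + 1 / ((n : ℝ) + 1)) := by
    have h2 : Summable fun k : ℕ => 1 / ((k : ℝ)) ^ (1 + 1 / ((n : ℝ) + 1)) :=
      Real.summable_one_div_nat_rpow.2 (by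
        have : 0 < 1 / ((n : ℝ) + 1) := by positivity
        linarith)
    exact (summable_nat_add_iff 1).2 h2
  refine h1.congr fun k => ?_
  have hk : (0 : ℝ) < (k : ℝ) + 1 := by positivity
  push_cast
  rw [Real.rpow_def_of_pos hk, Real.exp_neg, one_div, mul_comm]

lemma not_sum_one : ¬ Summable fun k : ℕ => 1 / ((k : ℝ) + 1) := by
  intro h
  have h1 : Summable fun k : ℕ => 1 / ((k + 1 : ℕ) : ℝ) := by
    refine h.congr fun k => ?_
    push_cast
    rfl
  exact Real.not_summable_one_div_natCast ((summable_nat_add_iff 1).1 h1)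

end Pool.Agent.K9h18.EX
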