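import Pool.Agent.K9h18.EX.Big2
import Pool.Agent.K9h18.EX.BC1
import Pool.Agent.K9h18.AP.AsmA

set_option autoImplicit false

/-!
# The positions of the events
-/

open Finset Filter Topology MeasureTheory

namespace Pool.Agent.K9h18.EX

open Pool.Agent.H305R2 (roughPart)
open Pool.Agent.TH888.R (wt wt_nonneg wt_le_one VS VS_univ_bound VS_nonneg VS_mono gr gr_small cS)
open Pool.Agent.K9h18.HS (kc kc_pos log_ge_one wt_tendsto win Nx VS_zero VS_step mass_Ioc PtR Ev VS_lt cS_nth)
open Pool.Agent.K9h18.AP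

/-- the position of the `k`-th event on the scale of the weight -/
noncomputable def xx (s : ℕ → ℕ) (S : Set ℕ) (k : ℕ) : ℝ := VS S (Nat.nth (Ev s S) k)

/-- the facts used below -/
structure Good (s : ℕ → ℕ) (S : Set ℕ) : Prop where
  inf : (Set.ofPred (Ev s S)).Infinite
  mono : StrictMono (xx s S)
  top : Tendsto (xx s S) atTop atTop
  rate : ∀ᶠ k : ℕ in atTop, 2 * xx s S k ≤ k ∧ (k : ℝ) ≤ 3 * xx s S k
  lim : Tendsto (fun k : ℕ => xx s S k / k) atTop (𝓝 (1 / kc))

theorem good {S : Set ℕ} (hS : Tendsto (VS S) atTop atTop) {s : ℕ → ℕ} (hP : PtR s kc S) : Good s S := by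
  have hκ := kc_pos
  have hinf : (Set.ofPred (Ev s S)).Infinite := hP.inf hκ hS
  have hmono : StrictMono (xx s S) := by
    refine strictMono_nat_of_lt_succ fun k => ?_
    have h1 : Nat.nth (Ev s S) k < Nat.nth (Ev s S) (k + 1) :=
      Nat.nth_strictMono hinf (Nat.lt_succ_self k)
    have h2 : Ev s S (Nat.nth (Ev s S) (k + 1)) := Nat.nth_mem_of_infinite hinf _
    exact VS_lt h1 h2.1 h2.2.1
  have hpos : ∀ k, 0 < xx s S k := by
    intro k
    have h2 : Ev s S (Nat.nth (Ev s S) k) := Nat.nth_mem_of_infinite hinf _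
    have := VS_lt (S := S) (p := 0) h2.1.pos h2.1 h2.2.1
    rwa [VS_zero] at this
  have hVk : Tendsto (xx s S) atTop atTop :=
    hS.comp (Nat.nth_strictMono hinf).tendsto_atTop
  obtain ⟨B, hB, hn⟩ := hP.law hS
  have h1 : Tendsto (fun k : ℕ => ((k : ℝ) + 1) / xx s S k) atTop (𝓝 kc) := by
    rw [Metric.tendsto_atTop]
    intro ε hε
    obtain ⟨N, hN⟩ := eventually_atTop.1 (hVk.eventually (gr_small hB (show 0 < ε / 2 by positivity)))
    refine ⟨N, fun k hk => ?_⟩
    have h2 := hN k hk
    have h3 := hn (Nat.nth (Ev s S) k)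
    rw [cS_nth hinf] at h3
    push_cast at h3
    have h4 := hpos k
    rw [Real.dist_eq]
    have h5 : ((k : ℝ) + 1) / xx s S k - kc = (((k : ℝ) + 1) - kc * xx s S k) / xx s S k := by
      field_simp
    rw [h5, abs_div, abs_of_pos h4, div_lt_iff₀ h4]
    change |((k : ℝ) + 1) - kc * xx s S k| ≤ B * gr (xx s S k) at h3
    nlinarith
  have h2 : Tendsto (fun k : ℕ => ((k : ℝ) + 1) / k) atTop (𝓝 1) := by
    have h3 : Tendsto (fun k : ℕ => 1 + 1 / (k : ℝ)) atTop (𝓝 (1 + 0)) :=
      tendsto_const_nhds.add (tendsto_const_div_atTop_nhds_zero_nat 1)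
    rw [add_zero] at h3
    refine h3.congr' ?_
    filter_upwards [eventually_ge_atTop 1] with k hk
    have : (k : ℝ) ≠ 0 := by exact_mod_cast (by omega : k ≠ 0)
    field_simp
  refine ⟨hinf, hmono, hVk, ?_, ?_⟩
  · have hk1 := kc_gt
    have hk2 := kc_lt
    set d := (kc - 2) / 2 with hd
    filter_upwards [h1.eventually_le_const (show kc < 3 by exact hk2),
      h1.eventually_const_le (show 2 + d < kc by linarith),
      hVk.eventually_ge_atTop (1 / d)] with k g1 g2 g3
    have h4 := hpos k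
    rw [div_le_iff₀ h4] at g1
    rw [le_div_iff₀ h4] at g2
    have hd0 : 0 < d := by
      simp only [hd]
      linarith
    rw [div_le_iff₀ hd0] at g3
    constructor <;> nlinarith
  · have h3 := h2.div h1 hκ.ne'
    refine h3.congr fun k => ?_
    have h4 := hpos k
    have h5 : (k : ℝ) + 1 ≠ 0 := by positivity
    rcases Nat.eq_zero_or_pos k with rfl | hk
    · simp
    · have : (k : ℝ) ≠ 0 := by exact_mod_cast (by omega : k ≠ 0)
      simp only [Pi.div_apply]
      field_simp

lemma Good.next {s : ℕ → ℕ} {S : Set ℕ} (hG : Good s S) {k p : ℕ} (hp : Ev s S p)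
    (h : xx s S k < VS S p) : xx s S (k + 1) ≤ VS S p := by
  classical
  have h1 : Nat.nth (Ev s S) k < p := by
    by_contra hcon
    have := VS_mono S (not_lt.1 hcon)
    unfold xx at h
    linarith
  have h2 : Nat.nth (Ev s S) (Nat.count (Ev s S) p) = p := Nat.nth_count hp
  have h3 : k < Nat.count (Ev s S) p := by
    by_contra hcon
    have h4 := (Nat.nth_strictMono hG.inf).monotone (not_lt.1 hcon)
    omega
  have h5 := (Nat.nth_strictMono hG.inf).monotone (show k + 1 ≤ Nat.count (Ev s S) p from h3)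
  rw [h2] at h5
  exact VS_mono S h5

lemma Good.idx {s : ℕ → ℕ} {S : Set ℕ} {p : ℕ} (hp : Ev s S p) :
    ∃ k, Nat.nth (Ev s S) k = p := by
  classical
  exact ⟨_, Nat.nth_count hp⟩

lemma Good.last {s : ℕ → ℕ} {S : Set ℕ} (hG : Good s S) {p : ℕ} (hp : Ev s S p) {y : ℝ}
    (h : VS S p ≤ y) : ∃ k, VS S p ≤ xx s S k ∧ xx s S k ≤ y ∧ y < xx s S (k + 1) := by
  classical
  obtain ⟨k0, hk0⟩ := Good.idx hp
  have h1 : ∃ k, y < xx s S k := (hG.top.eventually_gt_atTop y).exists
  have h2 := Nat.find_spec h1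
  have h3 : xx s S k0 ≤ y := by
    unfold xx
    rw [hk0]
    exact h
  have h4 : k0 < Nat.find h1 := by
    by_contra hcon
    have := hG.mono.monotone (not_lt.1 hcon)
    linarith
  obtain ⟨j, hj⟩ := Nat.exists_eq_add_of_le' (show 1 ≤ Nat.find h1 by omega)
  refine ⟨j, ?_, ?_, ?_⟩
  · have h5 := hG.mono.monotone (show k0 ≤ j by omega)
    rw [← hk0]
    exact h5
  · have h5 := Nat.find_min h1 (show j < Nat.find h1 by omega)
    exact not_lt.1 h5
  · rw [← hj]
    exact h2

lemma Ev_of_fa {e A : ℕ → ℕ} {S : Set ℕ} {p : ℕ} {c : ℕ → ℝ} (hp : p.Prime) (hpS : p ∈ S)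
    (h : fa e A p c = 1) : Ev (nn e A c) S p := by
  rw [fa_eq] at h
  refine ⟨hp, hpS, ?_⟩
  by_contra h1
  rw [if_neg h1] at h
  exact zero_ne_one h

lemma fa_of_Ev {e A : ℕ → ℕ} {S : Set ℕ} {p : ℕ} {c : ℕ → ℝ} (h : Ev (nn e A c) S p) :
    fa e A p c = 1 := by
  rw [fa_eq, if_pos h.2.2]

lemma xx_mem {s : ℕ → ℕ} {S : Set ℕ} (hG : Good s S) (k : ℕ) : Ev s S (Nat.nth (Ev s S) k) :=
  Nat.nth_mem_of_infinite hG.inf k

/-! ## Large gaps -/

section

variable {η : ℝ} {e A : ℕ → ℕ} {m κ : ℕ → ℝ} {P : ℕ} {K : ℝ} (hD : Dat η e A m κ P K)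
include hD

/-- **Long intervals without events: the convergent case.** -/
theorem big_conv {S : Set ℕ} (hS : Tendsto (VS S) atTop atTop) {L : ℕ → ℝ}
    (hL0 : ∀ n, 0 ≤ L n) (hL : ∀ n, kc * L n ≤ 2 * Real.log (6 * n))
    (hsum : Summable fun n : ℕ => Real.exp (-(kc * L n))) :
    ∀ᵐ c ∂muI, ∀ᶠ n : ℕ in atTop, ∃ p ∈ win S n (n + L n), fa e A p c = 1 := by
  obtain ⟨C, X, hC, hX, hprod⟩ := win_prod hD
  obtain ⟨X2, hX2, hvoid⟩ := void_win hD
  have hk1 := kc_gt
  have hLlog : ∀ n : ℕ, L n ≤ Real.log (6 * n) := fun n => by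
    have h1 := hL n
    have h2 := hL0 n
    nlinarith
  have hs : Summable fun n : ℕ => ∫ c, vd e A (win S n (n + L n)) c ∂muI := by
    have s1 : Summable fun n : ℕ => Real.exp (2 * C) * Real.exp (-(kc * L n)) + (Real.exp (-(1 / 4))) ^ n := by
      refine (hsum.mul_left _).add ?_
      exact summable_geometric_of_lt_one (Real.exp_pos _).le (by
        rw [← Real.exp_zero]
        exact Real.exp_lt_exp.2 (by norm_num))
    refine Summable.of_norm_bounded_eventually_nat s1 ?_
    filter_upwards [ev_log 1, tendsto_natCast_atTop_atTop.eventually_ge_atTop (X + X2 + 20)] with n c1 c2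
    rw [Real.norm_eq_abs, abs_of_nonneg (integral_nonneg fun c => vd_nonneg _ _ _ _)]
    have hn0 : (0 : ℝ) < n := by linarith
    have hln : Real.log ((n : ℝ) - 1) ≤ Real.log n := Real.log_le_log (by linarith) (by linarith)
    have hl0 := hL0 n
    have hl1 := hLlog n
    have hlnn : Real.log (6 * n) + 1 ≤ n := by
      have e1 := Real.log_le_sub_one_of_pos (show (0 : ℝ) < n / 4 by positivity)
      have e2 : Real.log n = Real.log 4 + Real.log (n / 4) := by
        rw [← Real.log_mul (by norm_num) (by positivity)]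
        congr 1
        ring
      have e3 : Real.log 4 ≤ 2 := by
        have e4 : (4 : ℝ) = 2 ^ 2 := by norm_num
        rw [e4, Real.log_pow]
        have := Real.log_two_lt_d9
        push_cast
        linarith
      have e5 : Real.log ((6 : ℝ) * n) = Real.log 6 + Real.log n := Real.log_mul (by norm_num) hn0.ne'
      have e6 : Real.log 6 ≤ 2 := by
        rw [Real.log_le_iff_le_exp (by norm_num)]
        have e7 : Real.exp 2 = Real.exp 1 * Real.exp 1 := by rw [← Real.exp_add]; norm_num
        rw [e7]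
        nlinarith [Real.exp_one_gt_d9]
      rw [e5]
      linarith
    have v1 := hvoid S hS n (n + L n) (by linarith) (by linarith) (by linarith) 0 (fun _ => 1) ph_one
      (fun p _ => (Real.exp_pos _).le)
    simp only [one_mul, integral_const, probReal_univ, smul_eq_mul, mul_one] at v1
    obtain ⟨-, a2⟩ := hprod S hS n (n + L n) (by linarith) (by linarith) (by linarith)
    have a3 : Real.exp (-(kc * (↑n + L n - ↑n)) + C * (↑n + L n - ↑n + 1) / n) ≤
        Real.exp (2 * C) * Real.exp (-(kc * L n)) := by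
      rw [← Real.exp_add, Real.exp_le_exp]
      have e1 : C * (↑n + L n - ↑n + 1) / n ≤ 2 * C := by
        rw [div_le_iff₀ hn0]
        have : C * (↑n + L n - ↑n + 1) ≤ C * (2 * n) := by
          apply mul_le_mul_of_nonneg_left _ (by linarith)
          linarith
        linarith
      have e2 : -(kc * (↑n + L n - ↑n)) = -(kc * L n) := by ring
      rw [e2]
      linarith
    have a4 : Real.exp (-((n : ℝ) / 4)) = (Real.exp (-(1 / 4))) ^ n := by
      rw [← Real.exp_nat_mul]
      congr 1
      ring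
    rw [← a4]
    have := (abs_le.1 v1).2
    linarith
  have h1 := bc1 (μ := muI) (X := fun n => vd e A (win S n (n + L n))) (fun n => vd_int _ _ _)
    (fun n c => vd_nonneg _ _ _ _) (fun n c h => by
      rcases vd_01 e A (win S n (n + L n)) c with h2 | h2
      · exact absurd h2 h
      · exact h2.ge) hs
  filter_upwards [h1] with c hc
  filter_upwards [hc] with n hn
  by_contra hcon
  push Not at hcon
  have h2 : vd e A (win S n (n + L n)) c = 1 := by
    rw [vd_one_iff]
    intro q hq
    rcases fa_01 e A q c with h8 | h8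
    · exact h8
    · exact absurd h8 (hcon q hq)
  rw [h2] at hn
  exact one_ne_zero hn

/-- **Large gaps, convergent case.** -/
theorem large_conv {S : Set ℕ} (hS : Tendsto (VS S) atTop atTop) (hG : ∀ᵐ c ∂muI, Good (nn e A c) S)
    {φ : ℕ → ℝ} (hφ : Monotone φ) (hs : Summable fun k => Real.exp (-φ k)) :
    ∀ᵐ c ∂muI, ∀ᶠ k : ℕ in atTop,
      kc * (xx (nn e A c) S (k + 1) - xx (nn e A c) S k) < φ k := by
  have hk1 := kc_gt
  have hk2 := kc_lt
  set f : ℕ → ℝ := fun n => min (φ n) (2 * Real.log (6 * n)) with hf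
  set L : ℕ → ℝ := fun n => max 0 (f n / kc - 2) with hL
  have hkc := kc_pos
  have hlogn : ∀ n : ℕ, 0 ≤ Real.log (6 * n) := fun n => by
    rcases Nat.eq_zero_or_pos n with rfl | hn
    · simp
    · have : (1 : ℝ) ≤ n := by exact_mod_cast hn
      exact Real.log_nonneg (by linarith)
  have hL0 : ∀ n, 0 ≤ L n := fun n => le_max_left _ _
  have hLk : ∀ n, kc * L n ≤ 2 * Real.log (6 * n) := by
    intro n
    simp only [hL]
    rw [mul_max_of_nonneg _ _ hkc.le, max_le_iff]
    constructor
    · have := hlogn n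
      linarith
    · have h1 : f n ≤ 2 * Real.log (6 * n) := min_le_right _ _
      have h2 : kc * (f n / kc - 2) = f n - 2 * kc := by field_simp
      rw [h2]
      linarith
  have hs2 : Summable fun n : ℕ => Real.exp (-f n) := by
    have h1 : Summable fun n : ℕ => Real.exp (-φ n) + 1 / (n : ℝ) ^ 2 :=
      hs.add (Real.summable_one_div_nat_pow.2 (by norm_num))
    refine Summable.of_norm_bounded_eventually_nat h1 ?_
    filter_upwards [eventually_ge_atTop 1] with n hn
    have hn0 : (0 : ℝ) < n := by exact_mod_cast hn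
    rw [Real.norm_eq_abs, abs_of_pos (Real.exp_pos _)]
    have h2 : Real.exp (-(2 * Real.log (6 * n))) ≤ 1 / (n : ℝ) ^ 2 := by
      rw [Real.exp_neg, ← one_div]
      have e1 : Real.exp (2 * Real.log (6 * n)) = (6 * n) ^ 2 := by
        rw [two_mul, Real.exp_add, Real.exp_log (by positivity)]
        ring
      rw [e1]
      apply one_div_le_one_div_of_le (by positivity)
      nlinarith
    have h3 := Real.exp_pos (-φ n)
    have h4 : 0 < 1 / (n : ℝ) ^ 2 := by positivity
    simp only [hf]
    rcases min_choice (φ n) (2 * Real.log (6 * n)) with h | h <;> rw [h] <;> linarith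
  have hftop : Tendsto f atTop atTop := by
    have h1 := hs2.tendsto_atTop_zero
    have h2 : Tendsto (fun n => -f n) atTop atBot := Real.tendsto_exp_comp_nhds_zero.1 h1
    have h3 := tendsto_neg_atBot_atTop.comp h2
    refine h3.congr fun n => ?_
    simp
  have hsL : Summable fun n : ℕ => Real.exp (-(kc * L n)) := by
    have h1 : Summable fun n : ℕ => Real.exp (2 * kc) * Real.exp (-f n) := hs2.mul_left _
    refine Summable.of_norm_bounded_eventually_nat h1 (Eventually.of_forall fun n => ?_)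
    rw [Real.norm_eq_abs, abs_of_pos (Real.exp_pos _), ← Real.exp_add, Real.exp_le_exp]
    have h2 : f n / kc - 2 ≤ L n := le_max_right _ _
    have h3 : kc * (f n / kc - 2) ≤ kc * L n := mul_le_mul_of_nonneg_left h2 hkc.le
    have h4 : kc * (f n / kc - 2) = f n - 2 * kc := by field_simp
    linarith
  filter_upwards [hG, big_conv hD hS hL0 hLk hsL] with c hc hbig
  set x := xx (nn e A c) S with hx
  have hfl : Tendsto (fun k => ⌊x k⌋₊ + 1) atTop atTop :=
    (tendsto_add_atTop_nat 1).comp (tendsto_nat_floor_atTop.comp hc.top)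
  filter_upwards [hfl.eventually hbig, hfl.eventually (hftop.eventually_ge_atTop (2 * kc)), hc.rate,
    hc.top.eventually_ge_atTop 1] with k g1 g2 g3 g4
  set n := ⌊x k⌋₊ + 1 with hn
  have hxn : x k < n := by
    rw [hn]
    push_cast
    exact Nat.lt_floor_add_one _
  have hnx : (n : ℝ) ≤ x k + 1 := by
    rw [hn]
    push_cast
    have := Nat.floor_le (show 0 ≤ x k by linarith)
    linarith
  obtain ⟨p, hp, hp1⟩ := g1
  rw [mem_win' hS] at hp
  have hE := Ev_of_fa hp.1 hp.2.1 hp1
  have h1 := hc.next (k := k) hE (lt_trans hxn hp.2.2.1)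
  have hLn : L n = f n / kc - 2 := by
    simp only [hL]
    apply max_eq_right
    have : 2 ≤ f n / kc := by
      rw [le_div_iff₀ hkc]
      exact g2
    linarith
  have h2 : x (k + 1) - x k ≤ f n / kc - 1 := by
    have := hp.2.2.2
    rw [hLn] at this
    linarith
  have h3 : kc * (x (k + 1) - x k) ≤ f n - kc := by
    calc kc * (x (k + 1) - x k) ≤ kc * (f n / kc - 1) := mul_le_mul_of_nonneg_left h2 hkc.le
      _ = f n - kc := by field_simp
  have h4 : f n ≤ φ n := min_le_left _ _
  have h5 : n ≤ k := by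
    have : (n : ℝ) ≤ k := by linarith [g3.1]
    exact_mod_cast this
  have h6 := hφ h5
  linarith

omit hD in
/-- thinning a divergent series of nonincreasing terms -/
lemma thin_div {g : ℕ → ℝ} (hg : Antitone g) (h0 : ∀ n, 0 ≤ g n) (hdiv : ¬ Summable g) (r j : ℕ)
    (hr : 0 < r) : ¬ Summable fun n => g (r * n + j) := by
  intro hs
  apply hdiv
  rw [← summable_nat_add_iff j]
  refine summable_of_sum_range_le (c := r * ∑' n, g (r * n + j)) (fun n => h0 _) fun N => ?_
  have h1 : ∑ i ∈ range N, g (i + j) ≤ ∑ i ∈ range (r * N), g (i + j) := by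
    apply Finset.sum_le_sum_of_subset_of_nonneg
    · exact Finset.range_subset_range.2 (Nat.le_mul_of_pos_left N hr)
    · intro i _ _
      exact h0 _
  have h2 : ∀ N, ∑ i ∈ range (r * N), g (i + j) ≤ r * ∑ n ∈ range N, g (r * n + j) := by
    intro N
    induction N with
    | zero => simp
    | succ N ih =>
      rw [Nat.mul_succ, Finset.sum_range_add, Finset.sum_range_succ, mul_add]
      apply add_le_add ih
      calc ∑ x ∈ range r, g (r * N + x + j) ≤ ∑ _x ∈ range r, g (r * N + j) :=
            Finset.sum_le_sum fun x _ => hg (by omega)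
        _ = r * g (r * N + j) := by rw [Finset.sum_const, Finset.card_range, nsmul_eq_mul]
  have h3 : ∑ n ∈ range N, g (r * n + j) ≤ ∑' n, g (r * n + j) := hs.sum_le_tsum _ fun n _ => h0 _
  calc ∑ i ∈ range N, g (i + j) ≤ r * ∑ n ∈ range N, g (r * n + j) := h1.trans (h2 N)
    _ ≤ _ := mul_le_mul_of_nonneg_left h3 (Nat.cast_nonneg r)

/-- **Large gaps, divergent case.** -/
theorem large_div (hup : ∀ p, e p ≤ p) {S : Set ℕ} (hS : Tendsto (VS S) atTop atTop)
    (hG : ∀ᵐ c ∂muI, Good (nn e A c) S)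
    {φ : ℕ → ℝ} (hφ : Monotone φ) (hs : ¬ Summable fun k => Real.exp (-φ k)) :
    ∀ᵐ c ∂muI, ∃ᶠ k : ℕ in atTop,
      φ k < kc * (xx (nn e A c) S (k + 1) - xx (nn e A c) S k) := by
  have hk1 := kc_gt
  have hk2 := kc_lt
  have hkc := kc_pos
  have hlogn : ∀ n : ℕ, 0 ≤ Real.log (6 * n) := fun n => by
    rcases Nat.eq_zero_or_pos n with rfl | hn
    · simp
    · have : (1 : ℝ) ≤ n := by exact_mod_cast hn
      exact Real.log_nonneg (by linarith)
  set L : ℕ → ℝ := fun n => max 0 (min (φ (6 * n)) (2 * Real.log (6 * n))) / kc with hL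
  have hkL : ∀ n, kc * L n = max 0 (min (φ (6 * n)) (2 * Real.log (6 * n))) := fun n => by
    simp only [hL]
    field_simp
  have hL0 : ∀ n, 0 ≤ L n := fun n => div_nonneg (le_max_left _ _) hkc.le
  have hLk : ∀ n, kc * L n ≤ 2 * Real.log (6 * n) := fun n => by
    rw [hkL, max_le_iff]
    exact ⟨by have := hlogn n; linarith, min_le_right _ _⟩
  have hdiv : ¬ Summable fun n : ℕ => Real.exp (-(kc * L n)) := by
    intro h1
    set g : ℕ → ℝ := fun k => min 1 (Real.exp (-φ k)) with hg
    have hga : Antitone g := fun a b hab => by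
      simp only [hg]
      exact min_le_min le_rfl (Real.exp_le_exp.2 (neg_le_neg (hφ hab)))
    have hg0 : ∀ n, 0 ≤ g n := fun n => le_min zero_le_one (Real.exp_pos _).le
    have hgs : Summable fun n => g (6 * n + 0) := by
      refine Summable.of_nonneg_of_le (fun n => hg0 _) (fun n => ?_) h1
      rw [hkL, add_zero]
      simp only [hg]
      rcases max_choice 0 (min (φ (6 * n)) (2 * Real.log (6 * n))) with h | h <;> rw [h]
      · rw [neg_zero, Real.exp_zero]
        exact min_le_left _ _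
      · refine (min_le_right _ _).trans (Real.exp_le_exp.2 (neg_le_neg (min_le_left _ _)))
    have hgS : Summable g := by
      by_contra hcon
      exact thin_div hga hg0 hcon 6 0 (by norm_num) hgs
    apply hs
    have h2 := hgS.tendsto_atTop_zero.eventually_lt_const (show (0 : ℝ) < 1 by norm_num)
    refine Summable.of_norm_bounded_eventually_nat hgS ?_
    filter_upwards [h2] with n hn
    rw [Real.norm_eq_abs, abs_of_pos (Real.exp_pos _)]
    simp only [hg] at hn ⊢
    rw [min_lt_iff] at hn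
    rcases hn with hn | hn
    · exact absurd hn (lt_irrefl _)
    · rw [min_eq_right hn.le]
  have hlog2 : Summable fun k : ℕ => Real.exp (-(2 * Real.log ((k + 1 : ℕ) : ℝ))) := by
    have h1 : (fun k : ℕ => Real.exp (-(2 * Real.log ((k + 1 : ℕ) : ℝ)))) =
        fun k : ℕ => 1 / ((k + 1 : ℕ) : ℝ) ^ 2 := by
      ext k
      have hk0 : (0 : ℝ) < (k + 1 : ℕ) := by positivity
      rw [Real.exp_neg, ← one_div, two_mul, Real.exp_add, Real.exp_log hk0]
      ring
    rw [h1]
    exact (summable_nat_add_iff 1).2 (Real.summable_one_div_nat_pow.2 (by norm_num : 1 < 2))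
  have hmono2 : Monotone fun k : ℕ => 2 * Real.log ((k + 1 : ℕ) : ℝ) := fun a b hab => by
    have : Real.log ((a + 1 : ℕ) : ℝ) ≤ Real.log ((b + 1 : ℕ) : ℝ) :=
      Real.log_le_log (by positivity) (by exact_mod_cast (by omega))
    simp only
    linarith
  filter_upwards [hG, big_div hD hup hS hL0 hLk hdiv, large_conv hD hS hG hmono2 hlog2] with c hc hbig hup2
  set x := xx (nn e A c) S with hx
  obtain ⟨K1, hK1⟩ := eventually_atTop.1 (hup2.and hc.rate)
  rw [frequently_atTop]
  intro K0
  have h1 := hbig.and_eventually (tendsto_natCast_atTop_atTop.eventually_ge_atTop (x (K0 + K1 + 1) + 1))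
  obtain ⟨n, h2, h3⟩ := h1.exists
  obtain ⟨⟨p, hp, hp1⟩, h5⟩ := gX_spec hS h2
  rw [mem_win' hS] at hp
  have hE := Ev_of_fa hp.1 hp.2.1 hp1
  obtain ⟨k, hk1', hk2', hk3'⟩ := hc.last hE hp.2.2.2
  have hkK : K0 + K1 + 1 < k := by
    have : x (K0 + K1 + 1) < x k := by linarith [hp.2.2.1]
    exact hc.mono.lt_iff_lt.1 this
  refine ⟨k, by omega, ?_⟩
  have hgap : n + L n < x (k + 1) := by
    by_contra hcon
    push Not at hcon
    have h6 := xx_mem hc (k + 1)
    have h7 := h5 _ ((mem_win' hS).2 ⟨h6.1, h6.2.1, hk3', hcon⟩)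
    rw [fa_of_Ev h6] at h7
    exact one_ne_zero h7
  have h8 : L n < x (k + 1) - x k := by linarith
  have h9 : kc * L n < kc * (x (k + 1) - x k) := mul_lt_mul_of_pos_left h8 hkc
  rw [hkL] at h9
  obtain ⟨h10, h11⟩ := hK1 k (by omega)
  have h12 : (k : ℝ) ≤ 3 * n := by linarith [h11.2]
  have h13 : k ≤ 6 * n := by
    have : (k : ℝ) ≤ 6 * n := by
      have : (0 : ℝ) ≤ n := Nat.cast_nonneg n
      linarith
    exact_mod_cast this
  have h14 := hφ h13
  have hn0 : (0 : ℝ) < n := by
    have : (1 : ℝ) ≤ k := by exact_mod_cast (by omega : 1 ≤ k)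
    linarith
  have h15 : Real.log ((k + 1 : ℕ) : ℝ) ≤ Real.log (6 * n) := by
    apply Real.log_le_log (by positivity)
    push_cast
    have : (1 : ℝ) ≤ k := by exact_mod_cast (by omega : 1 ≤ k)
    linarith
  have h16 : min (φ (6 * n)) (2 * Real.log (6 * n)) < kc * (x (k + 1) - x k) :=
    lt_of_le_of_lt (le_max_right _ _) h9
  rw [min_lt_iff] at h16
  rcases h16 with h | h
  · linarith
  · linarith

end

end Pool.Agent.K9h18.EX
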