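import Pool.Agent.K9h18.AP.Bonf

set_option autoImplicit false

/-!
# Elementary symmetric functions
-/

open Finset

namespace Pool.Agent.K9h18.EX

open Pool.Agent.K9h18.AP (ek ek_zero ek_empty ek_insert ek_nonneg ek_mono)

lemma ek_one (x : ℕ → ℝ) (T : Finset ℕ) : ek x 1 T = ∑ q ∈ T, x q := by
  classical
  induction T using Finset.induction_on with
  | empty => rw [ek_empty x 0, Finset.sum_empty]
  | insert a T ha ih =>
    have h := ek_insert x ha 0
    rw [zero_add, ek_zero] at h
    rw [h, ih, Finset.sum_insert ha]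
    ring

/-- the identities for variables with values `0` and `1` -/
lemma ek_sq {x : ℕ → ℝ} (T : Finset ℕ) (hx : ∀ q ∈ T, x q = 0 ∨ x q = 1) :
    ek x 1 T ^ 2 = ek x 1 T + 2 * ek x 2 T ∧
    ek x 1 T * ek x 2 T = 2 * ek x 2 T + 3 * ek x 3 T ∧
    ek x 2 T ^ 2 = ek x 2 T + 6 * ek x 3 T + 6 * ek x 4 T := by
  classical
  induction T using Finset.induction_on with
  | empty =>
    rw [ek_empty x 0, ek_empty x 1, ek_empty x 2, ek_empty x 3]
    norm_num
  | insert a T ha ih =>
    obtain ⟨h1, h2, h3⟩ := ih fun q hq => hx q (Finset.mem_insert_of_mem hq)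
    have e1 := ek_insert x ha 0
    have e2 := ek_insert x ha 1
    have e3 := ek_insert x ha 2
    have e4 := ek_insert x ha 3
    rw [zero_add, ek_zero] at e1
    rw [show 1 + 1 = 2 from rfl] at e2
    rw [show 2 + 1 = 3 from rfl] at e3
    rw [show 3 + 1 = 4 from rfl] at e4
    rw [e1, e2, e3, e4]
    rcases hx a (Finset.mem_insert_self _ _) with h | h <;> rw [h]
    · refine ⟨?_, ?_, ?_⟩ <;> linarith
    · refine ⟨?_, ?_, ?_⟩ <;> nlinarith

lemma ek_succ_le {x : ℕ → ℝ} (T : Finset ℕ) (hx : ∀ q ∈ T, 0 ≤ x q) (k : ℕ) :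
    ek x (k + 1) T ≤ (∑ q ∈ T, x q) * ek x k T := by
  classical
  induction T using Finset.induction_on generalizing k with
  | empty =>
    rw [ek_empty, Finset.sum_empty, zero_mul]
  | insert a T ha ih =>
    have hx' : ∀ q ∈ T, 0 ≤ x q := fun q hq => hx q (Finset.mem_insert_of_mem hq)
    have h1 := ih hx' k
    have h0 := hx a (Finset.mem_insert_self _ _)
    have hs : 0 ≤ ∑ q ∈ T, x q := Finset.sum_nonneg hx'
    rw [ek_insert x ha, Finset.sum_insert ha]
    cases k with
    | zero =>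
      rw [ek_zero] at h1 ⊢
      rw [ek_zero]
      linarith
    | succ k =>
      rw [ek_insert x ha k]
      have h2 := ek_nonneg hx' k
      have h3 := ek_nonneg hx' (k + 1)
      have h4 : 0 ≤ (x a + ∑ q ∈ T, x q) * (x a * ek x k T) := by positivity
      nlinarith

lemma ek_two (x : ℕ → ℝ) (T : Finset ℕ) : (∑ q ∈ T, x q) ^ 2 = ∑ q ∈ T, x q ^ 2 + 2 * ek x 2 T := by
  classical
  induction T using Finset.induction_on with
  | empty =>
    rw [ek_empty x 1]
    simp
  | insert a T ha ih =>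
    have e2 := ek_insert x ha 1
    rw [show 1 + 1 = 2 from rfl, ek_one] at e2
    rw [e2, Finset.sum_insert ha, Finset.sum_insert ha]
    nlinarith

end Pool.Agent.K9h18.EX
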