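import Pool.Agent.K9h18.EX.Sm3

set_option autoImplicit false

/-!
# The set of all primes: the logarithmic scale
-/

open Finset Filter Topology MeasureTheory

namespace Pool.Agent.K9h18.EX

open Pool.Agent.TH888.R (wt wt_nonneg wt_le_one VS VS_univ_bound VS_nonneg VS_mono VS_univ_tendsto gr gr_small cS)
open Pool.Agent.K9h18.HS (kc kc_pos log_ge_one wt_tendsto win Nx VS_zero VS_step mass_Ioc PtR Ev VS_lt cS_nth)
open Pool.Agent.K9h18.AP

/-- the logarithm of the `k`-th event -/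
noncomputable def lp (s : ℕ → ℕ) (k : ℕ) : ℝ := Real.log (Nat.nth (Ev s Set.univ) k)

lemma lp_close : ∃ C : ℝ, 0 ≤ C ∧ ∀ s : ℕ → ℕ, Good s Set.univ → ∀ k, |xx s Set.univ k - lp s k| ≤ C := by
  obtain ⟨C, hC0, hC⟩ := VS_univ_bound
  exact ⟨C, hC0, fun s hs k => hC _ (xx_mem hs k).1.one_lt.le⟩

lemma lp_lower {s : ℕ → ℕ} (hs : Good s Set.univ) :
    Tendsto (lp s) atTop atTop ∧ ∀ᶠ k : ℕ in atTop, 0 < lp s k ∧ 1 / lp s k ^ 2 ≤ 144 * (1 / ((k : ℝ) + 1) ^ 2) := by
  obtain ⟨C, hC0, hC⟩ := lp_close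
  have htop : Tendsto (lp s) atTop atTop := by
    refine tendsto_atTop_mono (fun k => ?_) (tendsto_atTop_add_const_right _ (-C) hs.top)
    have := (abs_le.1 (hC s hs k)).2
    linarith
  refine ⟨htop, ?_⟩
  filter_upwards [hs.rate, htop.eventually_gt_atTop 0,
    (tendsto_natCast_atTop_atTop (R := ℝ)).eventually_ge_atTop (6 * C + 1)] with k h1 h2 h3
  refine ⟨h2, ?_⟩
  have h4 := (abs_le.1 (hC s hs k)).2
  have h5 : (k : ℝ) / 6 ≤ lp s k := by linarith [h1.2]
  have h6 : (k : ℝ) + 1 ≤ 12 * lp s k := by linarith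
  rw [mul_one_div, div_le_div_iff₀ (by positivity) (by positivity), one_mul]
  have h7 : ((k : ℝ) + 1) ^ 2 ≤ (12 * lp s k) ^ 2 := pow_le_pow_left₀ (by positivity) h6 2
  nlinarith

lemma GV_log {n : ℕ} (hn : 1 ≤ n) : GV (Real.log n) = VS Set.univ n := by
  unfold GV
  rw [Real.exp_log (by exact_mod_cast hn), Nat.floor_natCast]

lemma sq_sum (C : ℝ) : Summable fun k : ℕ => C * (1 / ((k : ℝ) + 1) ^ 2) := by
  apply Summable.mul_left
  have h1 : Summable fun n : ℕ => 1 / ((n + 1 : ℕ) : ℝ) ^ 2 :=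
    (summable_nat_add_iff 1).2 (Real.summable_one_div_nat_pow.2 (by norm_num : 1 < 2))
  refine h1.congr fun n => ?_
  push_cast
  rfl

lemma sq_anti {C : ℝ} (hC : 0 ≤ C) : Antitone fun k : ℕ => C * (1 / ((k : ℝ) + 1) ^ 2) := fun a b hab => by
  have : (a : ℝ) ≤ b := by exact_mod_cast hab
  simp only
  gcongr

section

variable {η : ℝ} {e A : ℕ → ℕ} {m κ : ℕ → ℝ} {P : ℕ} {K : ℝ} (hD : Dat η e A m κ P K)
include hD

theorem large_conv_log (hG : ∀ᵐ c ∂muI, Good (nn e A c) Set.univ)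
    {φ : ℕ → ℝ} (hφ : Monotone φ) (hs : Summable fun k => Real.exp (-φ k)) :
    ∀ᵐ c ∂muI, ∀ᶠ k : ℕ in atTop, kc * (lp (nn e A c) (k + 1) - lp (nn e A c) k) < φ k := by
  obtain ⟨C, hC0, hC⟩ := lp_close
  have hkc := kc_pos
  have h1 := large_conv hD VS_univ_tendsto hG (φ := fun k => φ k - kc * (2 * C))
    (fun a b hab => by
      have := hφ hab
      simp only
      linarith) (by
      have h2 := hs.mul_left (Real.exp (kc * (2 * C)))
      refine h2.congr fun k => ?_
      rw [← Real.exp_add]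
      congr 1
      ring)
  filter_upwards [hG, h1] with c hc h
  filter_upwards [h] with k hk
  have g1 := (abs_le.1 (hC _ hc k)).2
  have g2 := (abs_le.1 (hC _ hc (k + 1))).1
  have g3 : lp (nn e A c) (k + 1) - lp (nn e A c) k ≤
      xx (nn e A c) Set.univ (k + 1) - xx (nn e A c) Set.univ k + 2 * C := by linarith
  have g4 := mul_le_mul_of_nonneg_left g3 hkc.le
  linarith

theorem large_div_log (hup : ∀ p, e p ≤ p) (hG : ∀ᵐ c ∂muI, Good (nn e A c) Set.univ)
    {φ : ℕ → ℝ} (hφ : Monotone φ) (hs : ¬ Summable fun k => Real.exp (-φ k)) :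
    ∀ᵐ c ∂muI, ∃ᶠ k : ℕ in atTop, φ k < kc * (lp (nn e A c) (k + 1) - lp (nn e A c) k) := by
  obtain ⟨C, hC0, hC⟩ := lp_close
  have hkc := kc_pos
  have h1 := large_div hD hup VS_univ_tendsto hG (φ := fun k => φ k + kc * (2 * C))
    (fun a b hab => by
      have := hφ hab
      simp only
      linarith) (by
      intro h2
      apply hs
      have h3 := h2.mul_left (Real.exp (kc * (2 * C)))
      refine h3.congr fun k => ?_
      rw [← Real.exp_add]
      congr 1
      ring)
  filter_upwards [hG, h1] with c hc h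
  refine h.mono fun k hk => ?_
  have g1 := (abs_le.1 (hC _ hc k)).1
  have g2 := (abs_le.1 (hC _ hc (k + 1))).2
  have g3 : xx (nn e A c) Set.univ (k + 1) - xx (nn e A c) Set.univ k ≤
      lp (nn e A c) (k + 1) - lp (nn e A c) k + 2 * C := by linarith
  have g4 := mul_le_mul_of_nonneg_left g3 hkc.le
  linarith

theorem small_conv_log (hG : ∀ᵐ c ∂muI, Good (nn e A c) Set.univ)
    {ψ : ℕ → ℝ} (hψ : Antitone ψ) (hs : Summable ψ) :
    ∀ᵐ c ∂muI, ∀ᶠ k : ℕ in atTop, ψ k < lp (nn e A c) (k + 1) - lp (nn e A c) k := by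
  obtain ⟨Z0, hZ0, hTW⟩ := TW_short
  have hψ0 : ∀ n, 0 ≤ ψ n := fun n => hψ.le_of_tendsto hs.tendsto_atTop_zero n
  have h1 := small_conv hD VS_univ_tendsto hG (ψ := fun k => 2 * ψ k + 288 * (1 / ((k : ℝ) + 1) ^ 2))
    (fun a b hab => by
      have := hψ hab
      have := sq_anti (show (0 : ℝ) ≤ 288 by norm_num) hab
      simp only at this ⊢
      linarith) ((hs.mul_left 2).add (sq_sum 288))
  filter_upwards [hG, h1] with c hc h
  set s := nn e A c with hsdef
  obtain ⟨htop, hlow⟩ := lp_lower hc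
  filter_upwards [h, hlow, htop.eventually_ge_atTop Z0,
    hs.tendsto_atTop_zero.eventually_le_const (show (0 : ℝ) < 1 by norm_num)] with k g1 g2 g3 g4
  by_contra hcon
  push Not at hcon
  set a := lp s k with ha
  set t := max (ψ k) (1 / a ^ 2) with ht
  have ha1 : 1 ≤ a := by linarith
  have ht1 : t ≤ 1 := max_le g4 (by
    rw [div_le_one (by positivity)]
    nlinarith)
  have h2 := hTW a t g3 (le_max_right _ _) ht1
  have ht0 : 0 < t := lt_of_lt_of_le (by positivity) (le_max_right _ _)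
  rw [sum_TW (by linarith)] at h2
  have hp := xx_mem hc k
  have hr := xx_mem hc (k + 1)
  have h3 : GV a = xx s Set.univ k := GV_log hp.1.one_lt.le
  have h4 : xx s Set.univ (k + 1) ≤ GV (a + t) := by
    unfold GV xx
    apply VS_mono
    apply Nat.le_floor
    rw [← Real.log_le_iff_le_exp (by exact_mod_cast hr.1.pos)]
    have : ψ k ≤ t := le_max_left _ _
    change lp s (k + 1) ≤ a + t
    linarith
  have h5 := (abs_le.1 h2).2
  have h6 : 2 * t / a ≤ t := by
    rw [div_le_iff₀ (by linarith)]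
    nlinarith
  have h7 : t ≤ ψ k + 144 * (1 / ((k : ℝ) + 1) ^ 2) := by
    have h8 : 0 ≤ 144 * (1 / ((k : ℝ) + 1) ^ 2) := by positivity
    refine max_le (by linarith) ?_
    have := g2.2
    have := hψ0 k
    linarith
  linarith

theorem small_div_log (hG : ∀ᵐ c ∂muI, Good (nn e A c) Set.univ)
    {ψ : ℕ → ℝ} (hψ : Antitone ψ) (hψ0 : ∀ n, 0 ≤ ψ n) (hs : ¬ Summable ψ) :
    ∀ᵐ c ∂muI, ∃ᶠ k : ℕ in atTop, lp (nn e A c) (k + 1) - lp (nn e A c) k < ψ k := by
  obtain ⟨Z0, hZ0, hTW⟩ := TW_short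
  have hdiv : ¬ Summable fun k => min (ψ k) 1 / 3 := by
    intro h1
    have hgS : Summable fun k => min (ψ k) 1 := by
      refine (h1.mul_left 3).congr fun k => ?_
      ring
    apply hs
    have h2 := hgS.tendsto_atTop_zero.eventually_lt_const (show (0 : ℝ) < 1 by norm_num)
    refine Summable.of_norm_bounded_eventually_nat hgS ?_
    filter_upwards [h2] with n hn
    rw [Real.norm_eq_abs, abs_of_nonneg (hψ0 n)]
    rw [min_lt_iff] at hn
    rcases hn with hn | hn
    · rw [min_eq_left hn.le]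
    · exact absurd hn (lt_irrefl _)
  have h1 := small_div hD VS_univ_tendsto hG (ψ := fun k => min (ψ k) 1 / 3)
    (fun a b hab => by
      have : min (ψ b) 1 ≤ min (ψ a) 1 := min_le_min (hψ hab) le_rfl
      simp only
      linarith) (fun n => by
      have : 0 ≤ min (ψ n) 1 := le_min (hψ0 n) zero_le_one
      positivity) hdiv
  have h2 := small_conv hD VS_univ_tendsto hG (sq_anti (show (0 : ℝ) ≤ 144 by norm_num)) (sq_sum 144)
  filter_upwards [hG, h1, h2] with c hc h h'
  set s := nn e A c with hsdef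
  obtain ⟨htop, hlow⟩ := lp_lower hc
  refine (h.and_eventually (h'.and (hlow.and (htop.eventually_ge_atTop Z0)))).mono fun k hk => ?_
  obtain ⟨g1, g2, g3, g4⟩ := hk
  by_contra hcon
  push Not at hcon
  set a := lp s k with ha
  set t := min (ψ k) 1 with ht
  have ha1 : 1 ≤ a := by linarith
  have ht1 : t ≤ 1 := min_le_right _ _
  have ht0 : 0 ≤ t := le_min (hψ0 k) zero_le_one
  have htψ : t ≤ ψ k := min_le_left _ _
  rcases le_or_gt (1 / a ^ 2) t with h3 | h3
  · have h4 := hTW a t g4 h3 ht1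
    rw [sum_TW (by linarith)] at h4
    have hp := xx_mem hc k
    have hr := xx_mem hc (k + 1)
    have h5 : GV a = xx s Set.univ k := GV_log hp.1.one_lt.le
    have h6 : GV (a + t) ≤ xx s Set.univ (k + 1) := by
      have h7 : GV (lp s (k + 1)) = xx s Set.univ (k + 1) := GV_log hr.1.one_lt.le
      rw [← h7]
      unfold GV
      apply VS_mono
      apply Nat.floor_mono
      rw [Real.exp_le_exp]
      linarith
    have h8 := (abs_le.1 h4).1
    have h9 : 2 * t / a ≤ t / 10 := by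
      rw [div_le_iff₀ (by linarith)]
      nlinarith
    have ht00 : 0 < t := lt_of_lt_of_le (by positivity) h3
    linarith
  · have h4 := g3.2
    linarith

end

end Pool.Agent.K9h18.EX
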