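import Pool.Agent.K9h18.EX.Cnt4
import Pool.Agent.K9h18.AP.Win

set_option autoImplicit false

/-!
# The mean over a short window, with a smaller error
-/

open Finset Filter Topology MeasureTheory

namespace Pool.Agent.K9h18.EX

open Pool.Agent.H305R2 (roughPart)
open Pool.Agent.TH888.R (wt wt_nonneg wt_le_one)
open Pool.Agent.K9h18.HS (mu1 ind ind_nonneg ind_le_one kc kc_pos rough_count log_ge_one)
open Pool.Agent.K9h18.AP

/-- **The mean over a short window of values of the power series.** -/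
theorem win_mean2 (hPV : Pool.Agent.N176.OW.S_PV) {η : ℝ} {e A : ℕ → ℕ} (hM : Md η e A) :
    ∃ K : ℝ, 0 < K ∧ ∃ P : ℕ, ∀ p ≥ P, ∀ y : ℝ, 0 ≤ y → y ≤ 3 / 2 →
      |(∫ t in (0 : ℝ)..(hh η p), FF e A p (y + t)) - hh η p * DD (η / 16) p| ≤
        hh η p * (K * (Real.log p / p ^ 2)) := by
  obtain ⟨K, hK, P1, hrc⟩ := rough_count3 hPV hM.pos hM.lt
  obtain ⟨P2, hlow⟩ := hM.low
  obtain ⟨P3, hA1⟩ := hM.A1
  obtain ⟨P4, hA2⟩ := hM.A2
  have hη := hM.pos
  have hη4 := hM.lt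
  -- `4 p ^ 2 ≤ 2 ^ g`
  have hev : ∀ᶠ p : ℕ in atTop, 4 * (p : ℝ) ^ 2 ≤ 2 ^ gp η p := by
    obtain ⟨P, hP⟩ := hh_pow η hη 1
    filter_upwards [eventually_ge_atTop P] with p hp
    have h1 := hP p hp
    unfold hh at h1
    have h5 : (1 / 2 : ℝ) ^ gp η p = 1 / 2 ^ gp η p := by rw [one_div, inv_pow, one_div]
    have h8 : (0 : ℝ) < 2 ^ gp η p := by positivity
    rw [h5, pow_one, one_div_mul_eq_div, div_le_one h8] at h1
    exact h1
  obtain ⟨P5, hev⟩ := eventually_atTop.1 hev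
  refine ⟨K + 1, by positivity, P1 + P2 + P3 + P4 + P5 + 4, fun p hp y hy0 hy1 => ?_⟩
  have hp0 : (0 : ℝ) < p := by exact_mod_cast (by omega : 0 < p)
  have hp1 : (1 : ℝ) ≤ p := by exact_mod_cast (by omega : 1 ≤ p)
  have hlp1 : 1 ≤ Real.log p := log_ge_one (by omega)
  have hlowp := hlow p (by omega)
  have hA1p := hA1 p (by omega)
  have hA2p := hA2 p (by omega)
  have h4p := hev p (by omega)
  set g := gp η p with hg
  have hgle : (g : ℝ) ≤ η * p := Nat.floor_le (by positivity)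
  have hge : g ≤ e p := by
    have : (g : ℝ) ≤ e p := by nlinarith
    exact_mod_cast this
  set n : ℕ := 2 ^ (e p - g) with hn
  have hnr : (n : ℝ) = 2 ^ (e p) * hh η p := by
    rw [hn]
    unfold hh
    rw [← hg]
    push_cast
    rw [pow_sub₀ _ (by norm_num) hge]
    congr 1
    rw [one_div, inv_pow]
  set u : ℕ → ℝ := fun j => ind p (A p - j) with hu
  have hu1 : ∀ j, |u j| ≤ 1 := fun j => by
    rw [abs_of_nonneg (ind_nonneg _ _)]
    exact ind_le_one _ _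
  have h2e : (0 : ℝ) < 2 ^ (e p) := by positivity
  -- change of variables
  have hcv : ∫ t in (0 : ℝ)..(hh η p), FF e A p (y + t) =
      (1 / 2 ^ (e p)) * ∫ s in (2 ^ (e p) * y)..(2 ^ (e p) * y + n), u ⌊s⌋₊ := by
    have h1 := intervalIntegral.integral_comp_mul_add (a := 0) (b := hh η p)
      (fun s : ℝ => u ⌊s⌋₊) (c := 2 ^ (e p)) h2e.ne' (2 ^ (e p) * y)
    have h2 : ∀ t : ℝ, FF e A p (y + t) = u ⌊2 ^ (e p) * t + 2 ^ (e p) * y⌋₊ := by
      intro t
      unfold FF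
      simp only [hu]
      congr 3
      ring
    simp only [h2]
    rw [h1, hnr, mul_zero, zero_add, smul_eq_mul, one_div, add_comm (2 ^ (e p) * hh η p)]
  have hY0 : (0 : ℝ) ≤ 2 ^ (e p) * y := by positivity
  have hst := step_near u hu1 hY0 n
  set a := ⌊(2 : ℝ) ^ (e p) * y⌋₊ with ha
  have haR : (a : ℝ) ≤ 2 ^ (e p) * y := Nat.floor_le hY0
  have ha2 : a + n ≤ 3 * 2 ^ (e p) := by
    have h1 : (a : ℝ) + n ≤ 3 * 2 ^ (e p) := by
      have h2 : (2 : ℝ) ^ (e p) * y ≤ 2 ^ (e p) * (3 / 2) := mul_le_mul_of_nonneg_left hy1 h2e.le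
      have h3 : (n : ℝ) ≤ 2 ^ (e p) * 1 := by
        rw [hnr]
        exact mul_le_mul_of_nonneg_left (hh_le_one _ _) h2e.le
      linarith
    exact_mod_cast h1
  -- the count
  have h2p : 1 ≤ 2 ^ (p - 2) := Nat.one_le_two_pow
  have h2q : 1 ≤ 2 ^ (e p - g) := Nat.one_le_two_pow
  have h2r : 1 ≤ 2 ^ (e p) := Nat.one_le_two_pow
  have hsum : ∑ j ∈ range n, u (a + j) =
      (((Finset.Ioc (A p - a - n) (A p - a)).filter (fun m => (roughPart p m).Prime)).card : ℝ) := by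
    have h1 : ∀ j, u (a + j) = (fun m => ind p m) (A p - a - j) := by
      intro j
      simp only [hu]
      congr 1
      omega
    simp only [h1]
    rw [sum_down (fun m => ind p m) (by omega), Finset.card_eq_sum_ones, Finset.sum_filter]
    push_cast
    rfl
  have hA' : 2 ^ (p - 2) ≤ A p - a - n := by omega
  have hBA : (((A p - a : ℕ) : ℝ) - ((A p - a - n : ℕ) : ℝ)) = n := by
    rw [Nat.cast_sub (by omega : n ≤ A p - a)]
    ring
  have hr := hrc p (by omega) (A p - a - n) (A p - a) hA' (by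
      have : (2 : ℕ) ^ p ≤ 2 ^ (p + 1) := Nat.pow_le_pow_right (by norm_num) (by omega)
      omega) (by omega) (by
      rw [hBA]
      -- `n p ^ 2 ≤ 2 ^ (p - 2)`
      have h1 : (n : ℝ) * p ^ 2 ≤ 2 ^ (p - 2) := by
        have h2 : (n : ℝ) * 2 ^ g ≤ 2 ^ p := by
          rw [hn]
          push_cast
          rw [← pow_add]
          apply pow_le_pow_right₀ (by norm_num)
          have := hM.up p
          omega
        have h3 : (2 : ℝ) ^ p = 2 ^ (p - 2) * 4 := by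
          rw [show (4 : ℝ) = 2 ^ 2 by norm_num, ← pow_add]
          congr 1
          omega
        have h4 : (n : ℝ) * (4 * p ^ 2) ≤ n * 2 ^ g := mul_le_mul_of_nonneg_left h4p (by positivity)
        linarith
      refine h1.trans ?_
      exact_mod_cast hA') (by
      rw [hBA, hn]
      push_cast
      rw [← Real.rpow_natCast, Real.rpow_def_of_pos (by norm_num), Real.exp_le_exp,
        Nat.cast_sub hge]
      have hl : 0 < Real.log 2 := Real.log_pos (by norm_num)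
      have h1 : (3 / 4 + η) * p ≤ (e p : ℝ) - g := by linarith
      calc (3 / 4 + η) * (p * Real.log 2) = (3 / 4 + η) * p * Real.log 2 := by ring
        _ ≤ ((e p : ℝ) - g) * Real.log 2 := mul_le_mul_of_nonneg_right h1 hl.le
        _ = _ := by ring)
  rw [hBA, ← hsum] at hr
  rw [hcv]
  have h1 : |(∫ s in (2 ^ (e p) * y)..(2 ^ (e p) * y + n), u ⌊s⌋₊) - n * DD (η / 16) p| ≤
      2 + K * (n * (Real.log p / p ^ 2)) := by
    have := abs_sub_le (∫ s in (2 ^ (e p) * y)..(2 ^ (e p) * y + n), u ⌊s⌋₊)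
      (∑ j ∈ range n, u (a + j)) (n * DD (η / 16) p)
    linarith
  have h2 : (1 / 2 ^ (e p) : ℝ) * (∫ s in (2 ^ (e p) * y)..(2 ^ (e p) * y + n), u ⌊s⌋₊) -
      hh η p * DD (η / 16) p = (1 / 2 ^ (e p)) *
      ((∫ s in (2 ^ (e p) * y)..(2 ^ (e p) * y + n), u ⌊s⌋₊) - n * DD (η / 16) p) := by
    rw [hnr]
    field_simp
  rw [h2, abs_mul, abs_of_pos (by positivity : (0 : ℝ) < 1 / 2 ^ (e p))]
  have h3 : (2 : ℝ) ≤ n * (Real.log p / p ^ 2) := by
    rw [mul_div_assoc', le_div_iff₀ (by positivity)]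
    -- `2 p ^ 2 ≤ 2 ^ (e - g)`; `e - g ≥ g`
    have h4 : g ≤ e p - g := by
      have : (g : ℝ) + g ≤ e p := by nlinarith
      have : g + g ≤ e p := by exact_mod_cast this
      omega
    have h5 : (2 : ℝ) ^ g ≤ n := by
      rw [hn]
      push_cast
      exact pow_le_pow_right₀ (by norm_num) h4
    have hn0 : (0 : ℝ) ≤ n := Nat.cast_nonneg n
    have h6 : (n : ℝ) ≤ n * Real.log p := le_mul_of_one_le_right hn0 hlp1
    have h7 : (0 : ℝ) ≤ (p : ℝ) ^ 2 := by positivity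
    linarith
  calc (1 / 2 ^ (e p) : ℝ) * |(∫ s in (2 ^ (e p) * y)..(2 ^ (e p) * y + n), u ⌊s⌋₊) - n * DD (η / 16) p| ≤
        (1 / 2 ^ (e p)) * (2 + K * (n * (Real.log p / p ^ 2))) :=
        mul_le_mul_of_nonneg_left h1 (by positivity)
    _ ≤ (1 / 2 ^ (e p)) * ((K + 1) * (n * (Real.log p / p ^ 2))) := by
        apply mul_le_mul_of_nonneg_left _ (by positivity)
        linarith
    _ = hh η p * ((K + 1) * (Real.log p / p ^ 2)) := by
        rw [hnr]
        field_simp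

/-- the two forms of the density -/
theorem DD_close (hPV : Pool.Agent.N176.OW.S_PV) {e : ℝ} (he : 0 < e) (he1 : e < 1 / 4) :
    ∃ K : ℝ, 0 < K ∧ ∃ P : ℕ, ∀ q ≥ P, |DD (e / 16) q - kc * wt q| ≤ K / q := by
  obtain ⟨K1, hK1, P1, h1⟩ := rough_count hPV he he1
  obtain ⟨K2, hK2, P2, h2⟩ := rough_count3 hPV he he1
  have hl2 : 0 < Real.log 2 := Real.log_pos (by norm_num)
  obtain ⟨P3, hP3⟩ := (((ev_small 2 (show 0 < (1 / 4 - e) * Real.log 2 by
    have : 0 < 1 / 4 - e := by linarith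
    positivity)))).exists_forall_of_atTop
  refine ⟨K1 + K2, by positivity, P1 + P2 + P3 + 4, fun q hq => ?_⟩
  have c1 := hP3 q (by omega)
  have hq0 : (0 : ℝ) < q := by exact_mod_cast (by omega : 0 < q)
  have hq1 : (1 : ℝ) ≤ q := by exact_mod_cast (by omega : 1 ≤ q)
  have hlq1 : 1 ≤ Real.log q := log_ge_one (by omega)
  set g := ⌈(3 / 4 + e) * q⌉₊ with hg
  have hg1 : (3 / 4 + e) * q ≤ g := Nat.le_ceil _
  have hg2 : (g : ℝ) < (3 / 4 + e) * q + 1 := Nat.ceil_lt_add_one (by positivity)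
  have hB : ((2 ^ q + 2 ^ g : ℕ) : ℝ) - ((2 ^ q : ℕ) : ℝ) = (2 : ℝ) ^ g := by
    push_cast
    ring
  have hpow : ∀ n : ℕ, (2 : ℝ) ^ n = Real.exp (n * Real.log 2) := fun n => by
    rw [Real.exp_nat_mul, Real.exp_log (by norm_num)]
  have hlen : Real.exp ((3 / 4 + e) * (q * Real.log 2)) ≤ (2 : ℝ) ^ g := by
    rw [hpow, Real.exp_le_exp]
    calc (3 / 4 + e) * (q * Real.log 2) = (3 / 4 + e) * q * Real.log 2 := by ring
      _ ≤ g * Real.log 2 := mul_le_mul_of_nonneg_right hg1 hl2.le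
  have hl2b : Real.log 2 < 0.7 := by linarith [Real.log_two_lt_d9]
  have hsq : (2 : ℝ) ^ g * q ^ 2 ≤ ((2 ^ q : ℕ) : ℝ) := by
    push_cast
    rw [hpow, hpow]
    have e1 : (q : ℝ) ^ 2 = Real.exp (2 * Real.log q) := by
      rw [show 2 * Real.log (q : ℝ) = ((2 : ℕ) : ℝ) * Real.log q by norm_num,
        Real.exp_nat_mul, Real.exp_log hq0]
    rw [e1, ← Real.exp_add, Real.exp_le_exp]
    have h3 : (g : ℝ) * Real.log 2 ≤ ((3 / 4 + e) * q + 1) * Real.log 2 :=
      mul_le_mul_of_nonneg_right hg2.le hl2.le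
    linarith
  have hsq1 : (2 : ℝ) ^ g * q ≤ ((2 ^ q : ℕ) : ℝ) := by
    refine le_trans ?_ hsq
    apply mul_le_mul_of_nonneg_left _ (by positivity)
    nlinarith
  have a1 := h1 q (by omega) (2 ^ q) (2 ^ q + 2 ^ g) (Nat.pow_le_pow_right (by norm_num) (by omega))
    (Nat.pow_le_pow_right (by norm_num) (by omega)) (Nat.le_add_right _ _) (by rw [hB]; exact hsq1)
    (by rw [hB]; exact hlen)
  have a2 := h2 q (by omega) (2 ^ q) (2 ^ q + 2 ^ g) (Nat.pow_le_pow_right (by norm_num) (by omega))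
    (Nat.pow_le_pow_right (by norm_num) (by omega)) (Nat.le_add_right _ _) (by rw [hB]; exact hsq)
    (by rw [hB]; exact hlen)
  rw [hB] at a1 a2
  have hkw : (2 : ℝ) ^ g * (Real.exp Real.eulerMascheroniConstant / Real.log 2 * (Real.log q / q)) =
      2 ^ g * (kc * wt q) := rfl
  rw [hkw] at a1
  set R := (((Finset.Ioc (2 ^ q) (2 ^ q + 2 ^ g)).filter (fun m => (roughPart q m).Prime)).card : ℝ)
  have hg0 : (0 : ℝ) < 2 ^ g := by positivity
  have h3 : |(2 : ℝ) ^ g * DD (e / 16) q - 2 ^ g * (kc * wt q)| ≤ 2 ^ g * ((K1 + K2) / q) := by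
    have h4 := abs_sub_le ((2 : ℝ) ^ g * DD (e / 16) q) R (2 ^ g * (kc * wt q))
    rw [abs_sub_comm] at a2
    have h5 : K2 * ((2 : ℝ) ^ g * (Real.log q / q ^ 2)) ≤ 2 ^ g * (K2 / q) := by
      have h6 : Real.log q / (q : ℝ) ^ 2 ≤ 1 / q := by
        rw [div_le_div_iff₀ (by positivity) hq0]
        have h7 := Real.log_le_sub_one_of_pos hq0
        nlinarith
      calc K2 * ((2 : ℝ) ^ g * (Real.log q / q ^ 2)) ≤ K2 * (2 ^ g * (1 / q)) := by gcongr
        _ = _ := by ring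
    have e2 : (2 : ℝ) ^ g * ((K1 + K2) / q) = K1 * (2 ^ g / q) + 2 ^ g * (K2 / q) := by ring
    rw [e2]
    linarith
  rw [← mul_sub, abs_mul, abs_of_pos hg0] at h3
  exact le_of_mul_le_mul_left h3 hg0

end Pool.Agent.K9h18.EX
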