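import Pool.Agent.K9h18.EX.Tup2
import Pool.Agent.K9h18.AP.Rat

set_option autoImplicit false

/-!
# Windows of primes on the logarithmic scale, and the means
-/

open Finset Filter Topology MeasureTheory

namespace Pool.Agent.K9h18.EX

open Pool.Agent.TH888.R (wt wt_nonneg wt_le_one VS VS_univ_bound VS_nonneg VS_mono)
open Pool.Agent.K9h18.HS (mass_Ioc short_La prime_part kc kc_pos Ev VS_lt log_ge_one wt_tendsto)
open Pool.Agent.K9h18.AP
open Pool.Agent.H305R2 (SM SMz SM_pos mem_SMz)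

/-- the primes in `(exp a, exp b]` -/
noncomputable def TW (a b : ℝ) : Finset ℕ :=
  (Finset.Ioc ⌊Real.exp a⌋₊ ⌊Real.exp b⌋₊).filter Nat.Prime

lemma mem_TW {a b : ℝ} {p : ℕ} : p ∈ TW a b ↔ p.Prime ∧ Real.exp a < p ∧ (p : ℝ) ≤ Real.exp b := by
  unfold TW
  rw [Finset.mem_filter, Finset.mem_Ioc, Nat.floor_lt (Real.exp_pos _).le,
    Nat.le_floor_iff (Real.exp_pos _).le]
  tauto

lemma sum_TW {a b : ℝ} (hab : a ≤ b) : ∑ p ∈ TW a b, wt p = GV b - GV a := by
  have h5 := mass_Ioc Set.univ ⌊Real.exp a⌋₊ ⌊Real.exp b⌋₊ (Nat.floor_mono (Real.exp_le_exp.2 hab))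
  unfold GV
  rw [← h5]
  have h6 : Finset.Ico (⌊Real.exp a⌋₊ + 1) (⌊Real.exp b⌋₊ + 1) = Finset.Ioc ⌊Real.exp a⌋₊ ⌊Real.exp b⌋₊ := by
    ext x
    simp only [Finset.mem_Ico, Finset.mem_Ioc]
    omega
  rw [h6]
  unfold TW
  refine Finset.sum_congr ?_ fun p _ => rfl
  ext p
  simp only [Finset.mem_filter, Set.mem_univ, and_true]

lemma TW_bound : ∃ C : ℝ, 0 ≤ C ∧ ∀ a b : ℝ, 0 ≤ a → a ≤ b →
    |∑ p ∈ TW a b, wt p - (b - a)| ≤ C := by
  obtain ⟨C0, hC0, hV⟩ := VS_univ_bound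
  have key : ∀ x : ℝ, 0 ≤ x → |GV x - x| ≤ C0 + 1 := by
    intro x hx
    have h1 : 1 ≤ Real.exp x := Real.one_le_exp hx
    have h2 : 1 ≤ ⌊Real.exp x⌋₊ := Nat.le_floor (by simpa using h1)
    have h3 := hV _ h2
    have h4 : Real.log ⌊Real.exp x⌋₊ ≤ x := by
      rw [Real.log_le_iff_le_exp (by exact_mod_cast h2)]
      exact Nat.floor_le (Real.exp_pos _).le
    have h5 : x - 1 ≤ Real.log ⌊Real.exp x⌋₊ := by
      rw [Real.le_log_iff_exp_le (by exact_mod_cast h2), Real.exp_sub]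
      have h6 : Real.exp x < ⌊Real.exp x⌋₊ + 1 := Nat.lt_floor_add_one _
      have h7 : (2 : ℝ) ≤ Real.exp 1 := by linarith [Real.exp_one_gt_d9]
      have h8 : (1 : ℝ) ≤ ⌊Real.exp x⌋₊ := by exact_mod_cast h2
      rw [div_le_iff₀ (Real.exp_pos _)]
      nlinarith
    unfold GV
    have h9 := abs_le.1 h3
    rw [abs_le]
    constructor <;> linarith [h9.1, h9.2]
  refine ⟨2 * (C0 + 1), by positivity, fun a b ha hab => ?_⟩
  rw [sum_TW hab]
  have h1 := abs_le.1 (key a ha)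
  have h2 := abs_le.1 (key b (ha.trans hab))
  rw [abs_le]
  constructor <;> linarith [h1.1, h1.2, h2.1, h2.2]

lemma TW_short : ∃ Z0 : ℝ, 20 ≤ Z0 ∧ ∀ a h : ℝ, Z0 ≤ a → 1 / a ^ 2 ≤ h → h ≤ 1 →
    |∑ p ∈ TW a (a + h), wt p - h| ≤ 2 * h / a := by
  obtain ⟨Z0, hZ0, hLa⟩ := short_La Pool.Agent.N455.OW.pv 1 (e := 1 / 8) (by norm_num) (by norm_num)
  have ev1 : ∀ᶠ a : ℝ in atTop, Real.exp (-((1 / 4 - 1 / 8) * a)) ≤ 1 / a ^ 2 := by
    have h1 := (Real.tendsto_pow_mul_exp_neg_atTop_nhds_zero 2).comp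
      (tendsto_id.const_mul_atTop (show (0 : ℝ) < 1 / 8 by norm_num))
    filter_upwards [h1.eventually_le_const (show (0 : ℝ) < 1 / 64 by norm_num), eventually_gt_atTop 0] with a ha ha0
    simp only [Function.comp, id] at ha
    rw [le_div_iff₀ (by positivity), show (1 / 4 - 1 / 8 : ℝ) * a = 1 / 8 * a by ring]
    rw [mul_pow] at ha
    linarith
  have ev2 : ∀ᶠ a : ℝ in atTop, 16 * ((a + 1) * Real.exp (-(a / 2))) ≤ 1 / a ^ 2 / a := by
    have e1 : Tendsto (fun a : ℝ => a / 2) atTop atTop := tendsto_id.atTop_div_const (by norm_num)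
    have h1 := (Real.tendsto_pow_mul_exp_neg_atTop_nhds_zero 4).comp e1
    filter_upwards [h1.eventually_le_const (show (0 : ℝ) < 1 / 512 by norm_num), eventually_ge_atTop 1] with a ha ha0
    simp only [Function.comp] at ha
    rw [div_div, le_div_iff₀ (by positivity)]
    have h2 : (a / 2) ^ 4 * Real.exp (-(a / 2)) = a ^ 4 * Real.exp (-(a / 2)) / 16 := by ring
    rw [h2] at ha
    have h3 : 0 < Real.exp (-(a / 2)) := Real.exp_pos _
    have h4 : (a + 1) * (a ^ 2 * a) ≤ 2 * a ^ 4 := by nlinarith [pow_pos (by linarith : 0 < a) 3]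
    calc 16 * ((a + 1) * Real.exp (-(a / 2))) * (a ^ 2 * a) =
          16 * (((a + 1) * (a ^ 2 * a)) * Real.exp (-(a / 2))) := by ring
      _ ≤ 16 * ((2 * a ^ 4) * Real.exp (-(a / 2))) := by gcongr
      _ ≤ 1 := by linarith
  obtain ⟨Z1, hZ1⟩ := (ev1.and ev2).exists_forall_of_atTop
  refine ⟨max Z0 Z1, hZ0.trans (le_max_left _ _), fun a h ha hh1 hh2 => ?_⟩
  obtain ⟨c1, c2⟩ := hZ1 a ((le_max_right _ _).trans ha)
  have ha1 : Z0 ≤ a := (le_max_left _ _).trans ha
  have ha0 : 0 < a := by linarith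
  have h0 : 0 < h := lt_of_lt_of_le (by positivity) hh1
  have h2 := hLa a (a + h) ha1 (by linarith) (by linarith) (by
    rw [add_sub_cancel_left]
    exact c1.trans hh1)
  rw [add_sub_cancel_left, pow_one] at h2
  set m := ⌊Real.exp a⌋₊ with hm
  set k := ⌊Real.exp (a + h)⌋₊ with hk
  have hx2 : 2 ≤ Real.exp a := by
    have := Real.add_one_le_exp a
    linarith
  have hm1 : 1 ≤ m := Nat.le_floor (by push_cast; linarith)
  have hmk : m ≤ k := Nat.floor_mono (Real.exp_le_exp.2 (by linarith))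
  have h3 := prime_part m k hm1 hmk
  have h4 : ∑ l ∈ (Finset.Ioc m k).filter Nat.Prime, Real.log l / l = ∑ p ∈ TW a (a + h), wt p := rfl
  rw [h4] at h3
  have h5 : 2 * √k * Real.log k / m ≤ 16 * ((a + 1) * Real.exp (-(a / 2))) := by
    have hk0 : (0 : ℝ) < k := by exact_mod_cast (lt_of_lt_of_le hm1 hmk)
    have hkx : (k : ℝ) ≤ Real.exp (a + h) := Nat.floor_le (Real.exp_pos _).le
    have hm2 : Real.exp a / 2 ≤ m := by
      have := Nat.lt_floor_add_one (Real.exp a)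
      linarith
    have e1 : Real.log k ≤ a + 1 := by
      rw [Real.log_le_iff_le_exp hk0]
      exact hkx.trans (Real.exp_le_exp.2 (by linarith))
    have e2 : √(k : ℝ) ≤ 2 * Real.exp (a / 2) := by
      rw [Real.sqrt_le_left (by positivity)]
      have e3 : (2 * Real.exp (a / 2)) ^ 2 = 4 * Real.exp a := by
        rw [mul_pow, ← Real.exp_nat_mul]
        push_cast
        rw [show 2 * (a / 2) = a by ring]
        norm_num
      rw [e3]
      have e4 : Real.exp (a + h) ≤ Real.exp a * Real.exp 1 := by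
        rw [← Real.exp_add]
        exact Real.exp_le_exp.2 (by linarith)
      have e5 := Real.exp_one_lt_d9
      have e6 := Real.exp_pos a
      nlinarith
    have e3 : 0 ≤ Real.log k := Real.log_natCast_nonneg k
    have e4 : 2 * √k * Real.log k / m ≤ 2 * (2 * Real.exp (a / 2)) * (a + 1) / (Real.exp a / 2) := by
      apply div_le_div₀ (by positivity) _ (by positivity) hm2
      apply mul_le_mul _ e1 e3 (by positivity)
      apply mul_le_mul_of_nonneg_left e2 (by norm_num)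
    refine e4.trans ?_
    have e5 : Real.exp a = Real.exp (a / 2) * Real.exp (a / 2) := by
      rw [← Real.exp_add]
      congr 1
      ring
    have e6 : Real.exp (-(a / 2)) = 1 / Real.exp (a / 2) := by rw [Real.exp_neg, one_div]
    have e7 := Real.exp_pos (a / 2)
    have e8 : 2 * (2 * Real.exp (a / 2)) * (a + 1) / (Real.exp a / 2) = 8 * ((a + 1) * Real.exp (-(a / 2))) := by
      rw [e5, e6]
      field_simp
      ring
    rw [e8]
    have e9 : 0 ≤ (a + 1) * Real.exp (-(a / 2)) := by positivity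
    linarith
  have h7 : 1 / a ^ 2 / a ≤ h / a := div_le_div_of_nonneg_right hh1 ha0.le
  have h6 : ∑ p ∈ TW a (a + h), wt p - h = (∑ n ∈ Finset.Ioc m k, ArithmeticFunction.vonMangoldt n / n - h) -
      (∑ n ∈ Finset.Ioc m k, ArithmeticFunction.vonMangoldt n / n - ∑ p ∈ TW a (a + h), wt p) := by ring
  rw [h6]
  refine (abs_sub _ _).trans ?_
  have h8 : 2 * h / a = h / a + h / a := by ring
  rw [h8]
  linarith

/-! ## The means -/

lemma DD_nonneg {ε : ℝ} (hε : ε ≤ 1 / 2) (q : ℕ) : 0 ≤ DD ε q := by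
  unfold DD
  refine Finset.sum_nonneg fun s hs => ?_
  rw [mem_SMz (Real.exp_pos _).le] at hs
  have hs0 : (0 : ℝ) < s := by exact_mod_cast SM_pos hs.1
  have h1 : Real.log s ≤ ε * q := by
    rw [Real.log_le_iff_le_exp hs0]
    exact hs.2
  have hl2a : 0.69 < Real.log 2 := by linarith [Real.log_two_gt_d9]
  have hq0 : (0 : ℝ) ≤ q := Nat.cast_nonneg q
  have h2 : ε * q ≤ q * Real.log 2 := by nlinarith
  exact div_nonneg (by positivity) (by linarith)

/-- the data of the model used below: means, errors and a threshold -/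
structure Dat (η : ℝ) (e A : ℕ → ℕ) (m κ : ℕ → ℝ) (P : ℕ) (K : ℝ) : Prop where
  P3 : 3 ≤ P
  η0 : 0 < η
  K0 : 0 < K
  m0 : ∀ q, 0 ≤ m q
  κ0 : ∀ q, 0 ≤ κ q
  os : OS η e A m κ P
  mc : ∀ q ≥ P, |m q - kc * wt q| ≤ K / q
  mh : ∀ q ≥ P, m q ≤ 1 / 2
  mw : ∀ q ≥ P, m q + κ q ≤ K * wt q
  κe : ∀ q ≥ P, κ q ≤ K * (wt q / q)

theorem exists_dat (hPV : Pool.Agent.N176.OW.S_PV) {η : ℝ} {e A : ℕ → ℕ} (hM : Md η e A) :
    ∃ (m κ : ℕ → ℝ) (P : ℕ) (K : ℝ), Dat η e A m κ P K := by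
  obtain ⟨K1, hK1, P1, hwin⟩ := win_mean2 hPV hM
  obtain ⟨K2, hK2, P2, hcl⟩ := DD_close hPV hM.pos hM.lt
  have hkc := kc_pos
  have h1 : Tendsto (fun q : ℕ => kc * wt q + K2 / q) atTop (𝓝 (kc * 0 + 0)) :=
    (wt_tendsto.const_mul kc).add (tendsto_const_div_atTop_nhds_zero_nat K2)
  rw [mul_zero, add_zero] at h1
  obtain ⟨P3, hP3⟩ := eventually_atTop.1 (h1.eventually_le_const (show (0 : ℝ) < 1 / 2 by norm_num))
  have hη16 : η / 16 ≤ 1 / 2 := by have := hM.lt; linarith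
  have hκ0 : ∀ q : ℕ, 0 ≤ K1 * (Real.log q / (q : ℝ) ^ 2) := fun q => by
    have := Real.log_natCast_nonneg q
    positivity
  refine ⟨DD (η / 16), fun q => K1 * (Real.log q / (q : ℝ) ^ 2), P1 + P2 + P3 + 3, kc + K2 + K1,
    by omega, hM.pos, by positivity, fun q => DD_nonneg hη16 q, hκ0, ?_, ?_, ?_, ?_, ?_⟩
  · intro p hp
    exact one_step2 hwin p (by omega)
  · intro q hq
    refine (hcl q (by omega)).trans ?_
    have hq0 : (0 : ℝ) < q := by exact_mod_cast (by omega : 0 < q)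
    gcongr
    linarith
  · intro q hq
    have h2 := (abs_le.1 (hcl q (by omega))).2
    have h3 := hP3 q (by omega)
    linarith
  · intro q hq
    have hq0 : (0 : ℝ) < q := by exact_mod_cast (by omega : 0 < q)
    have hq1 : (1 : ℝ) ≤ q := by exact_mod_cast (by omega : 1 ≤ q)
    have h2 := (abs_le.1 (hcl q (by omega))).2
    have h3 : 1 / (q : ℝ) ≤ wt q := by
      unfold wt
      have := log_ge_one (show 3 ≤ q by omega)
      gcongr
    have h4 : K2 / q ≤ K2 * wt q := by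
      calc K2 / q = K2 * (1 / q) := by ring
        _ ≤ _ := mul_le_mul_of_nonneg_left h3 hK2.le
    have h5 : Real.log q / (q : ℝ) ^ 2 ≤ wt q := by
      unfold wt
      have h6 := Real.log_natCast_nonneg q
      apply div_le_div_of_nonneg_left h6 hq0
      nlinarith
    have h6 : K1 * (Real.log q / (q : ℝ) ^ 2) ≤ K1 * wt q := mul_le_mul_of_nonneg_left h5 hK1.le
    linarith
  · intro q hq
    have hq0 : (0 : ℝ) < q := by exact_mod_cast (by omega : 0 < q)
    have h5 : Real.log q / (q : ℝ) ^ 2 = wt q / q := by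
      unfold wt
      field_simp
    rw [h5]
    have := wt_nonneg q
    apply mul_le_mul_of_nonneg_right _ (by positivity)
    linarith

end Pool.Agent.K9h18.EX
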