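import Pool.Agent.K9h18.EX.Det
import Pool.Agent.K9h18.EX.Ek

set_option autoImplicit false

/-!
# Small gaps: tuples with relative errors, and the mass of short windows
-/

open Finset Filter Topology MeasureTheory

namespace Pool.Agent.K9h18.EX

open Pool.Agent.TH888.R (wt wt_nonneg wt_le_one VS VS_univ_bound VS_nonneg VS_mono gr gr_small cS)
open Pool.Agent.K9h18.HS (kc kc_pos log_ge_one wt_tendsto win Nx VS_zero VS_step mass_Ioc PtR Ev VS_lt cS_nth)
open Pool.Agent.K9h18.AP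

section

variable {η : ℝ} {e A : ℕ → ℕ} {m κ : ℕ → ℝ} {P : ℕ} {K : ℝ} (hD : Dat η e A m κ P K)
include hD

/-- lower bounds for the means -/
lemma m_low {δ : ℝ} (hδ : 0 < δ) : ∃ Q : ℕ, P ≤ Q ∧ 3 ≤ Q ∧ ∀ q ≥ Q, kc / 2 * wt q ≤ m q ∧ 1 / (q : ℝ) ≤ m q ∧
    κ q ≤ δ * m q := by
  have hK := hD.K0
  have hkc := kc_pos
  have hkg := kc_gt
  have hP3 := hD.P3
  obtain ⟨Q1, hQ1⟩ := (tendsto_natCast_atTop_atTop (R := ℝ)).eventually_ge_atTop
    (Real.exp (2 * K / kc + 1)) |>.exists_forall_of_atTop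
  obtain ⟨Q2, hQ2⟩ := (tendsto_natCast_atTop_atTop (R := ℝ)).eventually_ge_atTop
    (2 * K / (kc * δ) + 1) |>.exists_forall_of_atTop
  refine ⟨P + Q1 + Q2 + 3, by omega, by omega, fun q hq => ?_⟩
  have h1 := hQ1 q (by omega)
  have h2 := hQ2 q (by omega)
  have hq0 : (0 : ℝ) < q := by exact_mod_cast (by omega : 0 < q)
  rw [← Real.le_log_iff_exp_le hq0] at h1
  have hl1 : 1 ≤ Real.log q := log_ge_one (by omega)
  have h3 := (abs_le.1 (hD.mc q (by omega))).1
  have h4 : K / q ≤ kc / 2 * wt q := by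
    unfold wt
    rw [mul_div_assoc', div_le_div_iff_of_pos_right hq0]
    have h5 : 2 * K / kc ≤ Real.log q := by linarith
    rw [div_le_iff₀ hkc] at h5
    linarith
  have h5 : kc / 2 * wt q ≤ m q := by linarith
  refine ⟨h5, ?_, ?_⟩
  · refine le_trans ?_ h5
    unfold wt
    rw [mul_div_assoc', div_le_div_iff_of_pos_right hq0]
    nlinarith
  · refine (hD.κe q (by omega)).trans ?_
    have hw := wt_nonneg q
    have h6 : K * (wt q / q) ≤ δ * (kc / 2 * wt q) := by
      have h7 : K / q ≤ δ * (kc / 2) := by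
        rw [div_le_iff₀ hq0]
        have h8 : 2 * K / (kc * δ) ≤ q := by linarith
        rw [div_le_iff₀ (by positivity)] at h8
        linarith
      calc K * (wt q / q) = K / q * wt q := by ring
        _ ≤ δ * (kc / 2) * wt q := mul_le_mul_of_nonneg_right h7 hw
        _ = _ := by ring
    exact h6.trans (mul_le_mul_of_nonneg_left h5 hδ.le)

/-- **Tuples with a relative error.** -/
theorem tup_rel {δ : ℝ} (hδ : 0 < δ) (hδ1 : δ ≤ 1) : ∃ Q : ℕ, 3 ≤ Q ∧ P ≤ Q ∧ ∀ T : Finset ℕ, T.card ≤ 4 →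
    (∀ p ∈ T, Q ≤ p) → |∫ c, ∏ q ∈ T, fa e A q c ∂muI - ∏ q ∈ T, m q| ≤ δ * ∏ q ∈ T, m q := by
  classical
  obtain ⟨Q1, hQP, hQ3, hlow⟩ := m_low hD (δ := δ / 30) (by positivity)
  obtain ⟨Q2, hQ2⟩ := hh_pow η hD.η0 6
  obtain ⟨Q3, hQ3'⟩ := (tendsto_natCast_atTop_atTop (R := ℝ)).eventually_ge_atTop
    (1 + 1 / δ) |>.exists_forall_of_atTop
  refine ⟨Q1 + Q2 + Q3, by omega, by omega, fun T hT hTQ => ?_⟩
  have hP3 := hD.P3
  have hm0 := hD.m0
  have hκ0 := hD.κ0
  have hp : ∀ p : ℕ, Q1 + Q2 + Q3 ≤ p → hh η p * (4 * (p : ℝ) ^ 2) ^ 3 ≤ 1 ∧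
      Ea η 0 1 3 p * (p : ℝ) ^ 4 ≤ δ / 30 := by
    intro p hp
    have h1 := hQ2 p (by omega)
    have h2 := hQ3' p (by omega)
    have hp1 : (1 : ℝ) ≤ p := by exact_mod_cast (by omega : 1 ≤ p)
    have hh0 := hh_pos η p
    have h3 : (4 * (p : ℝ) ^ 2) ^ 6 = (4 * (p : ℝ) ^ 2) ^ 3 * (64 * ((p : ℝ) ^ 4 * (p : ℝ) ^ 2)) := by ring
    set Z := hh η p * (4 * (p : ℝ) ^ 2) ^ 3 with hZ
    have hZ0 : 0 ≤ Z := by positivity
    have h4 : Z * (64 * ((p : ℝ) ^ 4 * (p : ℝ) ^ 2)) ≤ 1 := by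
      calc Z * (64 * ((p : ℝ) ^ 4 * (p : ℝ) ^ 2)) = hh η p * (4 * (p : ℝ) ^ 2) ^ 6 := by
            rw [h3, hZ]
            ring
        _ ≤ 1 := h1
    have hpp : 1 ≤ (p : ℝ) ^ 4 := one_le_pow₀ hp1
    have hpp2 : 1 ≤ (p : ℝ) ^ 2 := one_le_pow₀ hp1
    constructor
    · have h5 : 1 ≤ 64 * ((p : ℝ) ^ 4 * (p : ℝ) ^ 2) := by nlinarith
      nlinarith
    · have h6 : Ea η 0 1 3 p = 2 * Z := by
        unfold Ea
        rw [hZ]
        ring
      rw [h6]
      have h7 : 1 / δ ≤ (p : ℝ) ^ 2 := by nlinarith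
      rw [div_le_iff₀ hδ] at h7
      have h8 : Z * (p : ℝ) ^ 4 * 64 ≤ Z * (p : ℝ) ^ 4 * 64 * ((p : ℝ) ^ 2 * δ) :=
        le_mul_of_one_le_right (by positivity) h7
      have h9 : Z * (p : ℝ) ^ 4 * 64 * ((p : ℝ) ^ 2 * δ) = δ * (Z * (64 * ((p : ℝ) ^ 4 * (p : ℝ) ^ 2))) := by
        ring
      rw [h9] at h8
      have h10 : δ * (Z * (64 * ((p : ℝ) ^ 4 * (p : ℝ) ^ 2))) ≤ δ * 1 :=
        mul_le_mul_of_nonneg_left h4 hδ.le
      have h11 : 2 * Z * (p : ℝ) ^ 4 = Z * (p : ℝ) ^ 4 * 64 / 32 := by ring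
      rw [h11]
      linarith
  have h1 := tup2 (by omega) hm0 hκ0 hD.os 3 T hT (fun p hp' => ⟨by
    have := hTQ p hp'
    omega, (hp p (hTQ p hp')).1⟩) 0 1 (fun _ => 1) ph_one
  simp only [one_mul, integral_const, probReal_univ, smul_eq_mul, mul_one] at h1
  refine h1.trans ?_
  -- the two errors
  have key : ∀ U : Finset ℕ, U ⊆ T → ∏ q ∈ U, (m q + κ q) - ∏ q ∈ U, m q ≤
      (2 ^ U.card - 1) * (δ / 30) * ∏ q ∈ U, m q ∧
      ae (Ea η 0 1 3) (fun q => m q + κ q) U ≤ (2 ^ U.card - 1) * (δ / 30) * ∏ q ∈ U, m q := by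
    intro U
    induction U using Finset.induction_on_max with
    | empty =>
      intro _
      simp [ae_empty]
    | insert p U hpU ih =>
      intro hU
      have hpn : p ∉ U := fun h => lt_irrefl _ (hpU p h)
      have hpT : p ∈ T := hU (Finset.mem_insert_self _ _)
      obtain ⟨i1, i2⟩ := ih fun q hq => hU (Finset.mem_insert_of_mem hq)
      obtain ⟨l1, l2, l3⟩ := hlow p (by have := hTQ p hpT; omega)
      obtain ⟨p1, p2⟩ := hp p (hTQ p hpT)
      rw [Finset.prod_insert hpn, Finset.prod_insert hpn, ae_insert _ _ hpU, Finset.card_insert_of_notMem hpn]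
      set X := ∏ q ∈ U, m q with hX
      set Y := ∏ q ∈ U, (m q + κ q) with hY
      set Z := ae (Ea η 0 1 3) (fun q => m q + κ q) U with hZ
      have hX0 : 0 ≤ X := Finset.prod_nonneg fun q _ => hm0 q
      have hmp := hm0 p
      have hκp := hκ0 p
      have hb : m p + κ p ≤ 2 * m p := by
        have : δ / 30 * m p ≤ 1 * m p := mul_le_mul_of_nonneg_right (by linarith) hmp
        linarith
      have hU4 : U.card + 1 ≤ 4 := by
        have := Finset.card_le_card hU
        rw [Finset.card_insert_of_notMem hpn] at this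
        omega
      set t : ℝ := 2 ^ U.card with ht
      have ht1 : 1 ≤ t := one_le_pow₀ (by norm_num)
      have ht2 : (2 : ℝ) ^ (U.card + 1) = 2 * t := by rw [pow_succ]; ring
      rw [ht2]
      have hXt : 0 ≤ δ / 30 * X := by positivity
      constructor
      · -- `(m + κ) Y - m X = (m + κ) (Y - X) + κ X`
        have g1 : (m p + κ p) * (Y - X) ≤ (m p + κ p) * ((t - 1) * (δ / 30) * X) :=
          mul_le_mul_of_nonneg_left i1 (by linarith)
        have g2 : (m p + κ p) * ((t - 1) * (δ / 30) * X) ≤ 2 * m p * ((t - 1) * (δ / 30) * X) := by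
          apply mul_le_mul_of_nonneg_right hb
          have : 0 ≤ t - 1 := by linarith
          positivity
        have g3 : κ p * X ≤ δ / 30 * m p * X := mul_le_mul_of_nonneg_right l3 hX0
        nlinarith
      · have hZ0 : 0 ≤ Z := ae_nonneg (fun q _ => by
          unfold Ea
          have := hh_pos η q
          positivity) (fun q _ => add_nonneg (hm0 q) (hκ0 q))
        have g1 : (m p + κ p) * Z ≤ 2 * m p * ((t - 1) * (δ / 30) * X) := by
          calc (m p + κ p) * Z ≤ 2 * m p * Z := mul_le_mul_of_nonneg_right hb hZ0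
            _ ≤ _ := mul_le_mul_of_nonneg_left i2 (by linarith)
        have hp0 : (0 : ℝ) < p := by exact_mod_cast (by have := hTQ p hpT; omega : 0 < p)
        have g2 : 1 / (p : ℝ) ^ 3 ≤ X := by
          have g4 : ∏ q ∈ U, 1 / (p : ℝ) ≤ X := by
            apply Finset.prod_le_prod (fun q _ => by positivity)
            intro q hq
            have g5 := hTQ q (hU (Finset.mem_insert_of_mem hq))
            refine le_trans ?_ (hlow q (by omega)).2.1
            have g6 : (0 : ℝ) < q := by exact_mod_cast (by omega : 0 < q)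
            apply one_div_le_one_div_of_le g6
            exact_mod_cast (hpU q hq).le
          refine le_trans ?_ g4
          rw [Finset.prod_const, one_div_pow]
          apply one_div_le_one_div_of_le (by positivity)
          exact pow_le_pow_right₀ (by exact_mod_cast (by have := hTQ p hpT; omega : 1 ≤ p)) (by omega)
        have g3 : Ea η 0 1 3 p ≤ δ / 30 * (m p * X) := by
          have g4 : 1 / (p : ℝ) ^ 4 ≤ m p * X := by
            calc 1 / (p : ℝ) ^ 4 = 1 / p * (1 / (p : ℝ) ^ 3) := by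
                  field_simp
              _ ≤ m p * X := mul_le_mul l2 g2 (by positivity) hmp
          calc Ea η 0 1 3 p = Ea η 0 1 3 p * (p : ℝ) ^ 4 * (1 / (p : ℝ) ^ 4) := by
                field_simp
            _ ≤ δ / 30 * (1 / (p : ℝ) ^ 4) := mul_le_mul_of_nonneg_right p2 (by positivity)
            _ ≤ _ := mul_le_mul_of_nonneg_left g4 (by positivity)
        nlinarith
  obtain ⟨k1, k2⟩ := key T subset_rfl
  have hX0 : 0 ≤ ∏ q ∈ T, m q := Finset.prod_nonneg fun q _ => hm0 q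
  have ht : (2 : ℝ) ^ T.card ≤ 16 := by
    calc (2 : ℝ) ^ T.card ≤ 2 ^ 4 := pow_le_pow_right₀ (by norm_num) hT
      _ = 16 := by norm_num
  have h2 : (2 ^ T.card - 1) * (δ / 30) * ∏ q ∈ T, m q ≤ 15 * (δ / 30) * ∏ q ∈ T, m q := by
    apply mul_le_mul_of_nonneg_right _ hX0
    apply mul_le_mul_of_nonneg_right _ (by positivity)
    linarith
  linarith

/-- the mass of short windows -/
lemma cell_m : ∀ᶠ n : ℕ in atTop, ∀ (S : Set ℕ), Tendsto (VS S) atTop atTop → ∀ x h : ℝ, (n : ℝ) ≤ x →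
    1 / ((n : ℝ) + 1) ^ 2 ≤ h → h ≤ 1 →
    h ≤ ∑ q ∈ win S x (x + h), m q ∧ ∑ q ∈ win S x (x + h), m q ≤ 4 * h ∧
      ∀ q ∈ win S x (x + h), m q ≤ h / 8 := by
  obtain ⟨C, hC1, hC, -, hmass⟩ := win_fact
  have hK := hD.K0
  have hk1 := kc_gt
  have hk2 := kc_lt
  have hkc := kc_pos
  -- the main condition
  have l1 : ∀ᶠ n : ℕ in atTop, (4 + 100 * K) * Real.exp (-((n : ℝ) - C) / 2) ≤
      (kc - 2) / 20 * (3 - kc) / ((n : ℝ) + 1) ^ 2 := by
    have e1 : Tendsto (fun n : ℕ => ((n : ℝ) - C) / 2) atTop atTop :=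
      (tendsto_atTop_add_const_right _ (-C) tendsto_natCast_atTop_atTop).atTop_div_const (by norm_num)
    have e2 := (Real.tendsto_pow_mul_exp_neg_atTop_nhds_zero 2).comp e1
    have e3 : 0 < (kc - 2) / 20 * (3 - kc) := by
      apply mul_pos <;> linarith
    filter_upwards [e2.eventually_le_const
      (show (0 : ℝ) < (kc - 2) / 20 * (3 - kc) / (16 * (4 + 100 * K)) by positivity),
      (tendsto_natCast_atTop_atTop (R := ℝ)).eventually_ge_atTop (2 * C + 1)] with n hn hn2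
    simp only [Function.comp] at hn
    rw [le_div_iff₀ (by positivity)] at hn ⊢
    have e4 : (n : ℝ) + 1 ≤ 4 * (((n : ℝ) - C) / 2) := by linarith
    have e5 : ((n : ℝ) + 1) ^ 2 ≤ 16 * (((n : ℝ) - C) / 2) ^ 2 := by
      calc ((n : ℝ) + 1) ^ 2 ≤ (4 * (((n : ℝ) - C) / 2)) ^ 2 := pow_le_pow_left₀ (by positivity) e4 2
        _ = _ := by ring
    have e6 : -((n : ℝ) - C) / 2 = -(((n : ℝ) - C) / 2) := by ring
    rw [e6]
    have e7 := Real.exp_pos (-(((n : ℝ) - C) / 2))
    calc (4 + 100 * K) * Real.exp (-(((n : ℝ) - C) / 2)) * ((n : ℝ) + 1) ^ 2 ≤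
          (4 + 100 * K) * Real.exp (-(((n : ℝ) - C) / 2)) * (16 * (((n : ℝ) - C) / 2) ^ 2) := by gcongr
      _ = (((n : ℝ) - C) / 2) ^ 2 * Real.exp (-(((n : ℝ) - C) / 2)) * (16 * (4 + 100 * K)) := by ring
      _ ≤ _ := hn
  have hP3 := hD.P3
  filter_upwards [l1, (tendsto_natCast_atTop_atTop (R := ℝ)).eventually_ge_atTop
      (2 * C + 2 * Real.log (P : ℕ) + 1 + 80 * K / (kc - 2) + 80 * K / (3 - kc))] with n c1 c2
  intro S hS x h hx hh1 hh2
  have hlP : 0 ≤ Real.log (P : ℕ) := Real.log_natCast_nonneg _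
  have hd1 : 0 < kc - 2 := by linarith
  have hd2 : 0 < 3 - kc := by linarith
  have hz1 : 0 ≤ 80 * K / (kc - 2) := by positivity
  have hz2 : 0 ≤ 80 * K / (3 - kc) := by positivity
  have hn0 : (0 : ℝ) < n := by linarith
  have hx0 : 0 < x := by linarith
  have hxC : (n : ℝ) / 2 ≤ x - C := by linarith
  have hh0 : 0 < h := lt_of_lt_of_le (by positivity) hh1
  set ε := Real.exp (-((n : ℝ) - C) / 2) with hε
  have hε0 : 0 < ε := Real.exp_pos _
  have hexp : Real.exp (-(x - C) / 2) ≤ ε := Real.exp_le_exp.2 (by linarith)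
  have hεh : (4 + 100 * K) * ε ≤ (kc - 2) / 20 * (3 - kc) * h := by
    refine c1.trans ?_
    rw [div_eq_mul_one_div]
    exact mul_le_mul_of_nonneg_left hh1 (by positivity)
  have hq : ∀ q ∈ win S x (x + h), P ≤ q ∧ Real.exp (x - C) ≤ q := by
    intro q hq
    rw [mem_win' hS] at hq
    have h3 := hC S q hq.1.one_lt.le
    have h4 : Real.exp (x - C) ≤ q := (Real.exp_le_exp.2 (by linarith [hq.2.2.1])).trans h3
    refine ⟨?_, h4⟩
    have h5 : ((P : ℕ) : ℝ) ≤ Real.exp (x - C) := by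
      rw [← Real.log_le_iff_le_exp (by exact_mod_cast (by omega : 0 < P))]
      linarith
    exact_mod_cast h5.trans h4
  have hm := hmass S hS x (x + h) hx0.le (by linarith)
  rw [add_sub_cancel_left] at hm
  have hm' := abs_le.1 hm
  have hm4 : 4 * Real.exp (-(x - C) / 2) ≤ (kc - 2) / 20 * h := by
    have h7 : 4 * Real.exp (-(x - C) / 2) ≤ (4 + 100 * K) * ε := by nlinarith
    have h8 : (kc - 2) / 20 * (3 - kc) * h ≤ (kc - 2) / 20 * 1 * h := by
      apply mul_le_mul_of_nonneg_right _ hh0.le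
      apply mul_le_mul_of_nonneg_left _ (by linarith)
      linarith
    linarith
  have hm5 : 4 * Real.exp (-(x - C) / 2) ≤ (3 - kc) / 20 * h := by
    have h7 : 4 * Real.exp (-(x - C) / 2) ≤ (4 + 100 * K) * ε := by nlinarith
    have h8 : (kc - 2) / 20 * (3 - kc) * h ≤ 1 / 20 * (3 - kc) * h := by
      apply mul_le_mul_of_nonneg_right _ hh0.le
      apply mul_le_mul_of_nonneg_right _ (by linarith)
      linarith
    linarith
  set W := ∑ q ∈ win S x (x + h), wt q with hW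
  have hW0 : 0 ≤ W := Finset.sum_nonneg fun q _ => wt_nonneg q
  -- the differences
  have h4 : |∑ q ∈ win S x (x + h), (m q - kc * wt q)| ≤ 2 * K / n * W := by
    refine (Finset.abs_sum_le_sum_abs _ _).trans ?_
    rw [hW, Finset.mul_sum]
    refine Finset.sum_le_sum fun q hq1 => ?_
    obtain ⟨g1, g2⟩ := hq q hq1
    refine (hD.mc q g1).trans ?_
    have hq0 : (0 : ℝ) < q := by exact_mod_cast (by omega : 0 < q)
    have h5 : (n : ℝ) / 2 ≤ Real.log q := by
      refine hxC.trans ?_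
      rw [Real.le_log_iff_exp_le hq0]
      exact g2
    unfold wt
    have e3 : 2 * K / n * (Real.log q / q) = K / q * (Real.log q / (n / 2)) := by
      field_simp
    rw [e3]
    apply le_mul_of_one_le_right (by positivity)
    rw [le_div_iff₀ (by positivity)]
    linarith
  have h3 : ∑ q ∈ win S x (x + h), m q = ∑ q ∈ win S x (x + h), (m q - kc * wt q) + kc * W := by
    rw [Finset.sum_sub_distrib, ← Finset.mul_sum]
    ring
  have h5 := abs_le.1 h4
  have hKn1 : 2 * K / n ≤ (kc - 2) / 40 := by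
    rw [div_le_iff₀ hn0]
    have h6 : 80 * K / (kc - 2) ≤ n := by linarith
    rw [div_le_iff₀ hd1] at h6
    linarith
  have hKn2 : 2 * K / n ≤ (3 - kc) / 40 := by
    rw [div_le_iff₀ hn0]
    have h6 : 80 * K / (3 - kc) ≤ n := by linarith
    rw [div_le_iff₀ hd2] at h6
    linarith
  have hWl : (1 - (kc - 2) / 20) * h ≤ W := by linarith [hm'.1]
  have hWu : W ≤ (1 + (3 - kc) / 20) * h := by linarith [hm'.2]
  refine ⟨?_, ?_, ?_⟩
  · have h6 : 2 * K / n * W ≤ (kc - 2) / 40 * W := mul_le_mul_of_nonneg_right hKn1 hW0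
    have h7 : (kc - (kc - 2) / 40) * W ≤ ∑ q ∈ win S x (x + h), m q := by
      rw [h3]
      linarith [h5.1]
    refine le_trans ?_ h7
    have h8 : h ≤ 2 * ((1 - (kc - 2) / 20) * h) := by nlinarith
    have h9 : 2 * W ≤ (kc - (kc - 2) / 40) * W := by
      apply mul_le_mul_of_nonneg_right _ hW0
      linarith
    linarith
  · have h6 : 2 * K / n * W ≤ (3 - kc) / 40 * W := mul_le_mul_of_nonneg_right hKn2 hW0
    have h7 : ∑ q ∈ win S x (x + h), m q ≤ (kc + (3 - kc) / 40) * W := by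
      rw [h3]
      linarith [h5.2]
    refine h7.trans ?_
    have h8 : (kc + (3 - kc) / 40) * W ≤ 3.1 * W := by
      apply mul_le_mul_of_nonneg_right _ hW0
      linarith
    have h9 : 3.1 * W ≤ 3.1 * ((1 + (3 - kc) / 20) * h) := mul_le_mul_of_nonneg_left hWu (by norm_num)
    nlinarith
  · intro q hq1
    obtain ⟨g1, g2⟩ := hq q hq1
    have g3 := hD.mw q g1
    have g4 := hD.κ0 q
    have g5 : wt q ≤ 2 * Real.exp (-(x - C) / 2) := by
      refine (wt_sqrt _).trans ?_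
      have h9 : Real.exp ((x - C) / 2) ≤ √(q : ℝ) := by
        apply Real.le_sqrt_of_sq_le
        rw [← Real.exp_nat_mul]
        push_cast
        rw [mul_div_cancel₀ _ (two_ne_zero)]
        exact g2
      calc 2 / √(q : ℝ) ≤ 2 / Real.exp ((x - C) / 2) :=
            div_le_div_of_nonneg_left (by norm_num) (Real.exp_pos _) h9
        _ = 2 * Real.exp (-(x - C) / 2) := by
            rw [div_eq_mul_inv, ← Real.exp_neg]
            congr 2
            ring
    have g6 : K * wt q ≤ K * (2 * ε) := mul_le_mul_of_nonneg_left (by linarith) hK.le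
    have g7 : (kc - 2) / 20 * (3 - kc) * h ≤ 1 / 20 * h := by
      apply mul_le_mul_of_nonneg_right _ hh0.le
      nlinarith
    have g8 : 0 ≤ K * ε := by positivity
    nlinarith

end

end Pool.Agent.K9h18.EX
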