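import Pool.Agent.K9h18.EX.Sm

set_option autoImplicit false

/-!
# Small gaps
-/

open Finset Filter Topology MeasureTheory

namespace Pool.Agent.K9h18.EX

open Pool.Agent.TH888.R (wt wt_nonneg wt_le_one VS VS_univ_bound VS_nonneg VS_mono gr gr_small cS)
open Pool.Agent.K9h18.HS (kc kc_pos log_ge_one wt_tendsto win Nx VS_zero VS_step mass_Ioc PtR Ev VS_lt cS_nth)
open Pool.Agent.K9h18.AP

lemma win_big (Q : ℕ) : ∀ᶠ n : ℕ in atTop, ∀ (S : Set ℕ), Tendsto (VS S) atTop atTop → ∀ x y : ℝ,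
    (n : ℝ) ≤ x → ∀ q ∈ win S x y, Q ≤ q := by
  obtain ⟨C, hC1, hC, -, -⟩ := win_fact
  filter_upwards [(tendsto_natCast_atTop_atTop (R := ℝ)).eventually_ge_atTop
    (C + Real.log (Q + 1 : ℕ))] with n hn S hS x y hx q hq
  rw [mem_win' hS] at hq
  have h3 := hC S q hq.1.one_lt.le
  have h4 : ((Q + 1 : ℕ) : ℝ) ≤ q := by
    refine le_trans ?_ h3
    rw [← Real.log_le_iff_le_exp (by positivity)]
    linarith [hq.2.2.1]
  have h5 : Q + 1 ≤ q := by exact_mod_cast h4
  omega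

lemma prod_fa_meas (e A : ℕ → ℕ) (T : Finset ℕ) : Measurable fun c => ∏ q ∈ T, fa e A q c :=
  Finset.measurable_fun_prod _ fun q _ => fa_meas e A q

lemma prod_fa_01 (e A : ℕ → ℕ) (T : Finset ℕ) (c : ℕ → ℝ) :
    0 ≤ ∏ q ∈ T, fa e A q c ∧ ∏ q ∈ T, fa e A q c ≤ 1 :=
  ⟨Finset.prod_nonneg fun q _ => fa_nonneg _ _ _ _,
    Finset.prod_le_one (fun q _ => fa_nonneg _ _ _ _) fun q _ => fa_le_one _ _ _ _⟩

lemma prod_fa_int (e A : ℕ → ℕ) (T : Finset ℕ) : Integrable (fun c => ∏ q ∈ T, fa e A q c) muI :=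
  int_bd (prod_fa_meas e A T) (B := 1) fun c => by
    rw [abs_of_nonneg (prod_fa_01 e A T c).1]
    exact (prod_fa_01 e A T c).2

section

variable {η : ℝ} {e A : ℕ → ℕ} {m κ : ℕ → ℝ} {P : ℕ} {K : ℝ} (hD : Dat η e A m κ P K)
include hD

/-- **Small gaps, convergent case.** -/
theorem small_conv {S : Set ℕ} (hS : Tendsto (VS S) atTop atTop) (hG : ∀ᵐ c ∂muI, Good (nn e A c) S)
    {ψ : ℕ → ℝ} (hψ : Antitone ψ) (hs : Summable ψ) :
    ∀ᵐ c ∂muI, ∀ᶠ k : ℕ in atTop,
      ψ k < xx (nn e A c) S (k + 1) - xx (nn e A c) S k := by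
  have hψ0 : ∀ n, 0 ≤ ψ n := fun n => hψ.le_of_tendsto hs.tendsto_atTop_zero n
  set h : ℕ → ℝ := fun n => ψ n + 1 / ((n : ℝ) + 1) ^ 2 with hh
  have hhs : Summable h := by
    refine hs.add ?_
    have h1 : Summable fun n : ℕ => 1 / ((n + 1 : ℕ) : ℝ) ^ 2 :=
      (summable_nat_add_iff 1).2 (Real.summable_one_div_nat_pow.2 (by norm_num : 1 < 2))
    refine h1.congr fun n => ?_
    push_cast
    rfl
  set Y : ℕ → (ℕ → ℝ) → ℝ := fun n c => ∑ q ∈ win S n (n + 1),
    ∑ r ∈ win S (VS S q) (VS S q + h n), fa e A q c * fa e A r c with hY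
  have hffi : ∀ q r, Integrable (fun c => fa e A q c * fa e A r c) muI := fun q r =>
    int_bd ((fa_meas e A q).mul (fa_meas e A r)) (B := 1) fun c => by
      rw [abs_of_nonneg (mul_nonneg (fa_nonneg _ _ _ _) (fa_nonneg _ _ _ _))]
      exact mul_le_one₀ (fa_le_one _ _ _ _) (fa_nonneg _ _ _ _) (fa_le_one _ _ _ _)
  obtain ⟨Q, hQ3, hQP, hQ⟩ := tup_rel hD (δ := 1) one_pos le_rfl
  have hm0 := hD.m0
  have hYs : Summable fun n => ∫ c, Y n c ∂muI := by
    refine Summable.of_norm_bounded_eventually_nat (hhs.mul_left 32) ?_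
    filter_upwards [win_big Q, cell_m hD, hhs.tendsto_atTop_zero.eventually_le_const
      (show (0 : ℝ) < 1 by norm_num)] with n c1 c2 c3
    have hn1 : 1 / ((n : ℝ) + 1) ^ 2 ≤ 1 := by
      rw [div_le_one (by positivity)]
      have : (0 : ℝ) ≤ n := Nat.cast_nonneg n
      nlinarith
    have hhn : 1 / ((n : ℝ) + 1) ^ 2 ≤ h n := by
      simp only [hh]
      have := hψ0 n
      linarith
    have hh0 : 0 ≤ h n := le_trans (by positivity) hhn
    rw [Real.norm_eq_abs, abs_of_nonneg (integral_nonneg fun c => Finset.sum_nonneg fun q _ =>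
      Finset.sum_nonneg fun r _ => mul_nonneg (fa_nonneg _ _ _ _) (fa_nonneg _ _ _ _))]
    simp only [hY]
    rw [integral_finsetSum _ fun q _ => integrable_finsetSum _ fun r _ => hffi q r]
    have h1 : ∀ q ∈ win S n (n + 1), ∫ c, ∑ r ∈ win S (VS S q) (VS S q + h n), fa e A q c * fa e A r c ∂muI ≤
        m q * (8 * h n) := by
      intro q hq
      have hqQ := c1 S hS n (n + 1) le_rfl q hq
      rw [mem_win' hS] at hq
      rw [integral_finsetSum _ fun r _ => hffi q r]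
      have h2 : ∀ r ∈ win S (VS S q) (VS S q + h n), ∫ c, fa e A q c * fa e A r c ∂muI ≤ m q * (2 * m r) := by
        intro r hr
        have hrQ := c1 S hS (VS S q) _ hq.2.2.1.le r hr
        rw [mem_win' hS] at hr
        have hqr : q ≠ r := by
          rintro rfl
          exact lt_irrefl _ hr.2.2.1
        have h3 := hQ {q, r} (by rw [Finset.card_pair hqr]; norm_num) (by
          intro p hp
          rw [Finset.mem_insert, Finset.mem_singleton] at hp
          rcases hp with rfl | rfl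
          · exact hqQ
          · exact hrQ)
        rw [Finset.prod_pair hqr] at h3
        simp only [Finset.prod_pair hqr] at h3
        have := (abs_le.1 h3).2
        nlinarith [hm0 q, hm0 r]
      refine (Finset.sum_le_sum h2).trans ?_
      rw [← Finset.mul_sum, ← Finset.mul_sum]
      apply mul_le_mul_of_nonneg_left _ (hm0 q)
      have h4 := (c2 S hS (VS S q) (h n) hq.2.2.1.le hhn c3).2.1
      linarith
    refine (Finset.sum_le_sum h1).trans ?_
    rw [← Finset.sum_mul]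
    have h4 := (c2 S hS n 1 le_rfl hn1 le_rfl).2.1
    calc (∑ q ∈ win S n (n + 1), m q) * (8 * h n) ≤ (4 * 1) * (8 * h n) :=
          mul_le_mul_of_nonneg_right h4 (by linarith)
      _ = 32 * h n := by ring
  have hYi : ∀ n, Integrable (Y n) muI := fun n =>
    integrable_finsetSum _ fun q _ => integrable_finsetSum _ fun r _ => hffi q r
  have hY0 : ∀ n c, 0 ≤ Y n c := fun n c => Finset.sum_nonneg fun q _ =>
      Finset.sum_nonneg fun r _ => mul_nonneg (fa_nonneg _ _ _ _) (fa_nonneg _ _ _ _)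
  have hY1 : ∀ n c, Y n c ≠ 0 → 1 ≤ Y n c := by
    intro n c hne
    obtain ⟨q, hq, h1⟩ := Finset.exists_ne_zero_of_sum_ne_zero hne
    obtain ⟨r, hr, h2⟩ := Finset.exists_ne_zero_of_sum_ne_zero h1
    have h3 : fa e A q c * fa e A r c = 1 := by
      rcases fa_01 e A q c with h4 | h4 <;> rcases fa_01 e A r c with h5 | h5 <;> rw [h4, h5] at h2 ⊢
      · exact absurd (by norm_num) h2
      · exact absurd (by norm_num) h2
      · exact absurd (by norm_num) h2
      · norm_num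
    rw [← h3]
    simp only [hY]
    refine le_trans ?_ (Finset.single_le_sum (f := fun q => ∑ r ∈ win S (VS S q) (VS S q + h n),
      fa e A q c * fa e A r c) (fun q _ =>
      Finset.sum_nonneg fun r _ => mul_nonneg (fa_nonneg _ _ _ _) (fa_nonneg _ _ _ _)) hq)
    exact Finset.single_le_sum (f := fun r => fa e A q c * fa e A r c)
      (fun r _ => mul_nonneg (fa_nonneg _ _ _ _) (fa_nonneg _ _ _ _)) hr
  filter_upwards [hG, bc1 hYi hY0 hY1 hYs] with c hc hYc
  set x := xx (nn e A c) S with hx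
  have hce : Tendsto (fun k => ⌈x k⌉₊ - 1) atTop atTop :=
    (tendsto_sub_atTop_nat 1).comp (tendsto_nat_ceil_atTop.comp hc.top)
  filter_upwards [hce.eventually hYc, hc.rate, hc.top.eventually_ge_atTop 1] with k g1 g2 g3
  by_contra hcon
  push Not at hcon
  set n := ⌈x k⌉₊ - 1 with hn
  have hcp : 1 ≤ ⌈x k⌉₊ := Nat.one_le_ceil_iff.2 (by linarith)
  have hn1 : (n : ℝ) + 1 = (⌈x k⌉₊ : ℝ) := by
    rw [hn, Nat.cast_sub hcp]
    push_cast
    ring
  have hnx : (n : ℝ) < x k := by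
    have := Nat.ceil_lt_add_one (show 0 ≤ x k by linarith)
    linarith
  have hxn : x k ≤ n + 1 := by
    rw [hn1]
    exact Nat.le_ceil _
  have hnk : n ≤ k := by
    have : (n : ℝ) ≤ k := by linarith [g2.1]
    exact_mod_cast this
  have h1 := xx_mem hc k
  have h2 := xx_mem hc (k + 1)
  set q := Nat.nth (Ev (nn e A c) S) k with hq
  set r := Nat.nth (Ev (nn e A c) S) (k + 1) with hr
  have hVq : VS S q = x k := rfl
  have hVr : VS S r = x (k + 1) := rfl
  have hlt : x k < x (k + 1) := hc.mono (Nat.lt_succ_self k)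
  have hqm : q ∈ win S n (n + 1) := (mem_win' hS).2 ⟨h1.1, h1.2.1, hnx, hxn⟩
  have hrm : r ∈ win S (VS S q) (VS S q + h n) := by
    refine (mem_win' hS).2 ⟨h2.1, h2.2.1, hlt, ?_⟩
    have e1 := hψ hnk
    have e2 : 0 < 1 / ((n : ℝ) + 1) ^ 2 := by positivity
    simp only [hh]
    rw [hVq, hVr]
    linarith
  have h3 : (1 : ℝ) ≤ Y n c := by
    have h4 : fa e A q c * fa e A r c = 1 := by rw [fa_of_Ev h1, fa_of_Ev h2, mul_one]
    rw [← h4]
    simp only [hY]
    refine le_trans ?_ (Finset.single_le_sum (f := fun q => ∑ r ∈ win S (VS S q) (VS S q + h n),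
      fa e A q c * fa e A r c) (fun q _ =>
      Finset.sum_nonneg fun r _ => mul_nonneg (fa_nonneg _ _ _ _) (fa_nonneg _ _ _ _)) hqm)
    exact Finset.single_le_sum (f := fun r => fa e A q c * fa e A r c)
      (fun r _ => mul_nonneg (fa_nonneg _ _ _ _) (fa_nonneg _ _ _ _)) hrm
  rw [g1] at h3
  linarith

/-- the cells -/
lemma cell_int {δ : ℝ} (hδ : 0 < δ) (hδ1 : δ ≤ 1) : ∀ᶠ n : ℕ in atTop, ∀ (S : Set ℕ),
    Tendsto (VS S) atTop atTop → ∀ x h : ℝ, (n : ℝ) ≤ x → 1 / ((n : ℝ) + 1) ^ 2 ≤ h → h ≤ 1 →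
    (∀ k ≤ 4, |∫ c, ek (fun q => fa e A q c) k (win S x (x + h)) ∂muI - ek m k (win S x (x + h))| ≤
      δ * ek m k (win S x (x + h))) ∧
    h ^ 2 / 4 ≤ ek m 2 (win S x (x + h)) ∧ ek m 2 (win S x (x + h)) ≤ 8 * h ^ 2 ∧
    ∫ c, ek (fun q => fa e A q c) 2 (win S x (x + h)) ^ 2 ∂muI ≤ 300 * ek m 2 (win S x (x + h)) := by
  classical
  obtain ⟨Q, hQ3, hQP, hQ⟩ := tup_rel hD hδ hδ1
  have hm0 := hD.m0
  filter_upwards [win_big Q, cell_m hD] with n c1 c2 S hS x h hx hh1 hh2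
  obtain ⟨d1, d2, d3⟩ := c2 S hS x h hx hh1 hh2
  have hh0 : 0 ≤ h := le_trans (by positivity) hh1
  set U := win S x (x + h) with hU
  have hUQ : ∀ q ∈ U, Q ≤ q := c1 S hS x (x + h) hx
  have hint : ∀ k, ∫ c, ek (fun q => fa e A q c) k U ∂muI =
      ∑ T ∈ U.powersetCard k, ∫ c, ∏ q ∈ T, fa e A q c ∂muI := by
    intro k
    unfold ek
    rw [integral_finsetSum _ fun T _ => prod_fa_int e A T]
  have hrel : ∀ k ≤ 4, |∫ c, ek (fun q => fa e A q c) k U ∂muI - ek m k U| ≤ δ * ek m k U := by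
    intro k hk
    rw [hint]
    have h1 : ek m k U = ∑ T ∈ U.powersetCard k, ∏ q ∈ T, m q := rfl
    rw [h1, ← Finset.sum_sub_distrib, Finset.mul_sum]
    refine (Finset.abs_sum_le_sum_abs _ _).trans (Finset.sum_le_sum fun T hT => ?_)
    rw [Finset.mem_powersetCard] at hT
    exact hQ T (by omega) fun p hp => hUQ p (hT.1 hp)
  have hs : ek m 2 U ≤ 8 * h ^ 2 := by
    have h1 := ek_two m U
    have h2 : 0 ≤ ∑ q ∈ U, m q ^ 2 := Finset.sum_nonneg fun q _ => sq_nonneg _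
    have h3 : (∑ q ∈ U, m q) ^ 2 ≤ (4 * h) ^ 2 :=
      pow_le_pow_left₀ (Finset.sum_nonneg fun q _ => hm0 q) d2 2
    nlinarith
  refine ⟨hrel, ?_, hs, ?_⟩
  · have h1 := ek_two m U
    have h2 : ∑ q ∈ U, m q ^ 2 ≤ h / 8 * ∑ q ∈ U, m q := by
      rw [Finset.mul_sum]
      refine Finset.sum_le_sum fun q hq => ?_
      rw [sq]
      exact mul_le_mul_of_nonneg_right (d3 q hq) (hm0 q)
    have h3 : h / 8 * ∑ q ∈ U, m q ≤ h / 8 * (4 * h) := mul_le_mul_of_nonneg_left d2 (by linarith)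
    have h4 : h ^ 2 ≤ (∑ q ∈ U, m q) ^ 2 := pow_le_pow_left₀ hh0 d1 2
    nlinarith
  · have h1 : ∀ c, ek (fun q => fa e A q c) 2 U ^ 2 = ek (fun q => fa e A q c) 2 U +
        6 * ek (fun q => fa e A q c) 3 U + 6 * ek (fun q => fa e A q c) 4 U := fun c =>
      (ek_sq (x := fun q => fa e A q c) U fun q _ => fa_01 e A q c).2.2
    simp only [h1]
    have hki : ∀ k, Integrable (fun c => ek (fun q => fa e A q c) k U) muI := fun k => by
      unfold ek
      exact integrable_finsetSum _ fun T _ => prod_fa_int e A T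
    have i1 : Integrable (fun c => 6 * ek (fun q => fa e A q c) 3 U) muI := (hki 3).const_mul 6
    have i2 : Integrable (fun c => 6 * ek (fun q => fa e A q c) 4 U) muI := (hki 4).const_mul 6
    have i3 : Integrable (fun c => ek (fun q => fa e A q c) 2 U + 6 * ek (fun q => fa e A q c) 3 U) muI :=
      (hki 2).add i1
    rw [integral_add i3 i2, integral_add (hki 2) i1, integral_const_mul, integral_const_mul]
    have g2 := (abs_le.1 (hrel 2 (by norm_num))).2
    have g3 := (abs_le.1 (hrel 3 (by norm_num))).2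
    have g4 := (abs_le.1 (hrel 4 (by norm_num))).2
    have n2 : 0 ≤ ek m 2 U := ek_nonneg (fun q _ => hm0 q) 2
    have n3 : 0 ≤ ek m 3 U := ek_nonneg (fun q _ => hm0 q) 3
    have n4 : 0 ≤ ek m 4 U := ek_nonneg (fun q _ => hm0 q) 4
    have s3 := ek_succ_le (x := m) U (fun q _ => hm0 q) 2
    have s4 := ek_succ_le (x := m) U (fun q _ => hm0 q) 3
    rw [show 2 + 1 = 3 from rfl] at s3
    rw [show 3 + 1 = 4 from rfl] at s4
    have s0 : 0 ≤ ∑ q ∈ U, m q := Finset.sum_nonneg fun q _ => hm0 q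
    have s1 : ∑ q ∈ U, m q ≤ 4 := by linarith
    have t3 : ek m 3 U ≤ 4 * ek m 2 U := s3.trans (mul_le_mul_of_nonneg_right s1 n2)
    have t4 : ek m 4 U ≤ 4 * ek m 3 U := s4.trans (mul_le_mul_of_nonneg_right s1 n3)
    have r2 : δ * ek m 2 U ≤ 1 * ek m 2 U := mul_le_mul_of_nonneg_right hδ1 n2
    have r3 : δ * ek m 3 U ≤ 1 * ek m 3 U := mul_le_mul_of_nonneg_right hδ1 n3
    have r4 : δ * ek m 4 U ≤ 1 * ek m 4 U := mul_le_mul_of_nonneg_right hδ1 n4
    linarith

/-- two cells -/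
lemma cell_pair {δ : ℝ} (hδ : 0 < δ) (hδ1 : δ ≤ 1) : ∀ᶠ n : ℕ in atTop, ∀ (S : Set ℕ),
    Tendsto (VS S) atTop atTop → ∀ x y x' y' : ℝ, (n : ℝ) ≤ x → (n : ℝ) ≤ x' → (y ≤ x' ∨ y' ≤ x) →
    ∫ c, ek (fun q => fa e A q c) 2 (win S x y) * ek (fun q => fa e A q c) 2 (win S x' y') ∂muI ≤
      (1 + δ) * (ek m 2 (win S x y) * ek m 2 (win S x' y')) := by
  classical
  obtain ⟨Q, hQ3, hQP, hQ⟩ := tup_rel hD hδ hδ1
  have hm0 := hD.m0
  filter_upwards [win_big Q] with n c1 S hS x y x' y' hx hx' hyx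
  set U := win S x y with hU
  set V := win S x' y' with hV
  have hUQ : ∀ q ∈ U, Q ≤ q := c1 S hS x y hx
  have hVQ : ∀ q ∈ V, Q ≤ q := c1 S hS x' y' hx'
  have hdis : Disjoint U V := by
    rcases hyx with h | h
    · exact win_disj hS h
    · exact (win_disj hS h).symm
  have hprod : ∀ f : ℕ → ℝ, ek f 2 U * ek f 2 V =
      ∑ T ∈ U.powersetCard 2, ∑ T' ∈ V.powersetCard 2, ∏ q ∈ T ∪ T', f q := by
    intro f
    unfold ek
    rw [Finset.sum_mul_sum]
    refine Finset.sum_congr rfl fun T hT => Finset.sum_congr rfl fun T' hT' => ?_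
    rw [Finset.mem_powersetCard] at hT hT'
    rw [Finset.prod_union (Finset.disjoint_of_subset_left hT.1 (Finset.disjoint_of_subset_right hT'.1 hdis))]
  have h1 : ∀ c, ek (fun q => fa e A q c) 2 U * ek (fun q => fa e A q c) 2 V =
      ∑ T ∈ U.powersetCard 2, ∑ T' ∈ V.powersetCard 2, ∏ q ∈ T ∪ T', fa e A q c := fun c => hprod _
  simp only [h1]
  rw [integral_finsetSum _ fun T _ => integrable_finsetSum _ fun T' _ => prod_fa_int e A _, hprod m,
    Finset.mul_sum]
  refine Finset.sum_le_sum fun T hT => ?_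
  rw [integral_finsetSum _ fun T' _ => prod_fa_int e A _, Finset.mul_sum]
  refine Finset.sum_le_sum fun T' hT' => ?_
  rw [Finset.mem_powersetCard] at hT hT'
  have h2 := hQ (T ∪ T') (by
    have := Finset.card_union_le T T'
    omega) (fun p hp => by
    rcases Finset.mem_union.1 hp with h | h
    · exact hUQ p (hT.1 h)
    · exact hVQ p (hT'.1 h))
  have := (abs_le.1 h2).2
  linarith

end

end Pool.Agent.K9h18.EX
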