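import Pool.Agent.K9h18.EX.Sm2

set_option autoImplicit false

/-!
# Small gaps, the divergent case
-/

open Finset Filter Topology MeasureTheory

namespace Pool.Agent.K9h18.EX

open Pool.Agent.TH888.R (wt wt_nonneg wt_le_one VS VS_univ_bound VS_nonneg VS_mono gr gr_small cS)
open Pool.Agent.K9h18.HS (kc kc_pos log_ge_one wt_tendsto win Nx VS_zero VS_step mass_Ioc PtR Ev VS_lt cS_nth)
open Pool.Agent.K9h18.AP

/-- the number of pairs of events in the cells of a block -/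
noncomputable def eX (e A : ℕ → ℕ) (S : Set ℕ) (n : ℕ) (h : ℝ) (c : ℕ → ℝ) : ℝ :=
  ∑ i ∈ range ⌊1 / h⌋₊, ek (fun q => fa e A q c) 2 (win S (n + i * h) (n + i * h + h))

lemma eX_meas (e A : ℕ → ℕ) (S : Set ℕ) (n : ℕ) (h : ℝ) : Measurable (eX e A S n h) := by
  unfold eX ek
  exact Finset.measurable_fun_sum _ fun i _ => Finset.measurable_fun_sum _ fun T _ => prod_fa_meas e A T

lemma eX_nonneg (e A : ℕ → ℕ) (S : Set ℕ) (n : ℕ) (h : ℝ) (c : ℕ → ℝ) : 0 ≤ eX e A S n h c :=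
  Finset.sum_nonneg fun i _ => ek_nonneg (x := fun q => fa e A q c) (fun q _ => fa_nonneg _ _ _ _) 2

lemma eX_bd (e A : ℕ → ℕ) (S : Set ℕ) (n : ℕ) (h : ℝ) (c : ℕ → ℝ) : eX e A S n h c ≤
    ∑ i ∈ range ⌊1 / h⌋₊, (((win S (n + i * h) (n + i * h + h)).powersetCard 2).card : ℝ) := by
  unfold eX ek
  refine Finset.sum_le_sum fun i _ => ?_
  rw [Finset.card_eq_sum_ones, Nat.cast_sum]
  refine Finset.sum_le_sum fun T _ => ?_
  rw [Nat.cast_one]
  exact (prod_fa_01 e A T c).2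

/-- the meaning of `eX` -/
lemma eX_spec {S : Set ℕ} (hS : Tendsto (VS S) atTop atTop) {e A : ℕ → ℕ} {n : ℕ} {h : ℝ} (hh : 0 < h)
    {c : ℕ → ℝ} (hne : eX e A S n h c ≠ 0) : ∃ a b : ℕ, Ev (nn e A c) S a ∧ Ev (nn e A c) S b ∧
      (n : ℝ) < VS S a ∧ VS S a < VS S b ∧ VS S b ≤ n + 1 ∧ VS S b - VS S a < h := by
  classical
  obtain ⟨i, hi, h1⟩ := Finset.exists_ne_zero_of_sum_ne_zero hne
  obtain ⟨T, hT, h2⟩ := Finset.exists_ne_zero_of_sum_ne_zero h1
  rw [Finset.mem_powersetCard] at hT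
  obtain ⟨a, b, hab, rfl⟩ := Finset.card_eq_two.1 hT.2
  rw [Finset.prod_pair hab] at h2
  have hfa : fa e A a c = 1 := by
    rcases fa_01 e A a c with h3 | h3
    · rw [h3, zero_mul] at h2
      exact absurd rfl h2
    · exact h3
  have hfb : fa e A b c = 1 := by
    rcases fa_01 e A b c with h3 | h3
    · rw [h3, mul_zero] at h2
      exact absurd rfl h2
    · exact h3
  have ha := hT.1 (Finset.mem_insert_self a {b})
  have hb := hT.1 (Finset.mem_insert_of_mem (Finset.mem_singleton_self b))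
  rw [mem_win' hS] at ha hb
  rw [mem_range] at hi
  have hi0 : (0 : ℝ) ≤ i * h := by positivity
  have hih : (i : ℝ) * h + h ≤ 1 := by
    have e1 : ((i : ℝ) + 1) ≤ (⌊1 / h⌋₊ : ℝ) := by exact_mod_cast hi
    have e2 : (⌊1 / h⌋₊ : ℝ) ≤ 1 / h := Nat.floor_le (by positivity)
    have e3 : ((i : ℝ) + 1) * h ≤ 1 := by
      rw [← le_div_iff₀ hh]
      linarith
    linarith
  have hEa := Ev_of_fa ha.1 ha.2.1 hfa
  have hEb := Ev_of_fa hb.1 hb.2.1 hfb
  rcases lt_or_gt_of_ne hab with hlt | hlt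
  · exact ⟨a, b, hEa, hEb, by linarith [ha.2.2.1], VS_lt hlt hb.1 hb.2.1, by linarith [hb.2.2.2],
      by linarith [ha.2.2.1, hb.2.2.2]⟩
  · exact ⟨b, a, hEb, hEa, by linarith [hb.2.2.1], VS_lt hlt ha.1 ha.2.1, by linarith [ha.2.2.2],
      by linarith [hb.2.2.1, ha.2.2.2]⟩

section

variable {η : ℝ} {e A : ℕ → ℕ} {m κ : ℕ → ℝ} {P : ℕ} {K : ℝ} (hD : Dat η e A m κ P K)
include hD

/-- **Pairs of close events, divergent case.** -/
theorem pairs_div {S : Set ℕ} (hS : Tendsto (VS S) atTop atTop) {h : ℕ → ℝ}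
    (hh0 : ∀ n, 0 < h n) (hh1 : ∀ᶠ n : ℕ in atTop, 1 / ((n : ℝ) + 1) ^ 2 ≤ h n ∧ h n ≤ 1 / 2)
    (hdiv : ¬ Summable h) : ∀ᵐ c ∂muI, ∃ᶠ n : ℕ in atTop, eX e A S n (h n) c ≠ 0 := by
  classical
  have hm0 := hD.m0
  set U : ℕ → ℕ → Finset ℕ := fun n i => win S (n + i * h n) (n + i * h n + h n) with hU
  set G : ℕ → ℝ := fun n => ∑ i ∈ range ⌊1 / h n⌋₊, ek m 2 (U n i) with hGdef
  have hG0 : ∀ n, 0 ≤ G n := fun n => Finset.sum_nonneg fun i _ => ek_nonneg (fun q _ => hm0 q) 2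
  have hki : ∀ T : Finset ℕ, Integrable (fun c => ek (fun q => fa e A q c) 2 T) muI := fun T => by
    unfold ek
    exact integrable_finsetSum _ fun T _ => prod_fa_int e A T
  have hkb : ∀ (T : Finset ℕ) (c : ℕ → ℝ), 0 ≤ ek (fun q => fa e A q c) 2 T ∧
      ek (fun q => fa e A q c) 2 T ≤ ((T.powersetCard 2).card : ℝ) := fun T c => by
    refine ⟨ek_nonneg (x := fun q => fa e A q c) (fun q _ => fa_nonneg _ _ _ _) 2, ?_⟩
    unfold ek
    rw [Finset.card_eq_sum_ones, Nat.cast_sum]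
    refine Finset.sum_le_sum fun T _ => ?_
    rw [Nat.cast_one]
    exact (prod_fa_01 e A T c).2
  have hkm : ∀ T : Finset ℕ, Measurable (fun c => ek (fun q => fa e A q c) 2 T) := fun T => by
    unfold ek
    exact Finset.measurable_fun_sum _ fun T _ => prod_fa_meas e A T
  have hkk : ∀ T T' : Finset ℕ, Integrable (fun c => ek (fun q => fa e A q c) 2 T *
      ek (fun q => fa e A q c) 2 T') muI := fun T T' =>
    int_bd ((hkm T).mul (hkm T')) (B := ((T.powersetCard 2).card : ℝ) * (T'.powersetCard 2).card) fun c => by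
      rw [abs_of_nonneg (mul_nonneg (hkb T c).1 (hkb T' c).1)]
      exact mul_le_mul (hkb T c).2 (hkb T' c).2 (hkb T' c).1 (Nat.cast_nonneg _)
  -- positions of the cells
  have hpos : ∀ n i : ℕ, i < ⌊1 / h n⌋₊ → (n : ℝ) ≤ n + i * h n ∧ (n : ℝ) + i * h n + h n ≤ n + 1 := by
    intro n i hi
    have hn := hh0 n
    have e0 : (0 : ℝ) ≤ i * h n := by positivity
    have e1 : ((i : ℝ) + 1) ≤ (⌊1 / h n⌋₊ : ℝ) := by exact_mod_cast hi
    have e2 : (⌊1 / h n⌋₊ : ℝ) ≤ 1 / h n := Nat.floor_le (by positivity)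
    have e3 : ((i : ℝ) + 1) * h n ≤ 1 := by
      rw [← le_div_iff₀ hn]
      linarith
    constructor <;> linarith
  -- the sums of the means
  have hGb : ∀ δ : ℝ, 0 < δ → δ ≤ 1 / 2 → ∀ᶠ n : ℕ in atTop, h n / 8 ≤ G n ∧ G n ≤ 4 ∧
      (1 - δ) * G n ≤ ∫ c, eX e A S n (h n) c ∂muI := by
    intro δ hδ hδ1
    filter_upwards [cell_int hD hδ (by linarith), hh1] with n c1 c2
    have hn := hh0 n
    have hci := fun i (hi : i < ⌊1 / h n⌋₊) => c1 S hS (n + i * h n) (h n) (hpos n i hi).1 c2.1 (by linarith [c2.2])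
    have r1 : (⌊1 / h n⌋₊ : ℝ) * h n ≤ 1 := by
      rw [← le_div_iff₀ hn]
      exact Nat.floor_le (by positivity)
    have r2 : 1 / 2 ≤ (⌊1 / h n⌋₊ : ℝ) * h n := by
      have e1 := Nat.lt_floor_add_one (1 / h n)
      have e2 : 1 / h n * h n = 1 := by field_simp
      have e3 : (1 / h n) * h n < ((⌊1 / h n⌋₊ : ℝ) + 1) * h n := mul_lt_mul_of_pos_right e1 hn
      rw [e2] at e3
      linarith [c2.2]
    refine ⟨?_, ?_, ?_⟩
    · have e1 : ∑ i ∈ range ⌊1 / h n⌋₊, h n ^ 2 / 4 ≤ G n :=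
        Finset.sum_le_sum fun i hi => (hci i (mem_range.1 hi)).2.1
      rw [Finset.sum_const, Finset.card_range, nsmul_eq_mul] at e1
      refine le_trans ?_ e1
      have e2 : (⌊1 / h n⌋₊ : ℝ) * (h n ^ 2 / 4) = ((⌊1 / h n⌋₊ : ℝ) * h n) * (h n / 4) := by ring
      rw [e2]
      have e3 : 1 / 2 * (h n / 4) ≤ ((⌊1 / h n⌋₊ : ℝ) * h n) * (h n / 4) :=
        mul_le_mul_of_nonneg_right r2 (by positivity)
      linarith
    · have e1 : G n ≤ ∑ i ∈ range ⌊1 / h n⌋₊, 8 * h n ^ 2 :=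
        Finset.sum_le_sum fun i hi => (hci i (mem_range.1 hi)).2.2.1
      rw [Finset.sum_const, Finset.card_range, nsmul_eq_mul] at e1
      refine e1.trans ?_
      have e2 : (⌊1 / h n⌋₊ : ℝ) * (8 * h n ^ 2) = ((⌊1 / h n⌋₊ : ℝ) * h n) * (8 * h n) := by ring
      rw [e2]
      have e3 : ((⌊1 / h n⌋₊ : ℝ) * h n) * (8 * h n) ≤ 1 * (8 * h n) :=
        mul_le_mul_of_nonneg_right r1 (by positivity)
      linarith [c2.2]
    · unfold eX
      rw [integral_finsetSum _ fun i _ => hki _]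
      simp only [hGdef]
      rw [Finset.mul_sum]
      refine Finset.sum_le_sum fun i hi => ?_
      have := (abs_le.1 ((hci i (mem_range.1 hi)).1 2 (by norm_num))).1
      simp only [hU]
      linarith
  refine bc2 (X := fun n => eX e A S n (h n)) (fun n => eX_meas _ _ _ _ _)
    (fun n c => eX_nonneg _ _ _ _ _ _) (B := fun n => ∑ i ∈ range ⌊1 / h n⌋₊,
      (((win S (n + i * h n) (n + i * h n + h n)).powersetCard 2).card : ℝ)) (fun n c => eX_bd _ _ _ _ _ _)
    (ρ := fun _ => 0) (fun _ => le_rfl) summable_zero (g := fun _ _ => 0) (fun _ _ => le_rfl) (C := 1000)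
    (by norm_num) (fun n F => by simp) ?_ ?_ ?_
  · filter_upwards [hGb (1 / 2) (by norm_num) le_rfl, cell_int hD one_pos le_rfl,
      cell_pair hD one_pos le_rfl, hh1] with n c1 c2 c3 c4
    obtain ⟨g1, g2, g3⟩ := c1
    have e1 : ∀ c, eX e A S n (h n) c ^ 2 = ∑ i ∈ range ⌊1 / h n⌋₊, ∑ j ∈ range ⌊1 / h n⌋₊,
        ek (fun q => fa e A q c) 2 (U n i) * ek (fun q => fa e A q c) 2 (U n j) := by
      intro c
      unfold eX
      rw [sq, Finset.sum_mul_sum]
    simp only [e1]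
    rw [integral_finsetSum _ fun i _ => integrable_finsetSum _ fun j _ => hkk _ _]
    have e2 : ∀ i ∈ range ⌊1 / h n⌋₊, ∫ c, ∑ j ∈ range ⌊1 / h n⌋₊,
        ek (fun q => fa e A q c) 2 (U n i) * ek (fun q => fa e A q c) 2 (U n j) ∂muI ≤
        ∑ j ∈ range ⌊1 / h n⌋₊, (2 * (ek m 2 (U n i) * ek m 2 (U n j)) +
          if j = i then 300 * ek m 2 (U n i) else 0) := by
      intro i hi
      rw [mem_range] at hi
      rw [integral_finsetSum _ fun j _ => hkk _ _]
      refine Finset.sum_le_sum fun j hj => ?_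
      rw [mem_range] at hj
      have n1 : 0 ≤ ek m 2 (U n i) := ek_nonneg (fun q _ => hm0 q) 2
      have n2 : 0 ≤ ek m 2 (U n j) := ek_nonneg (fun q _ => hm0 q) 2
      by_cases hij : j = i
      · subst hij
        rw [if_pos rfl]
        have h1 := (c2 S hS (n + j * h n) (h n) (hpos n j hj).1 c4.1 (by linarith [c4.2])).2.2.2
        have h2 : ∀ c, ek (fun q => fa e A q c) 2 (U n j) * ek (fun q => fa e A q c) 2 (U n j) =
            ek (fun q => fa e A q c) 2 (win S (n + j * h n) (n + j * h n + h n)) ^ 2 := fun c => by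
          rw [sq]
        simp only [h2]
        have h3 : 0 ≤ 2 * (ek m 2 (U n j) * ek m 2 (U n j)) := by positivity
        simp only [hU] at h3 ⊢
        linarith
      · rw [if_neg hij, add_zero]
        have hn := hh0 n
        have h1 := c3 S hS (n + i * h n) (n + i * h n + h n) (n + j * h n) (n + j * h n + h n)
          (hpos n i hi).1 (hpos n j hj).1 (by
          rcases lt_or_gt_of_ne hij with h5 | h5
          · right
            have : (j : ℝ) + 1 ≤ i := by exact_mod_cast h5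
            nlinarith
          · left
            have : (i : ℝ) + 1 ≤ j := by exact_mod_cast h5
            nlinarith)
        simp only [hU]
        linarith
    refine (Finset.sum_le_sum e2).trans ?_
    simp only [Finset.sum_add_distrib]
    have e3 : ∑ i ∈ range ⌊1 / h n⌋₊, ∑ j ∈ range ⌊1 / h n⌋₊, 2 * (ek m 2 (U n i) * ek m 2 (U n j)) =
        2 * G n ^ 2 := by
      simp only [hGdef]
      rw [sq, Finset.sum_mul_sum, Finset.mul_sum]
      refine Finset.sum_congr rfl fun i _ => ?_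
      rw [Finset.mul_sum]
    have e4 : ∑ i ∈ range ⌊1 / h n⌋₊, ∑ j ∈ range ⌊1 / h n⌋₊,
        (if j = i then 300 * ek m 2 (U n i) else 0) = 300 * G n := by
      simp only [hGdef]
      rw [Finset.mul_sum]
      refine Finset.sum_congr rfl fun i hi => ?_
      rw [Finset.sum_ite_eq' (range ⌊1 / h n⌋₊) i (fun _ => 300 * ek m 2 (U n i)), if_pos hi]
    rw [e3, e4]
    have hg := hG0 n
    nlinarith
  · intro ε hε
    set δ := min ε 1 / 8 with hδ
    have hδ0 : 0 < δ := by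
      have : 0 < min ε 1 := lt_min hε one_pos
      positivity
    have hδ1 : δ ≤ 1 / 8 := by
      have : min ε 1 ≤ 1 := min_le_right _ _
      linarith
    have hδε : δ ≤ ε / 8 := by
      have : min ε 1 ≤ ε := min_le_left _ _
      linarith
    obtain ⟨N0, hN0⟩ := eventually_atTop.1 (hGb δ hδ0 (by linarith))
    filter_upwards [cell_pair hD hδ0 (by linarith), eventually_ge_atTop N0] with n c1 hn k hk
    have e1 : ∀ c, eX e A S n (h n) c * eX e A S k (h k) c =
        ∑ i ∈ range ⌊1 / h n⌋₊, ∑ j ∈ range ⌊1 / h k⌋₊,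
        ek (fun q => fa e A q c) 2 (U n i) * ek (fun q => fa e A q c) 2 (U k j) := by
      intro c
      unfold eX
      rw [Finset.sum_mul_sum]
    simp only [e1]
    rw [integral_finsetSum _ fun i _ => integrable_finsetSum _ fun j _ => hkk _ _]
    have e2 : ∀ i ∈ range ⌊1 / h n⌋₊, ∫ c, ∑ j ∈ range ⌊1 / h k⌋₊,
        ek (fun q => fa e A q c) 2 (U n i) * ek (fun q => fa e A q c) 2 (U k j) ∂muI ≤
        ∑ j ∈ range ⌊1 / h k⌋₊, (1 + δ) * (ek m 2 (U n i) * ek m 2 (U k j)) := by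
      intro i hi
      rw [mem_range] at hi
      rw [integral_finsetSum _ fun j _ => hkk _ _]
      refine Finset.sum_le_sum fun j hj => ?_
      rw [mem_range] at hj
      have hnk : (n : ℝ) + 1 ≤ k := by exact_mod_cast hk
      have p1 := hpos n i hi
      have p2 := hpos k j hj
      exact c1 S hS _ _ _ _ p1.1 (by linarith) (Or.inl (by linarith))
    refine (Finset.sum_le_sum e2).trans ?_
    have e3 : ∑ i ∈ range ⌊1 / h n⌋₊, ∑ j ∈ range ⌊1 / h k⌋₊, (1 + δ) * (ek m 2 (U n i) * ek m 2 (U k j)) =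
        (1 + δ) * (G n * G k) := by
      simp only [hGdef]
      rw [Finset.sum_mul_sum, Finset.mul_sum]
      refine Finset.sum_congr rfl fun i _ => ?_
      rw [Finset.mul_sum]
    rw [e3]
    obtain ⟨-, -, a3⟩ := hN0 n hn
    obtain ⟨-, -, b3⟩ := hN0 k (by omega)
    set bn := ∫ c, eX e A S n (h n) c ∂muI with hbn
    set bk := ∫ c, eX e A S k (h k) c ∂muI with hbk
    have hbn0 : 0 ≤ bn := integral_nonneg fun c => eX_nonneg _ _ _ _ _ _
    have hbk0 : 0 ≤ bk := integral_nonneg fun c => eX_nonneg _ _ _ _ _ _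
    have g1 := hG0 n
    have g2 := hG0 k
    have h1 : ((1 - δ) * G n) * ((1 - δ) * G k) ≤ bn * bk :=
      mul_le_mul a3 b3 (mul_nonneg (by linarith) g2) hbn0
    have h2 : (1 + δ) ≤ (1 + ε) * (1 - δ) ^ 2 := by nlinarith [mul_pos hε hδ0]
    have h3 : (1 + δ) * (G n * G k) ≤ (1 + ε) * (1 - δ) ^ 2 * (G n * G k) :=
      mul_le_mul_of_nonneg_right h2 (mul_nonneg g1 g2)
    have h4 : (1 + ε) * (((1 - δ) * G n) * ((1 - δ) * G k)) ≤ (1 + ε) * (bn * bk) :=
      mul_le_mul_of_nonneg_left h1 (by linarith)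
    have h5 : (1 + ε) * (((1 - δ) * G n) * ((1 - δ) * G k)) = (1 + ε) * (1 - δ) ^ 2 * (G n * G k) := by ring
    linarith
  · intro hsum
    apply hdiv
    refine Summable.of_norm_bounded_eventually_nat (hsum.mul_left 16) ?_
    filter_upwards [hGb (1 / 2) (by norm_num) le_rfl] with n c1
    rw [Real.norm_eq_abs, abs_of_pos (hh0 n)]
    linarith [c1.1, c1.2.2]

/-- **Small gaps, divergent case.** -/
theorem small_div {S : Set ℕ} (hS : Tendsto (VS S) atTop atTop) (hG : ∀ᵐ c ∂muI, Good (nn e A c) S)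
    {ψ : ℕ → ℝ} (hψ : Antitone ψ) (hψ0 : ∀ n, 0 ≤ ψ n) (hs : ¬ Summable ψ) :
    ∀ᵐ c ∂muI, ∃ᶠ k : ℕ in atTop,
      xx (nn e A c) S (k + 1) - xx (nn e A c) S k < ψ k := by
  set h : ℕ → ℝ := fun n => max (min (ψ (6 * n + 6)) 1 / 2) (1 / ((n : ℝ) + 1) ^ 2) with hh
  have hh0 : ∀ n, 0 < h n := fun n => lt_of_lt_of_le (by positivity) (le_max_right _ _)
  have hh1 : ∀ᶠ n : ℕ in atTop, 1 / ((n : ℝ) + 1) ^ 2 ≤ h n ∧ h n ≤ 1 / 2 := by
    filter_upwards [eventually_ge_atTop 1] with n hn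
    refine ⟨le_max_right _ _, max_le ?_ ?_⟩
    · have : min (ψ (6 * n + 6)) 1 ≤ 1 := min_le_right _ _
      linarith
    · have : (1 : ℝ) ≤ n := by exact_mod_cast hn
      apply one_div_le_one_div_of_le (by norm_num)
      nlinarith
  have hdiv : ¬ Summable h := by
    intro h1
    set g : ℕ → ℝ := fun k => min (ψ k) 1 with hg
    have hga : Antitone g := fun a b hab => min_le_min (hψ hab) le_rfl
    have hg0 : ∀ n, 0 ≤ g n := fun n => le_min (hψ0 n) zero_le_one
    have hgs : Summable fun n => g (6 * n + 6) := by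
      refine Summable.of_nonneg_of_le (fun n => hg0 _) (fun n => ?_) (h1.mul_left 2)
      have : min (ψ (6 * n + 6)) 1 / 2 ≤ h n := le_max_left _ _
      simp only [hg]
      linarith
    have hgS : Summable g := by
      by_contra hcon
      exact thin_div hga hg0 hcon 6 6 (by norm_num) hgs
    apply hs
    have h2 := hgS.tendsto_atTop_zero.eventually_lt_const (show (0 : ℝ) < 1 by norm_num)
    refine Summable.of_norm_bounded_eventually_nat hgS ?_
    filter_upwards [h2] with n hn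
    rw [Real.norm_eq_abs, abs_of_nonneg (hψ0 n)]
    simp only [hg] at hn ⊢
    rw [min_lt_iff] at hn
    rcases hn with hn | hn
    · rw [min_eq_left hn.le]
    · exact absurd hn (lt_irrefl _)
  have hsq : Summable fun k : ℕ => 36 * (1 / ((k : ℝ) + 1) ^ 2) := by
    apply Summable.mul_left
    have h1 : Summable fun n : ℕ => 1 / ((n + 1 : ℕ) : ℝ) ^ 2 :=
      (summable_nat_add_iff 1).2 (Real.summable_one_div_nat_pow.2 (by norm_num : 1 < 2))
    refine h1.congr fun n => ?_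
    push_cast
    rfl
  have hanti : Antitone fun k : ℕ => 36 * (1 / ((k : ℝ) + 1) ^ 2) := fun a b hab => by
    have : (a : ℝ) ≤ b := by exact_mod_cast hab
    simp only
    gcongr
  filter_upwards [hG, pairs_div hD hS hh0 hh1 hdiv, small_conv hD hS hG hanti hsq] with c hc hfr hconv
  set x := xx (nn e A c) S with hx
  obtain ⟨K1, hK1⟩ := eventually_atTop.1 (hconv.and hc.rate)
  rw [frequently_atTop]
  intro K0
  have h1 := hfr.and_eventually (tendsto_natCast_atTop_atTop.eventually_ge_atTop (x (K0 + K1 + 1)))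
  obtain ⟨n, h2, h3⟩ := h1.exists
  obtain ⟨a, b, hEa, hEb, v1, v2, v3, v4⟩ := eX_spec hS (hh0 n) h2
  obtain ⟨k, hk⟩ := Good.idx hEa
  have hxk : x k = VS S a := by
    simp only [hx, xx, hk]
  have h4 := hc.next (k := k) hEb (by
    change x k < _
    rw [hxk]
    exact v2)
  change x (k + 1) ≤ _ at h4
  have hkK : K0 + K1 + 1 < k := by
    have : x (K0 + K1 + 1) < x k := by
      rw [hxk]
      linarith
    exact hc.mono.lt_iff_lt.1 this
  refine ⟨k, by omega, ?_⟩
  have hgap : x (k + 1) - x k < h n := by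
    rw [hxk]
    linarith
  obtain ⟨h10, h11⟩ := hK1 k (by omega)
  change 36 * (1 / ((k : ℝ) + 1) ^ 2) < x (k + 1) - x k at h10
  change 2 * x k ≤ k ∧ (k : ℝ) ≤ 3 * x k at h11
  have h12 : (k : ℝ) ≤ 3 * (n + 1) := by
    have : x k ≤ n + 1 := by
      rw [hxk]
      linarith
    linarith [h11.2]
  have h13 : k ≤ 6 * n + 6 := by
    have : (k : ℝ) ≤ 6 * n + 6 := by
      have : (0 : ℝ) ≤ n := Nat.cast_nonneg n
      linarith
    exact_mod_cast this
  have h14 := hψ h13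
  rcases le_total (min (ψ (6 * n + 6)) 1 / 2) (1 / ((n : ℝ) + 1) ^ 2) with h15 | h15
  · exfalso
    have h16 : h n = 1 / ((n : ℝ) + 1) ^ 2 := max_eq_right h15
    rw [h16] at hgap
    have h17 : 1 / ((n : ℝ) + 1) ^ 2 ≤ 36 * (1 / ((k : ℝ) + 1) ^ 2) := by
      rw [mul_one_div, div_le_div_iff₀ (by positivity) (by positivity)]
      have h18 : (k : ℝ) + 1 ≤ 6 * (n + 1) := by
        have : (0 : ℝ) ≤ n := Nat.cast_nonneg n
        linarith
      have h19 : ((k : ℝ) + 1) ^ 2 ≤ (6 * ((n : ℝ) + 1)) ^ 2 := pow_le_pow_left₀ (by positivity) h18 2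
      nlinarith
    linarith
  · have h16 : h n = min (ψ (6 * n + 6)) 1 / 2 := max_eq_left h15
    rw [h16] at hgap
    have h17 : min (ψ (6 * n + 6)) 1 ≤ ψ (6 * n + 6) := min_le_left _ _
    have h18 := hψ0 (6 * n + 6)
    linarith

end

end Pool.Agent.K9h18.EX
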