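import Pool.Agent.K9h18.EX.Mdl2

set_option autoImplicit false

/-!
# One event against a function of the other parameters
-/

open Finset Filter Topology MeasureTheory

namespace Pool.Agent.K9h18.EX

open Pool.Agent.TH888.R (wt wt_nonneg wt_le_one)
open Pool.Agent.K9h18.HS (mu1 ind ind_nonneg ind_le_one kc kc_pos)
open Pool.Agent.K9h18.AP

/-- **One step.** -/
theorem one_step2 {η : ℝ} {e A : ℕ → ℕ} {m κ : ℕ → ℝ} {P : ℕ}
    (hwin : ∀ p ≥ P, ∀ y : ℝ, 0 ≤ y → y ≤ 3 / 2 →
      |(∫ t in (0 : ℝ)..(hh η p), FF e A p (y + t)) - hh η p * m p| ≤ hh η p * κ p) :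
    ∀ p ≥ P + 3, ∀ (v : ℕ → ℝ) (k : ℕ), (∀ j, k ≤ j → v j = 0) →
      ∑ j ∈ range k, v j * (1 / (p : ℝ)) ^ j = 1 → hh η p * ∑ j ∈ range k, |v j| ≤ 1 →
      ∀ (Ψ : (ℕ → ℝ) → ℝ) (B ρ : ℝ), Measurable Ψ → (∀ c, 0 ≤ Ψ c ∧ Ψ c ≤ B) →
      (∀ t : ℝ, 0 ≤ t → t ≤ hh η p → ∫ c, |Ψ (sh (fun j => t * v j) c) - Ψ c| ∂muI ≤ ρ) →
      |∫ c, Ψ c * fa e A p c ∂muI - m p * ∫ c, Ψ c ∂muI| ≤
        κ p * ∫ c, Ψ c ∂muI + ρ + 2 * (hh η p * ∑ j ∈ range k, |v j|) * B := by
  intro p hp v k hv hv1 hvh Ψ B ρ hΨ hΨB hρ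
  set h := hh η p with hh'
  have hh0 : 0 < h := hh_pos η p
  have hB0 : 0 ≤ B := (hΨB 0).1.trans (hΨB 0).2
  have hp0 : (0 : ℝ) < p := by exact_mod_cast (by omega : 0 < p)
  have hΨa : ∀ c, |Ψ c| ≤ B := fun c => by rw [abs_of_nonneg (hΨB c).1]; exact (hΨB c).2
  have hΨi : Integrable Ψ muI := int_bd hΨ hΨa
  set I := ∫ c, Ψ c * fa e A p c ∂muI with hI
  set D : ℝ → ℝ := fun t => ∫ c, Ψ c * FF e A p (yy p c + t) ∂muI with hD
  set E := ρ + 2 * (h * ∑ j ∈ range k, |v j|) * B with hE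
  have hprodm : Measurable fun z : (ℕ → ℝ) × ℝ => Ψ z.1 * FF e A p (yy p z.1 + z.2) :=
    (hΨ.comp measurable_fst).mul ((FF_meas e A p).comp (((yy_meas p).comp measurable_fst).add
      measurable_snd))
  have hprodb : ∀ z : (ℕ → ℝ) × ℝ, |Ψ z.1 * FF e A p (yy p z.1 + z.2)| ≤ B := by
    intro z
    rw [abs_mul, abs_of_nonneg (FF_nonneg _ _ _ _)]
    calc |Ψ z.1| * FF e A p (yy p z.1 + z.2) ≤ B * 1 :=
          mul_le_mul (hΨa _) (FF_le_one _ _ _ _) (FF_nonneg _ _ _ _) hB0
      _ = B := mul_one B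
  have hmt : ∀ t : ℝ, Measurable fun c : ℕ → ℝ => Ψ c * FF e A p (yy p c + t) := fun t =>
    hΨ.mul ((FF_meas e A p).comp ((yy_meas p).add_const t))
  -- one shift
  have hDI : ∀ t : ℝ, 0 ≤ t → t ≤ h → |D t - I| ≤ E := by
    intro t ht0 hth
    set w : ℕ → ℝ := fun j => t * v j with hw
    have hwk : ∀ j, k ≤ j → w j = 0 := fun j hj => by simp only [hw, hv j hj, mul_zero]
    have hwl : ∑ j ∈ range k, |w j| = t * ∑ j ∈ range k, |v j| := by
      rw [Finset.mul_sum]
      refine Finset.sum_congr rfl fun j _ => ?_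
      simp only [hw]
      rw [abs_mul, abs_of_nonneg ht0]
    have hl0 : 0 ≤ ∑ j ∈ range k, |v j| := Finset.sum_nonneg fun j _ => abs_nonneg _
    have hwl2 : ∑ j ∈ range k, |w j| ≤ h * ∑ j ∈ range k, |v j| := by
      rw [hwl]
      exact mul_le_mul_of_nonneg_right hth hl0
    have hwj : ∀ j, |w j| ≤ 1 := fun j => (abs_le_l1 hwk j).trans (hwl2.trans hvh)
    have h1 := shift_le (g := fun c => Ψ c * fa e A p c) (hΨ.mul (fa_meas e A p)) (B := B) (fun c => by
      rw [abs_mul, abs_of_nonneg (fa_nonneg _ _ _ _)]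
      calc |Ψ c| * fa e A p c ≤ B * 1 := mul_le_mul (hΨa c) (fa_le_one _ _ _ _) (fa_nonneg _ _ _ _) hB0
        _ = B := mul_one B) hwk
    have h2 : ∫ c, Ψ (sh w c) * fa e A p (sh w c) ∂muI =
        ∫ c, Ψ (sh w c) * FF e A p (yy p c + t) ∂muI := by
      refine integral_congr_ae ?_
      filter_upwards [box_Bx] with c hc
      unfold fa
      have h3 : yy p (sh w c) = yy p c + t := by
        rw [yy_sh (by omega) hc hwk hwj]
        congr 1
        have h4 : ∀ j, w j * (1 / (p : ℝ)) ^ j = t * (v j * (1 / (p : ℝ)) ^ j) := fun j => by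
          simp only [hw]
          ring
        simp only [h4]
        rw [← Finset.mul_sum, hv1, mul_one]
      rw [h3]
    rw [h2] at h1
    have i1 : Integrable (fun c => Ψ (sh w c) * FF e A p (yy p c + t)) muI := by
      refine int_bd ((hΨ.comp (sh_meas w)).mul ((FF_meas e A p).comp ((yy_meas p).add_const t)))
        (B := B) fun c => ?_
      rw [abs_mul, abs_of_nonneg (FF_nonneg _ _ _ _)]
      calc |Ψ (sh w c)| * FF e A p (yy p c + t) ≤ B * 1 :=
            mul_le_mul (hΨa _) (FF_le_one _ _ _ _) (FF_nonneg _ _ _ _) hB0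
        _ = B := mul_one B
    have i2 : Integrable (fun c => Ψ c * FF e A p (yy p c + t)) muI :=
      int_bd (hmt t) (B := B) fun c => hprodb (c, t)
    have h3 : |D t - ∫ c, Ψ (sh w c) * FF e A p (yy p c + t) ∂muI| ≤ ρ := by
      refine le_trans ?_ (hρ t ht0 hth)
      rw [hD, ← integral_sub i2 i1]
      refine (abs_integral_le_integral_abs).trans ?_
      refine integral_mono_of_nonneg (Eventually.of_forall fun c => abs_nonneg _) ?_
        (Eventually.of_forall fun c => ?_)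
      · refine int_bd ((hΨ.comp (sh_meas w)).sub hΨ).norm (B := 2 * B) fun c => ?_
        rw [abs_abs]
        have h4 := abs_sub (Ψ (sh w c)) (Ψ c)
        have h5 := hΨa (sh w c)
        have h6 := hΨa c
        have h7 : |(fun x => ((Ψ ∘ sh w) x - Ψ x)) c| ≤ |Ψ (sh w c)| + |Ψ c| := h4
        linarith
      · simp only
        rw [← sub_mul, abs_mul, abs_of_nonneg (FF_nonneg _ _ _ _), abs_sub_comm]
        calc |Ψ (sh w c) - Ψ c| * FF e A p (yy p c + t) ≤ |Ψ (sh w c) - Ψ c| * 1 :=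
              mul_le_mul_of_nonneg_left (FF_le_one _ _ _ _) (abs_nonneg _)
          _ = _ := mul_one _
    have h4 := abs_sub_le (D t) (∫ c, Ψ (sh w c) * FF e A p (yy p c + t) ∂muI) I
    have h5 : 2 * (∑ j ∈ range k, |w j|) * B ≤ 2 * (h * ∑ j ∈ range k, |v j|) * B := by gcongr
    linarith
  -- the mean over the shifts
  have hDm : Measurable D := by
    have h1 : Measurable fun z : ℝ × (ℕ → ℝ) => Ψ z.2 * FF e A p (yy p z.2 + z.1) :=
      hprodm.comp measurable_swap
    exact (h1.stronglyMeasurable.integral_prod_right (ν := muI)).measurable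
  have hDb : ∀ t, |D t| ≤ B := by
    intro t
    have := norm_integral_le_of_norm_le_const (μ := muI) (f := fun c => Ψ c * FF e A p (yy p c + t))
      (C := B) (Eventually.of_forall fun c => hprodb (c, t))
    simpa using this
  have hDii : IntervalIntegrable D volume 0 h := by
    rw [intervalIntegrable_iff]
    exact Measure.integrableOn_of_bounded (M := B) (by simp) hDm.aestronglyMeasurable
      (Eventually.of_forall hDb)
  have h1 : |(∫ t in (0 : ℝ)..h, D t) - h * I| ≤ h * E := by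
    have h2 : (∫ t in (0 : ℝ)..h, D t) - h * I = ∫ t in (0 : ℝ)..h, (D t - I) := by
      rw [intervalIntegral.integral_sub hDii intervalIntegrable_const, intervalIntegral.integral_const]
      simp
    rw [h2]
    have h3 := intervalIntegral.norm_integral_le_of_norm_le_const (a := 0) (b := h)
      (f := fun t => D t - I) (C := E) (fun t ht => by
        rw [Set.uIoc_of_le hh0.le] at ht
        exact hDI t ht.1.le ht.2)
    rw [sub_zero, abs_of_pos hh0] at h3
    rw [mul_comm h E]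
    exact h3
  -- Fubini
  have h2 : ∫ t in (0 : ℝ)..h, D t = ∫ c, Ψ c * (∫ t in (0 : ℝ)..h, FF e A p (yy p c + t)) ∂muI := by
    rw [intervalIntegral.integral_of_le hh0.le]
    simp only [hD]
    rw [integral_integral_swap]
    · refine integral_congr_ae (Eventually.of_forall fun c => ?_)
      simp only
      rw [intervalIntegral.integral_of_le hh0.le, integral_const_mul]
    · refine Integrable.of_bound (hprodm.comp measurable_swap).aestronglyMeasurable B
        (Eventually.of_forall fun z => hprodb (z.2, z.1))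
  have hFFm : Measurable fun c : ℕ → ℝ => ∫ t in (0 : ℝ)..h, FF e A p (yy p c + t) := by
    have h3 : Measurable fun z : (ℕ → ℝ) × ℝ => FF e A p (yy p z.1 + z.2) :=
      (FF_meas e A p).comp (((yy_meas p).comp measurable_fst).add measurable_snd)
    simp only [intervalIntegral.integral_of_le hh0.le]
    exact (h3.stronglyMeasurable.integral_prod_right (ν := volume.restrict (Set.Ioc 0 h))).measurable
  have hFFb : ∀ c : ℕ → ℝ, |∫ t in (0 : ℝ)..h, FF e A p (yy p c + t)| ≤ h := by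
    intro c
    have h3 := intervalIntegral.norm_integral_le_of_norm_le_const (a := 0) (b := h)
      (f := fun t => FF e A p (yy p c + t)) (C := 1) (fun t _ => by
        rw [Real.norm_of_nonneg (FF_nonneg _ _ _ _)]
        exact FF_le_one _ _ _ _)
    rw [sub_zero, abs_of_pos hh0, one_mul] at h3
    exact h3
  have i3 : Integrable (fun c => Ψ c * (∫ t in (0 : ℝ)..h, FF e A p (yy p c + t))) muI := by
    refine int_bd (hΨ.mul hFFm) (B := B * h) fun c => ?_
    rw [abs_mul]
    exact mul_le_mul (hΨa c) (hFFb c) (abs_nonneg _) hB0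
  have h3 : |∫ c, Ψ c * (∫ t in (0 : ℝ)..h, FF e A p (yy p c + t)) ∂muI -
      h * (m p * ∫ c, Ψ c ∂muI)| ≤ h * (κ p * ∫ c, Ψ c ∂muI) := by
    have e1 : h * (m p * ∫ c, Ψ c ∂muI) = ∫ c, Ψ c * (h * (m p)) ∂muI := by
      rw [integral_mul_const]
      ring
    have e2 : h * (κ p * ∫ c, Ψ c ∂muI) = ∫ c, Ψ c * (h * (κ p)) ∂muI := by
      rw [integral_mul_const]
      ring
    rw [e1, e2, ← integral_sub i3 (hΨi.mul_const _)]
    refine (abs_integral_le_integral_abs).trans ?_
    refine integral_mono_ae ?_ (hΨi.mul_const _) ?_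
    · exact (i3.sub (hΨi.mul_const _)).abs
    · filter_upwards [box_Bx] with c hc
      rw [← mul_sub, abs_mul, abs_of_nonneg (hΨB c).1]
      apply mul_le_mul_of_nonneg_left _ (hΨB c).1
      exact hwin p (by omega) (yy p c) (yy_nonneg (by omega) hc) (yy_le (by omega) hc)
  rw [h2] at h1
  have h4 := abs_sub_le (h * I) (∫ c, Ψ c * (∫ t in (0 : ℝ)..h, FF e A p (yy p c + t)) ∂muI)
    (h * (m p * ∫ c, Ψ c ∂muI))
  rw [abs_sub_comm] at h1
  have h5 : |h * I - h * (m p * ∫ c, Ψ c ∂muI)| ≤ h * (E + κ p * ∫ c, Ψ c ∂muI) := by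
    rw [mul_add]
    linarith
  rw [← mul_sub, abs_mul, abs_of_pos hh0] at h5
  have h6 := le_of_mul_le_mul_left h5 hh0
  linarith

end Pool.Agent.K9h18.EX
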