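import Pool.Agent.K9h18.EX.Stp2

set_option autoImplicit false

/-!
# Tuples of events and products over windows, with a smaller error
-/

open Finset Filter Topology MeasureTheory

namespace Pool.Agent.K9h18.EX

open Pool.Agent.TH888.R (wt wt_nonneg wt_le_one)
open Pool.Agent.K9h18.HS (mu1 ind ind_nonneg ind_le_one kc kc_pos)
open Pool.Agent.K9h18.AP

/-- the one step property with the means `m` and the errors `κ` -/
def OS (η : ℝ) (e A : ℕ → ℕ) (m κ : ℕ → ℝ) (P : ℕ) : Prop :=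
  ∀ p ≥ P, ∀ (v : ℕ → ℝ) (k : ℕ), (∀ j, k ≤ j → v j = 0) →
      ∑ j ∈ range k, v j * (1 / (p : ℝ)) ^ j = 1 → hh η p * ∑ j ∈ range k, |v j| ≤ 1 →
      ∀ (Ψ : (ℕ → ℝ) → ℝ) (B ρ : ℝ), Measurable Ψ → (∀ c, 0 ≤ Ψ c ∧ Ψ c ≤ B) →
      (∀ t : ℝ, 0 ≤ t → t ≤ hh η p → ∫ c, |Ψ (sh (fun j => t * v j) c) - Ψ c| ∂muI ≤ ρ) →
      |∫ c, Ψ c * fa e A p c ∂muI - m p * ∫ c, Ψ c ∂muI| ≤
        κ p * ∫ c, Ψ c ∂muI + ρ + 2 * (hh η p * ∑ j ∈ range k, |v j|) * B

/-- **Tuples.** -/
theorem tup2 {η : ℝ} {e A : ℕ → ℕ} {m κ : ℕ → ℝ} {P1 : ℕ} (hP1 : 2 ≤ P1) (hm0 : ∀ q, 0 ≤ m q)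
    (hκ0 : ∀ q, 0 ≤ κ q) (hst : OS η e A m κ P1) (N : ℕ) :
    ∀ T : Finset ℕ, T.card ≤ N + 1 → (∀ p ∈ T, P1 ≤ p ∧ hh η p * (4 * (p : ℝ) ^ 2) ^ N ≤ 1) →
      ∀ (M B : ℝ) (Φ : (ℕ → ℝ) → ℝ), Ph M B Φ →
      |∫ c, Φ c * ∏ q ∈ T, fa e A q c ∂muI - (∏ q ∈ T, m q) * ∫ c, Φ c ∂muI| ≤
        (∏ q ∈ T, (m q + κ q) - ∏ q ∈ T, m q) * ∫ c, Φ c ∂muI +
          ae (Ea η M B N) (fun q => m q + κ q) T := by
  classical
  intro T
  induction T using Finset.induction_on_max with
  | empty =>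
    intro _ _ M B Φ hΦ
    simp [ae_empty]
  | insert p T hpT ih =>
    intro hcard hP M B Φ hΦ
    have hp : p ∉ T := fun h1 => lt_irrefl _ (hpT p h1)
    rw [Finset.card_insert_of_notMem hp] at hcard
    have ih' := ih (by omega) (fun q hq => hP q (Finset.mem_insert_of_mem hq)) M B Φ hΦ
    obtain ⟨hpP, hpN⟩ := hP p (Finset.mem_insert_self _ _)
    have hp0 : (0 : ℝ) < p := by exact_mod_cast (by omega : 0 < p)
    have hp1 : (1 : ℝ) ≤ p := by exact_mod_cast (by omega : 1 ≤ p)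
    have hqT : ∀ q ∈ T, 2 ≤ q := fun q hq => by
      have := (hP q (Finset.mem_insert_of_mem hq)).1
      omega
    obtain ⟨v, hv1, hv2, hv3, hv4⟩ := dir (p := p) (by omega) T (fun q hq => by
      have := hqT q hq
      omega) hp
    set k := T.card + 1 with hk
    set D := ∑ j ∈ range k, |v j| with hD
    set h := hh η p with hhdef
    have hh0 : 0 < h := hh_pos η p
    have hD0 : 0 ≤ D := Finset.sum_nonneg fun j _ => abs_nonneg _
    have hDN : D ≤ (4 * (p : ℝ) ^ 2) ^ N := by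
      refine hv2.trans ?_
      apply pow_le_pow_right₀ _ (by omega)
      nlinarith
    have hhD : h * D ≤ h * (4 * (p : ℝ) ^ 2) ^ N := mul_le_mul_of_nonneg_left hDN hh0.le
    have hhD1 : h * D ≤ 1 := hhD.trans hpN
    set Ψ : (ℕ → ℝ) → ℝ := fun c => Φ c * ∏ q ∈ T, fa e A q c with hΨ
    have hprod0 : ∀ c, 0 ≤ ∏ q ∈ T, fa e A q c := fun c => Finset.prod_nonneg fun q _ => fa_nonneg _ _ _ _
    have hprod1 : ∀ c, ∏ q ∈ T, fa e A q c ≤ 1 := fun c =>
      Finset.prod_le_one (fun q _ => fa_nonneg _ _ _ _) fun q _ => fa_le_one _ _ _ _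
    have hprodm : Measurable fun c => ∏ q ∈ T, fa e A q c :=
      Finset.measurable_fun_prod _ fun q _ => fa_meas e A q
    have hΨm : Measurable Ψ := hΦ.meas.mul hprodm
    have hΨB : ∀ c, 0 ≤ Ψ c ∧ Ψ c ≤ B := fun c => by
      refine ⟨mul_nonneg (hΦ.nn c) (hprod0 c), ?_⟩
      calc Ψ c ≤ B * 1 := mul_le_mul (hΦ.le c) (hprod1 c) (hprod0 c) hΦ.B0
        _ = B := mul_one B
    have hM0 := hΦ.M0
    have hB0 := hΦ.B0
    have h1 := hst p hpP v k hv1 hv3 hhD1 Ψ B (M * (h * D)) hΨm hΨB (fun t ht0 hth => by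
      set w : ℕ → ℝ := fun j => t * v j with hw
      have hwk : ∀ j, k ≤ j → w j = 0 := fun j hj => by simp only [hw, hv1 j hj, mul_zero]
      have hwl : ∑ j ∈ range k, |w j| = t * D := by
        rw [hD, Finset.mul_sum]
        refine Finset.sum_congr rfl fun j _ => ?_
        simp only [hw]
        rw [abs_mul, abs_of_nonneg ht0]
      have hwl2 : ∑ j ∈ range k, |w j| ≤ h * D := by
        rw [hwl]
        exact mul_le_mul_of_nonneg_right hth hD0
      have hwj : ∀ j, |w j| ≤ 1 := fun j => (abs_le_l1 hwk j).trans (hwl2.trans hhD1)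
      have h2 := hΦ.lip w k hwk (hwl2.trans hhD1)
      refine le_trans ?_ (h2.trans (mul_le_mul_of_nonneg_left hwl2 hM0))
      refine integral_mono_ae ?_ ?_ ?_
      · refine int_bd ((hΨm.comp (sh_meas w)).sub hΨm).norm (B := B) fun c => ?_
        have h3 := hΨB (sh w c)
        have h4 := hΨB c
        rw [abs_abs]
        change |Ψ (sh w c) - Ψ c| ≤ B
        rw [abs_le]
        constructor <;> linarith
      · refine int_bd ((hΦ.meas.comp (sh_meas w)).sub hΦ.meas).norm (B := B) fun c => ?_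
        have h3 := hΦ.nn (sh w c)
        have h4 := hΦ.nn c
        have h5 := hΦ.le (sh w c)
        have h6 := hΦ.le c
        rw [abs_abs]
        change |Φ (sh w c) - Φ c| ≤ B
        rw [abs_le]
        constructor <;> linarith
      · filter_upwards [box_Bx] with c hc
        have h3 : ∀ q ∈ T, fa e A q (sh w c) = fa e A q c := by
          intro q hq
          unfold fa
          rw [yy_sh (hqT q hq) hc hwk hwj]
          have h4 : ∑ j ∈ range k, w j * (1 / (q : ℝ)) ^ j = 0 := by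
            have h5 : ∀ j, w j * (1 / (q : ℝ)) ^ j = t * (v j * (1 / (q : ℝ)) ^ j) := fun j => by
              simp only [hw]
              ring
            simp only [h5]
            rw [← Finset.mul_sum, hv4 q hq, mul_zero]
          rw [h4, add_zero]
        simp only [hΨ]
        rw [Finset.prod_congr rfl h3, ← sub_mul, abs_mul, abs_of_nonneg (hprod0 c)]
        calc |Φ (sh w c) - Φ c| * ∏ q ∈ T, fa e A q c ≤ |Φ (sh w c) - Φ c| * 1 :=
              mul_le_mul_of_nonneg_left (hprod1 c) (abs_nonneg _)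
          _ = _ := mul_one _)
    -- combination
    have hE : M * (h * D) + 2 * (h * D) * B ≤ Ea η M B N p := by
      unfold Ea
      rw [← hhdef]
      calc M * (h * D) + 2 * (h * D) * B = (M + 2 * B) * (h * D) := by ring
        _ ≤ _ := mul_le_mul_of_nonneg_left hhD (by linarith)
    have hint : ∫ c, Φ c * ∏ q ∈ insert p T, fa e A q c ∂muI = ∫ c, Ψ c * fa e A p c ∂muI := by
      congr 1
      ext c
      rw [Finset.prod_insert hp]
      simp only [hΨ]
      ring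
    rw [hint, Finset.prod_insert hp, Finset.prod_insert hp, ae_insert _ _ hpT]
    set I := ∫ c, Φ c ∂muI with hI
    set J := ∫ c, Ψ c ∂muI with hJ
    set Pa := ∏ q ∈ T, m q with hPa
    set Pb := ∏ q ∈ T, (m q + κ q) with hPb
    set F := ae (Ea η M B N) (fun q => m q + κ q) T with hF
    have hI0 : 0 ≤ I := hΦ.I0
    have hap : 0 ≤ m p := hm0 p
    have hJle : J ≤ Pb * I + F := by
      have := (abs_le.1 ih').2
      linarith
    have hKp : 0 ≤ κ p := hκ0 p
    have h2 : |∫ c, Ψ c * fa e A p c ∂muI - m p * Pa * I| ≤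
        |∫ c, Ψ c * fa e A p c ∂muI - m p * J| + m p * |J - Pa * I| := by
      have h3 := abs_sub_le (∫ c, Ψ c * fa e A p c ∂muI) (m p * J) (m p * Pa * I)
      have h4 : m p * J - m p * Pa * I = m p * (J - Pa * I) := by ring
      rw [h4, abs_mul, abs_of_nonneg hap] at h3
      exact h3
    have h3 := mul_le_mul_of_nonneg_left ih' hap
    have h4 := mul_le_mul_of_nonneg_left hJle hKp
    nlinarith

/-- **Products over sets of exponents.** -/
theorem prod_lem2 {η : ℝ} {e A : ℕ → ℕ} {m κ : ℕ → ℝ} {P : ℕ} (hP2 : 2 ≤ P) (hm0 : ∀ q, 0 ≤ m q)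
    (hκ0 : ∀ q, 0 ≤ κ q) (hst : OS η e A m κ P) (N : ℕ) :
    ∀ T : Finset ℕ, (∀ p ∈ T, P ≤ p ∧ hh η p * (4 * (p : ℝ) ^ 2) ^ N ≤ 1 ∧ m p ≤ 1) →
      ∀ y : ℕ → ℝ, (∀ q, 0 ≤ y q ∧ y q ≤ 1) → ∀ (M B : ℝ) (Φ : (ℕ → ℝ) → ℝ), Ph M B Φ →
      |∫ c, Φ c * ∏ q ∈ T, (1 - y q * fa e A q c) ∂muI -
        (∏ q ∈ T, (1 - y q * m q)) * ∫ c, Φ c ∂muI| ≤
        ((∑ q ∈ T, κ q) * Real.exp (∑ q ∈ T, (m q + κ q)) +
          2 * ((1 / 2) ^ (N + 1) * Real.exp (2 * ∑ q ∈ T, (m q + κ q)))) * ∫ c, Φ c ∂muI +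
        (N + 2) * (Real.exp (∑ q ∈ T, (m q + κ q)) * ∑ p ∈ T, (p : ℝ) ^ (N + 1) * Ea η M B N p) := by
  classical
  intro T hT y hy M B Φ hΦ
  have htup := tup2 hP2 hm0 hκ0 hst N
  have hTP : ∀ p ∈ T, P ≤ p := fun p hp => (hT p hp).1
  have hq0 : ∀ q ∈ T, (0 : ℝ) < q := fun q hq => by
    have := hTP q hq
    exact_mod_cast (by omega : 0 < q)
  set I := ∫ c, Φ c ∂muI with hI
  have hI0 : 0 ≤ I := hΦ.I0
  have hM0 := hΦ.M0
  have hB0 := hΦ.B0
  set a : ℕ → ℝ := fun q => m q with ha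
  set b : ℕ → ℝ := fun q => m q + κ q with hb
  have ha0 : ∀ q, 0 ≤ a q := fun q => hm0 q
  have hab : ∀ q ∈ T, a q ≤ b q := fun q _ => by
    have := hκ0 q
    simp only [ha, hb]
    linarith
  have hb0 : ∀ q ∈ T, 0 ≤ b q := fun q hq => (ha0 q).trans (hab q hq)
  have hE0 : ∀ p, 0 ≤ Ea η M B N p := fun p => by
    unfold Ea
    have := hh_pos η p
    positivity
  set x : (ℕ → ℝ) → ℕ → ℝ := fun c q => y q * fa e A q c with hx
  have hx01 : ∀ c q, 0 ≤ x c q ∧ x c q ≤ 1 := fun c q =>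
    ⟨mul_nonneg (hy q).1 (fa_nonneg _ _ _ _), mul_le_one₀ (hy q).2 (fa_nonneg _ _ _ _) (fa_le_one _ _ _ _)⟩
  set X : ℕ → ℝ := fun k => ∫ c, Φ c * ek (x c) k T ∂muI with hX
  set V : ℕ → ℝ := fun k => ∑ S ∈ T.powersetCard k, ae (Ea η M B N) b S with hV
  have hxm : ∀ q, Measurable fun c => x c q := fun q => (fa_meas e A q).const_mul _
  have hekm : ∀ k, Measurable fun c => ek (x c) k T := by
    intro k
    unfold ek
    exact Finset.measurable_fun_sum _ fun S _ => Finset.measurable_fun_prod _ fun q _ => hxm q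
  have hekb : ∀ k c, |ek (x c) k T| ≤ (T.powersetCard k).card := by
    intro k c
    rw [abs_of_nonneg (ek_nonneg (fun q _ => (hx01 c q).1) k)]
    unfold ek
    rw [Finset.card_eq_sum_ones]
    push_cast
    exact Finset.sum_le_sum fun S _ => Finset.prod_le_one (fun q _ => (hx01 c q).1) fun q _ => (hx01 c q).2
  have hΦa : ∀ c, |Φ c| ≤ B := fun c => by rw [abs_of_nonneg (hΦ.nn c)]; exact hΦ.le c
  have hXi : ∀ k, Integrable (fun c => Φ c * ek (x c) k T) muI := fun k =>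
    int_bd (hΦ.meas.mul (hekm k)) (B := B * (T.powersetCard k).card) fun c => by
      rw [abs_mul]
      exact mul_le_mul (hΦa c) (hekb k c) (abs_nonneg _) hB0
  -- one elementary symmetric function
  have hXk : ∀ k ≤ N + 1, |X k - ek (fun q => y q * a q) k T * I| ≤
      (ek b k T - ek a k T) * I + V k := by
    intro k hk
    have e1 : X k = ∑ S ∈ T.powersetCard k, (∏ q ∈ S, y q) * ∫ c, Φ c * ∏ q ∈ S, fa e A q c ∂muI := by
      simp only [hX]
      have h1 : ∀ c, Φ c * ek (x c) k T = ∑ S ∈ T.powersetCard k,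
          (∏ q ∈ S, y q) * (Φ c * ∏ q ∈ S, fa e A q c) := by
        intro c
        unfold ek
        rw [Finset.mul_sum]
        refine Finset.sum_congr rfl fun S _ => ?_
        simp only [hx]
        rw [Finset.prod_mul_distrib]
        ring
      simp only [h1]
      rw [integral_finsetSum]
      · refine Finset.sum_congr rfl fun S _ => integral_const_mul _ _
      · intro S _
        refine (int_bd (hΦ.meas.mul (Finset.measurable_fun_prod _ fun q _ => fa_meas e A q))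
          (B := B) fun c => ?_).const_mul _
        change |Φ c * ∏ q ∈ S, fa e A q c| ≤ B
        rw [abs_mul, abs_of_nonneg (Finset.prod_nonneg fun q _ => fa_nonneg _ _ _ _)]
        calc |Φ c| * ∏ q ∈ S, fa e A q c ≤ B * 1 := mul_le_mul (hΦa c)
              (Finset.prod_le_one (fun q _ => fa_nonneg _ _ _ _) fun q _ => fa_le_one _ _ _ _)
              (Finset.prod_nonneg fun q _ => fa_nonneg _ _ _ _) hB0
          _ = B := mul_one B
    have e2 : ek (fun q => y q * a q) k T * I = ∑ S ∈ T.powersetCard k,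
        (∏ q ∈ S, y q) * ((∏ q ∈ S, a q) * I) := by
      unfold ek
      rw [Finset.sum_mul]
      refine Finset.sum_congr rfl fun S _ => ?_
      rw [Finset.prod_mul_distrib]
      ring
    have e3 : (ek b k T - ek a k T) * I + V k = ∑ S ∈ T.powersetCard k,
        ((∏ q ∈ S, b q - ∏ q ∈ S, a q) * I + ae (Ea η M B N) b S) := by
      unfold ek
      simp only [hV]
      rw [Finset.sum_add_distrib, ← Finset.sum_sub_distrib, ← Finset.sum_mul]
    rw [e1, e2, e3, ← Finset.sum_sub_distrib]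
    refine (Finset.abs_sum_le_sum_abs _ _).trans (Finset.sum_le_sum fun S hS => ?_)
    rw [Finset.mem_powersetCard] at hS
    have h1 := htup S (by omega) (fun p hp => ⟨(hT p (hS.1 hp)).1, (hT p (hS.1 hp)).2.1⟩) M B Φ hΦ
    have hy0 : 0 ≤ ∏ q ∈ S, y q := Finset.prod_nonneg fun q _ => (hy q).1
    have hy1 : ∏ q ∈ S, y q ≤ 1 := Finset.prod_le_one (fun q _ => (hy q).1) fun q _ => (hy q).2
    rw [← mul_sub, abs_mul, abs_of_nonneg hy0]
    calc (∏ q ∈ S, y q) * |∫ c, Φ c * ∏ q ∈ S, fa e A q c ∂muI - (∏ q ∈ S, a q) * I| ≤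
          1 * |∫ c, Φ c * ∏ q ∈ S, fa e A q c ∂muI - (∏ q ∈ S, a q) * I| :=
          mul_le_mul_of_nonneg_right hy1 (abs_nonneg _)
      _ ≤ _ := by rw [one_mul]; exact h1
  -- the alternating sums
  set G : (ℕ → ℝ) → ℝ := fun c => ∏ q ∈ T, (1 - y q * fa e A q c) with hG
  have hGm : Measurable G := Finset.measurable_fun_prod _ fun q _ => (hxm q).const_sub 1
  have hG01 : ∀ c, 0 ≤ G c ∧ G c ≤ 1 := fun c =>
    ⟨Finset.prod_nonneg fun q _ => sub_nonneg.2 (hx01 c q).2,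
      Finset.prod_le_one (fun q _ => sub_nonneg.2 (hx01 c q).2) fun q _ => by
        have := (hx01 c q).1
        simp only [hx] at this
        linarith⟩
  have hGi : Integrable (fun c => Φ c * G c) muI := int_bd (hΦ.meas.mul hGm) (B := B) fun c => by
    rw [abs_mul, abs_of_nonneg (hG01 c).1]
    calc |Φ c| * G c ≤ B * 1 := mul_le_mul (hΦa c) (hG01 c).2 (hG01 c).1 hB0
      _ = B := mul_one B
  have hasum : ∫ c, Φ c * as (x c) (N + 1) T ∂muI = ∑ k ∈ range (N + 1), (-1) ^ k * X k := by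
    have h1 : ∀ c, Φ c * as (x c) (N + 1) T = ∑ k ∈ range (N + 1), (-1) ^ k * (Φ c * ek (x c) k T) := by
      intro c
      unfold as
      rw [Finset.mul_sum]
      refine Finset.sum_congr rfl fun k _ => by ring
    simp only [h1]
    rw [integral_finsetSum _ fun k _ => (hXi k).const_mul _]
    refine Finset.sum_congr rfl fun k _ => integral_const_mul _ _
  have hasi : Integrable (fun c => Φ c * as (x c) (N + 1) T) muI := by
    have h1 : (fun c => Φ c * as (x c) (N + 1) T) =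
        fun c => ∑ k ∈ range (N + 1), (-1) ^ k * (Φ c * ek (x c) k T) := by
      ext c
      unfold as
      rw [Finset.mul_sum]
      refine Finset.sum_congr rfl fun k _ => by ring
    rw [h1]
    exact integrable_finsetSum _ fun k _ => (hXi k).const_mul _
  have h1 : |∫ c, Φ c * G c ∂muI - ∑ k ∈ range (N + 1), (-1) ^ k * X k| ≤ X (N + 1) := by
    rw [← hasum, ← integral_sub hGi hasi]
    refine (abs_integral_le_integral_abs).trans ?_
    refine integral_mono (hGi.sub hasi).abs (hXi (N + 1)) fun c => ?_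
    simp only
    rw [← mul_sub, abs_mul, abs_of_nonneg (hΦ.nn c)]
    exact mul_le_mul_of_nonneg_left (bonf_abs T (fun q _ => hx01 c q) (N + 1)) (hΦ.nn c)
  have hya : ∀ q ∈ T, 0 ≤ y q * a q ∧ y q * a q ≤ 1 := fun q hq =>
    ⟨mul_nonneg (hy q).1 (ha0 q), mul_le_one₀ (hy q).2 (ha0 q) (hT q hq).2.2⟩
  set ya : ℕ → ℝ := fun q => y q * a q with hyadef
  have h2 := bonf_abs T hya (N + 1)
  have h3 : |∑ k ∈ range (N + 1), (-1) ^ k * X k - as ya (N + 1) T * I| ≤
      ∑ k ∈ range (N + 1), ((ek b k T - ek a k T) * I + V k) := by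
    unfold as
    rw [Finset.sum_mul, ← Finset.sum_sub_distrib]
    refine (Finset.abs_sum_le_sum_abs _ _).trans (Finset.sum_le_sum fun k hk => ?_)
    rw [Finset.mem_range] at hk
    have h4 : (-1) ^ k * X k - (-1) ^ k * ek ya k T * I = (-1) ^ k * (X k - ek ya k T * I) := by ring
    rw [h4, abs_mul, abs_pow, abs_neg, abs_one, one_pow, one_mul]
    exact hXk k (by omega)
  have h4 := (abs_le.1 (hXk (N + 1) le_rfl)).2
  -- total
  have h5 : |∫ c, Φ c * G c ∂muI - (∏ q ∈ T, (1 - ya q)) * I| ≤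
      |∫ c, Φ c * G c ∂muI - ∑ k ∈ range (N + 1), (-1) ^ k * X k| +
      |∑ k ∈ range (N + 1), (-1) ^ k * X k - as ya (N + 1) T * I| +
      |∏ q ∈ T, (1 - ya q) - as ya (N + 1) T| * I := by
    have h6 : ∫ c, Φ c * G c ∂muI - (∏ q ∈ T, (1 - ya q)) * I =
        (∫ c, Φ c * G c ∂muI - ∑ k ∈ range (N + 1), (-1) ^ k * X k) +
        (∑ k ∈ range (N + 1), (-1) ^ k * X k - as ya (N + 1) T * I) +
        -((∏ q ∈ T, (1 - ya q) - as ya (N + 1) T) * I) := by ring
    rw [h6]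
    refine (abs_add_three _ _ _).trans ?_
    rw [abs_neg, abs_mul (∏ q ∈ T, (1 - ya q) - as ya (N + 1) T) I, abs_of_nonneg hI0]
  have h6 : ek ya (N + 1) T ≤ (1 / 2) ^ (N + 1) * Real.exp (2 * ∑ q ∈ T, b q) := by
    have h7 := ek_tail (x := ya) (T := T) (fun q hq => (hya q hq).1) (N + 1)
    have h8 : ∑ q ∈ T, ya q ≤ ∑ q ∈ T, b q := Finset.sum_le_sum fun q hq => by
      have h9 : ya q ≤ 1 * a q := mul_le_mul_of_nonneg_right (hy q).2 (ha0 q)
      have := hab q hq
      linarith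
    have h9 : Real.exp (2 * ∑ q ∈ T, ya q) ≤ Real.exp (2 * ∑ q ∈ T, b q) :=
      Real.exp_le_exp.2 (by linarith)
    have h10 : ek ya (N + 1) T = (1 / 2) ^ (N + 1) * (2 ^ (N + 1) * ek ya (N + 1) T) := by
      rw [← mul_assoc, ← mul_pow]
      norm_num
    rw [h10]
    exact mul_le_mul_of_nonneg_left (h7.trans h9) (by positivity)
  have h7 := ek_diff (a := a) (b := b) T (fun q _ => ha0 q) hab (N + 2)
  have h8 : ∑ q ∈ T, (b q - a q) = ∑ q ∈ T, κ q := Finset.sum_congr rfl fun q _ => by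
    simp only [ha, hb]
    ring
  rw [h8] at h7
  have h9 : ∑ k ∈ range (N + 2), V k ≤ (N + 2) * (Real.exp (∑ q ∈ T, b q) *
      ∑ p ∈ T, (p : ℝ) ^ (N + 1) * Ea η M B N p) := by
    have h10 : ∀ k ∈ range (N + 2), V k ≤ Real.exp (∑ q ∈ T, b q) *
        ∑ p ∈ T, (p : ℝ) ^ (N + 1) * Ea η M B N p := by
      intro k hk
      rw [Finset.mem_range] at hk
      refine (ae_sum T (fun p hp => by have := hTP p hp; omega) (fun p _ => hE0 p) hb0 k).trans ?_
      apply mul_le_mul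
      · rw [Real.exp_sum]
        exact Finset.prod_le_prod (fun q hq => by have := hb0 q hq; linarith) fun q _ => by
          have := Real.add_one_le_exp (b q)
          linarith
      · refine Finset.sum_le_sum fun p hp => ?_
        apply mul_le_mul_of_nonneg_right _ (hE0 p)
        have := hTP p hp
        exact pow_le_pow_right₀ (by exact_mod_cast (by omega : 1 ≤ p)) (by omega)
      · exact Finset.sum_nonneg fun p _ => mul_nonneg (by positivity) (hE0 p)
      · exact (Real.exp_pos _).le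
    refine (Finset.sum_le_sum h10).trans ?_
    rw [Finset.sum_const, Finset.card_range, nsmul_eq_mul]
    push_cast
    exact le_rfl
  have h10 : ∑ k ∈ range (N + 1), ((ek b k T - ek a k T) * I + V k) +
      ((ek b (N + 1) T - ek a (N + 1) T) * I + V (N + 1)) =
      (∑ k ∈ range (N + 2), (ek b k T - ek a k T)) * I + ∑ k ∈ range (N + 2), V k := by
    rw [← Finset.sum_range_succ (fun k => (ek b k T - ek a k T) * I + V k), Finset.sum_add_distrib,
      ← Finset.sum_mul]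
  have h11 := mul_le_mul_of_nonneg_right h7 hI0
  have h12 := mul_le_mul_of_nonneg_right h2 hI0
  have h13 := mul_le_mul_of_nonneg_right h6 hI0
  have h14 : ∏ q ∈ T, (1 - y q * (m q)) = ∏ q ∈ T, (1 - ya q) := rfl
  rw [h14]
  refine h5.trans ?_
  have h15 : ((∑ q ∈ T, κ q) * Real.exp (∑ q ∈ T, b q) +
      2 * ((1 / 2) ^ (N + 1) * Real.exp (2 * ∑ q ∈ T, b q))) * I =
      (∑ q ∈ T, κ q) * Real.exp (∑ q ∈ T, b q) * I +
      2 * ((1 / 2) ^ (N + 1) * Real.exp (2 * ∑ q ∈ T, b q) * I) := by ring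
  rw [h15]
  linarith

end Pool.Agent.K9h18.EX
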