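import Pool.Agent.K9h18.EX.Prm

set_option autoImplicit false

/-!
# The probability that sets of exponents are free of events
-/

open Finset Filter Topology MeasureTheory

namespace Pool.Agent.K9h18.EX

open Pool.Agent.TH888.R (wt wt_nonneg wt_le_one VS VS_univ_bound VS_nonneg VS_mono)
open Pool.Agent.K9h18.HS (kc kc_pos log_ge_one wt_tendsto)
open Pool.Agent.K9h18.AP

lemma decay (η : ℝ) (hη : 0 < η) : ∃ P : ℕ, ∀ q ≥ P, ∀ N : ℕ, (N : ℝ) ≤ Real.log q →
    Real.exp (η / 4 * q) * (hh η q * (4 * (q : ℝ) ^ 2) ^ N * (q : ℝ) ^ (N + 1)) * (q : ℝ) ^ 8 ≤ 1 := by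
  have hl : 0 < Real.log 2 := Real.log_pos (by norm_num)
  have hl2 : 0.69 < Real.log 2 := by linarith [Real.log_two_gt_d9]
  have h1 := (Real.isLittleO_pow_log_id_atTop (n := 2)).bound
    (show (0 : ℝ) < η / 40 by positivity)
  have h2 := (Real.isLittleO_log_id_atTop).bound (show (0 : ℝ) < η / 80 by positivity)
  have h3 : ∀ᶠ x : ℝ in atTop, 4 * Real.log x ^ 2 + 12 * Real.log x + 1 ≤ (Real.log 2 - 1 / 4) * η * x := by
    filter_upwards [h1, h2, eventually_ge_atTop 1, eventually_ge_atTop (10 / η)] with x a1 a2 a3 a4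
    have hlx : 0 ≤ Real.log x := Real.log_nonneg a3
    rw [Real.norm_of_nonneg (by positivity), id, Real.norm_of_nonneg (by linarith)] at a1 a2
    rw [div_le_iff₀ (by positivity)] at a4
    have h5 : (0.44 : ℝ) * (η * x) ≤ (Real.log 2 - 1 / 4) * (η * x) := by
      apply mul_le_mul_of_nonneg_right _ (by positivity)
      linarith
    nlinarith
  obtain ⟨P, hP⟩ := (tendsto_natCast_atTop_atTop.eventually h3).exists_forall_of_atTop
  refine ⟨P + 3, fun q hq N hN => ?_⟩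
  have h4 := hP q (by omega)
  have hq0 : (0 : ℝ) < q := by exact_mod_cast (by omega : 0 < q)
  have hq3 : (3 : ℝ) ≤ q := by exact_mod_cast (by omega : 3 ≤ q)
  set l := Real.log q with hl'
  have hl1 : 1 ≤ l := log_ge_one (by omega)
  have e1 : ∀ n : ℕ, (q : ℝ) ^ n = Real.exp (n * l) := fun n => by
    rw [Real.exp_nat_mul, hl', Real.exp_log hq0]
  have e2 : (4 * (q : ℝ) ^ 2) ^ N ≤ Real.exp (N * (2 + 2 * l)) := by
    rw [Real.exp_nat_mul]
    apply pow_le_pow_left₀ (by positivity)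
    rw [Real.exp_add, e1 2]
    have h5 : (4 : ℝ) ≤ Real.exp 2 := by
      have h6 : Real.exp 2 = Real.exp 1 * Real.exp 1 := by rw [← Real.exp_add]; norm_num
      rw [h6]
      nlinarith [Real.exp_one_gt_d9]
    push_cast
    exact mul_le_mul_of_nonneg_right h5 (Real.exp_pos _).le
  have e3 : hh η q ≤ Real.exp (1 - Real.log 2 * η * q) := by
    refine (hh_le η q).trans ?_
    rw [Real.exp_sub, Real.exp_neg, ← div_eq_mul_inv]
    apply div_le_div_of_nonneg_right _ (Real.exp_pos _).le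
    linarith [Real.exp_one_gt_d9]
  calc Real.exp (η / 4 * q) * (hh η q * (4 * (q : ℝ) ^ 2) ^ N * (q : ℝ) ^ (N + 1)) * (q : ℝ) ^ 8 ≤
        Real.exp (η / 4 * q) * (Real.exp (1 - Real.log 2 * η * q) * Real.exp (N * (2 + 2 * l)) *
          Real.exp ((N + 1 : ℕ) * l)) * Real.exp ((8 : ℕ) * l) := by
        rw [← e1, ← e1]
        have := hh_pos η q
        gcongr
    _ = Real.exp (η / 4 * q + (1 - Real.log 2 * η * q + N * (2 + 2 * l) + (N + 1 : ℕ) * l) +
          (8 : ℕ) * l) := by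
        rw [← Real.exp_add, ← Real.exp_add, ← Real.exp_add, ← Real.exp_add]
    _ ≤ 1 := by
        rw [Real.exp_le_one_iff]
        push_cast
        have h5 : (N : ℝ) * (2 + 2 * l) ≤ l * (2 + 2 * l) := mul_le_mul_of_nonneg_right hN (by linarith)
        have h6 : ((N : ℝ) + 1) * l ≤ (l + 1) * l := mul_le_mul_of_nonneg_right (by linarith) (by linarith)
        nlinarith

lemma ph_one : Ph 0 1 (fun _ : ℕ → ℝ => (1 : ℝ)) :=
  ⟨measurable_const, fun _ => zero_le_one, fun _ => le_rfl, fun v k _ _ => by simp⟩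

lemma poly_exp (C s : ℝ) : ∀ᶠ a : ℝ in atTop, C * a ^ s ≤ Real.exp (a / 20) := by
  have h1 := tendsto_rpow_mul_exp_neg_mul_atTop_nhds_zero s (1 / 20) (by norm_num)
  have h2 := h1.const_mul C
  rw [mul_zero] at h2
  filter_upwards [h2.eventually_le_const (show (0 : ℝ) < 1 by norm_num)] with a ha
  have h3 : Real.exp (-(1 / 20) * a) = (Real.exp (a / 20))⁻¹ := by
    rw [← Real.exp_neg]
    congr 1
    ring
  rw [h3] at ha
  have h4 := Real.exp_pos (a / 20)
  have h5 : C * (a ^ s * (Real.exp (a / 20))⁻¹) = C * a ^ s / Real.exp (a / 20) := by ring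
  rw [h5, div_le_one h4] at ha
  exact ha

/-- the event that there is no event in `T` -/
noncomputable def vd (e A : ℕ → ℕ) (T : Finset ℕ) (c : ℕ → ℝ) : ℝ := ∏ q ∈ T, (1 - fa e A q c)

lemma vd_meas (e A : ℕ → ℕ) (T : Finset ℕ) : Measurable (vd e A T) :=
  Finset.measurable_fun_prod _ fun q _ => (fa_meas e A q).const_sub 1

lemma vd_01 (e A : ℕ → ℕ) (T : Finset ℕ) (c : ℕ → ℝ) : vd e A T c = 0 ∨ vd e A T c = 1 := by
  classical
  induction T using Finset.induction_on with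
  | empty =>
    right
    simp [vd]
  | insert a T ha ih =>
    have h1 : vd e A (insert a T) c = (1 - fa e A a c) * vd e A T c := by
      unfold vd
      rw [Finset.prod_insert ha]
    rw [h1]
    rcases fa_01 e A a c with h | h <;> rcases ih with h2 | h2 <;> rw [h, h2] <;> norm_num

lemma vd_nonneg (e A : ℕ → ℕ) (T : Finset ℕ) (c : ℕ → ℝ) : 0 ≤ vd e A T c := by
  rcases vd_01 e A T c with h | h <;> rw [h]
  exact zero_le_one

lemma vd_le_one (e A : ℕ → ℕ) (T : Finset ℕ) (c : ℕ → ℝ) : vd e A T c ≤ 1 := by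
  rcases vd_01 e A T c with h | h <;> rw [h]
  exact zero_le_one

lemma vd_one_iff (e A : ℕ → ℕ) (T : Finset ℕ) (c : ℕ → ℝ) :
    vd e A T c = 1 ↔ ∀ q ∈ T, fa e A q c = 0 := by
  constructor
  · intro h q hq
    rcases fa_01 e A q c with h1 | h1
    · exact h1
    · exfalso
      have h2 : vd e A T c = 0 := by
        unfold vd
        exact Finset.prod_eq_zero hq (by rw [h1, sub_self])
      rw [h2] at h
      exact zero_ne_one h
  · intro h
    unfold vd
    exact Finset.prod_eq_one fun q hq => by rw [h q hq, sub_zero]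

lemma vd_int (e A : ℕ → ℕ) (T : Finset ℕ) : Integrable (vd e A T) muI :=
  int_bd (vd_meas e A T) (B := 1) fun c => by
    rw [abs_of_nonneg (vd_nonneg _ _ _ _)]
    exact vd_le_one _ _ _ _

/-- **The probability of the absence of events.** -/
theorem void_gen {η : ℝ} {e A : ℕ → ℕ} {m κ : ℕ → ℝ} {P : ℕ} {K : ℝ} (hD : Dat η e A m κ P K)
    {C : ℝ} (hC : 0 < C) : ∀ᶠ a : ℝ in atTop, ∀ T : Finset ℕ, (∀ p ∈ T, Real.exp a ≤ p) →
      ∑ p ∈ T, wt p ≤ C * Real.log a → ∀ (M : ℝ) (Φ : (ℕ → ℝ) → ℝ), Ph M 1 Φ →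
      (∀ p ∈ T, M ≤ Real.exp (η / 4 * p)) →
      |∫ c, Φ c * vd e A T c ∂muI - (∏ q ∈ T, (1 - m q)) * ∫ c, Φ c ∂muI| ≤ Real.exp (-(a / 2)) := by
  obtain ⟨Pd, hdec⟩ := decay η hD.η0
  have hK := hD.K0
  filter_upwards [eventually_ge_atTop 2, eventually_ge_atTop (Real.log (P + Pd + 3 : ℕ)),
    poly_exp (3 * (9 * (K * C + 2 * C + 2))) (2 * K * C + 2)] with a ha2 haP hpol T hT hTw
    M Φ hΦ hMΦ
  have hη := hD.η0
  have hI0 : 0 ≤ ∫ c, Φ c ∂muI := hΦ.I0
  have hI1 : ∫ c, Φ c ∂muI ≤ 1 := by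
    have h1 := integral_mono hΦ.int (integrable_const 1) (fun c => hΦ.le c)
    simpa using h1
  have hM0 := hΦ.M0
  have ha0 : 0 < a := by linarith
  set N := ⌊a⌋₊ with hN
  have hNa : (N : ℝ) ≤ a := Nat.floor_le ha0.le
  have hNa2 : a < N + 1 := Nat.lt_floor_add_one a
  have hPex : ((P + Pd + 3 : ℕ) : ℝ) ≤ Real.exp a := by
    rw [← Real.log_le_iff_le_exp (by positivity)]
    exact haP
  have hTP : ∀ p ∈ T, P + Pd + 3 ≤ p := fun p hp => by
    exact_mod_cast hPex.trans (hT p hp)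
  have hlog : ∀ p ∈ T, a ≤ Real.log p := fun p hp => by
    have h1 := hTP p hp
    rw [Real.le_log_iff_exp_le (by exact_mod_cast (by omega : 0 < p))]
    exact hT p hp
  have hwt0 := wt_nonneg
  have hdecT : ∀ p ∈ T, Real.exp (η / 4 * p) *
      (hh η p * (4 * (p : ℝ) ^ 2) ^ N * (p : ℝ) ^ (N + 1)) * (p : ℝ) ^ 8 ≤ 1 :=
    fun p hp => hdec p (by have := hTP p hp; omega) N (hNa.trans (hlog p hp))
  have hex1 : ∀ p : ℕ, 1 ≤ Real.exp (η / 4 * p) := fun p => Real.one_le_exp (by positivity)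
  have hcond : ∀ p ∈ T, P ≤ p ∧ hh η p * (4 * (p : ℝ) ^ 2) ^ N ≤ 1 ∧ m p ≤ 1 := by
    intro p hp
    have h1 := hTP p hp
    refine ⟨by omega, ?_, (hD.mh p (by omega)).trans (by norm_num)⟩
    have hp1 : (1 : ℝ) ≤ p := by exact_mod_cast (by omega : 1 ≤ p)
    have h2 := hdecT p hp
    have h3 : 0 ≤ hh η p * (4 * (p : ℝ) ^ 2) ^ N := mul_nonneg (hh_pos η p).le (by positivity)
    have h4 : (1 : ℝ) ≤ Real.exp (η / 4 * p) * ((p : ℝ) ^ (N + 1) * (p : ℝ) ^ 8) :=
      one_le_mul_of_one_le_of_one_le (hex1 p)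
        (one_le_mul_of_one_le_of_one_le (one_le_pow₀ hp1) (one_le_pow₀ hp1))
    calc hh η p * (4 * (p : ℝ) ^ 2) ^ N ≤ hh η p * (4 * (p : ℝ) ^ 2) ^ N *
          (Real.exp (η / 4 * p) * ((p : ℝ) ^ (N + 1) * (p : ℝ) ^ 8)) :=
          le_mul_of_one_le_right h3 h4
      _ = Real.exp (η / 4 * p) * (hh η p * (4 * (p : ℝ) ^ 2) ^ N * (p : ℝ) ^ (N + 1)) * (p : ℝ) ^ 8 := by ring
      _ ≤ 1 := h2
  have h1 := prod_lem2 (by have := hD.P3; omega) hD.m0 hD.κ0 hD.os N T hcond (fun _ => 1)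
    (fun _ => ⟨zero_le_one, le_rfl⟩) M 1 Φ hΦ
  simp only [one_mul] at h1
  change |∫ c, Φ c * vd e A T c ∂muI - (∏ q ∈ T, (1 - m q)) * ∫ c, Φ c ∂muI| ≤ _ at h1
  refine h1.trans ?_
  have hmulI : ∀ x : ℝ, 0 ≤ x → x * ∫ c, Φ c ∂muI ≤ x := fun x hx => mul_le_of_le_one_right hx hI1
  set l := Real.log a with hl
  have hl0 : 0 ≤ l := Real.log_nonneg (by linarith)
  have hla : l ≤ a := (Real.log_le_sub_one_of_pos ha0).trans (by linarith)
  have hexa := Real.exp_pos a
  have hea : Real.exp (-a) = 1 / Real.exp a := by rw [Real.exp_neg, one_div]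
  have hb : ∑ q ∈ T, (m q + κ q) ≤ K * C * l := by
    calc ∑ q ∈ T, (m q + κ q) ≤ ∑ q ∈ T, K * wt q :=
          Finset.sum_le_sum fun q hq => hD.mw q (by have := hTP q hq; omega)
      _ = K * ∑ q ∈ T, wt q := by rw [Finset.mul_sum]
      _ ≤ K * (C * l) := mul_le_mul_of_nonneg_left hTw hK.le
      _ = _ := by ring
  have hinv : ∀ q ∈ T, 1 / (q : ℝ) ≤ Real.exp (-a) := fun q hq => by
    rw [hea]
    exact one_div_le_one_div_of_le hexa (hT q hq)
  have hk : ∑ q ∈ T, κ q ≤ K * C * l * Real.exp (-a) := by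
    calc ∑ q ∈ T, κ q ≤ ∑ q ∈ T, K * (wt q * Real.exp (-a)) := by
          refine Finset.sum_le_sum fun q hq => (hD.κe q (by have := hTP q hq; omega)).trans ?_
          apply mul_le_mul_of_nonneg_left _ hK.le
          rw [div_eq_mul_one_div]
          exact mul_le_mul_of_nonneg_left (hinv q hq) (hwt0 q)
      _ = K * Real.exp (-a) * ∑ q ∈ T, wt q := by
          rw [Finset.mul_sum]
          refine Finset.sum_congr rfl fun q _ => by ring
      _ ≤ K * Real.exp (-a) * (C * l) := mul_le_mul_of_nonneg_left hTw (by positivity)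
      _ = _ := by ring
  have hEa : ∑ p ∈ T, (p : ℝ) ^ (N + 1) * Ea η M 1 N p ≤ 3 * C * l * Real.exp (-a) := by
    calc ∑ p ∈ T, (p : ℝ) ^ (N + 1) * Ea η M 1 N p ≤ ∑ p ∈ T, 3 * Real.exp (-a) * wt p := by
          refine Finset.sum_le_sum fun p hp => ?_
          have hpT := hTP p hp
          have hp0 : (0 : ℝ) < p := by exact_mod_cast (by omega : 0 < p)
          have hp1 : (1 : ℝ) ≤ p := by exact_mod_cast (by omega : 1 ≤ p)
          have h2 := hdecT p hp
          have h3 : (p : ℝ) ^ (N + 1) * Ea η M 1 N p =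
              (M + 2) * (hh η p * (4 * (p : ℝ) ^ 2) ^ N * (p : ℝ) ^ (N + 1)) := by
            unfold Ea
            ring
          rw [h3]
          have h4 : Real.exp (η / 4 * p) * (hh η p * (4 * (p : ℝ) ^ 2) ^ N * (p : ℝ) ^ (N + 1)) ≤
              1 / (p : ℝ) ^ 8 := by
            rw [le_div_iff₀ (by positivity)]
            exact h2
          have h44 : (M + 2) * (hh η p * (4 * (p : ℝ) ^ 2) ^ N * (p : ℝ) ^ (N + 1)) ≤
              3 * (Real.exp (η / 4 * p) * (hh η p * (4 * (p : ℝ) ^ 2) ^ N * (p : ℝ) ^ (N + 1))) := by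
            have e1 := hMΦ p hp
            have e2 := hex1 p
            have e3 : M + 2 ≤ 3 * Real.exp (η / 4 * p) := by linarith
            have e4 : 0 ≤ hh η p * (4 * (p : ℝ) ^ 2) ^ N * (p : ℝ) ^ (N + 1) := by
              have := hh_pos η p
              positivity
            calc (M + 2) * (hh η p * (4 * (p : ℝ) ^ 2) ^ N * (p : ℝ) ^ (N + 1)) ≤
                  3 * Real.exp (η / 4 * p) * (hh η p * (4 * (p : ℝ) ^ 2) ^ N * (p : ℝ) ^ (N + 1)) :=
                  mul_le_mul_of_nonneg_right e3 e4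
              _ = _ := by ring
          have h5 : 1 / (p : ℝ) ^ 8 ≤ 1 / p * (1 / p) := by
            have h55 : 1 / (p : ℝ) * (1 / p) = 1 / ((p : ℝ) * p) := by field_simp
            rw [h55]
            apply one_div_le_one_div_of_le (by positivity)
            calc (p : ℝ) * p = p ^ 2 := by ring
              _ ≤ p ^ 8 := pow_le_pow_right₀ hp1 (by norm_num)
          have h6 : 1 / (p : ℝ) ≤ wt p := by
            unfold wt
            have := log_ge_one (show 3 ≤ p by omega)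
            gcongr
          have h7 : 1 / (p : ℝ) * (1 / p) ≤ Real.exp (-a) * wt p :=
            mul_le_mul (hinv p hp) h6 (by positivity) (Real.exp_pos _).le
          linarith
      _ = 3 * Real.exp (-a) * ∑ p ∈ T, wt p := by rw [Finset.mul_sum]
      _ ≤ 3 * Real.exp (-a) * (C * l) := mul_le_mul_of_nonneg_left hTw (by positivity)
      _ = _ := by ring
  -- the three terms
  set E1 := Real.exp (K * C * l) with hE1
  set E2 := Real.exp (2 * K * C * l) with hE2
  have hE12 : E1 ≤ E2 := Real.exp_le_exp.2 (by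
    have : 0 ≤ K * C * l := by positivity
    linarith)
  have hE1p : 0 < E1 := Real.exp_pos _
  have hE2p : 0 < E2 := Real.exp_pos _
  have hx1 : Real.exp (∑ q ∈ T, (m q + κ q)) ≤ E1 := Real.exp_le_exp.2 hb
  have hx2 : Real.exp (2 * ∑ q ∈ T, (m q + κ q)) ≤ E2 := Real.exp_le_exp.2 (by linarith)
  have hs0 : 0 ≤ ∑ q ∈ T, κ q := Finset.sum_nonneg fun q _ => hD.κ0 q
  have t1 : (∑ q ∈ T, κ q) * Real.exp (∑ q ∈ T, (m q + κ q)) ≤ K * C * l * Real.exp (-a) * E2 := by
    apply mul_le_mul hk (hx1.trans hE12) (Real.exp_pos _).le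
    have := Real.exp_pos (-a)
    positivity
  have hhalf : ((1 : ℝ) / 2) ^ (N + 1) ≤ Real.exp (-(0.69 * a)) := by
    have h2 : ((1 : ℝ) / 2) ^ (N + 1) = Real.exp (-(Real.log 2 * (N + 1 : ℕ))) := by
      rw [one_div, inv_pow, ← Real.exp_log (show (0 : ℝ) < 2 by norm_num), ← Real.exp_nat_mul,
        ← Real.exp_neg, Real.log_exp]
      congr 1
      ring
    rw [h2, Real.exp_le_exp]
    push_cast
    have h3 : 0.69 < Real.log 2 := by linarith [Real.log_two_gt_d9]
    nlinarith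
  have t2 : 2 * ((1 / 2) ^ (N + 1) * Real.exp (2 * ∑ q ∈ T, (m q + κ q))) ≤
      2 * (Real.exp (-(0.69 * a)) * E2) := by
    apply mul_le_mul_of_nonneg_left _ (by norm_num)
    exact mul_le_mul hhalf hx2 (Real.exp_pos _).le (Real.exp_pos _).le
  have hEa0 : 0 ≤ ∑ p ∈ T, (p : ℝ) ^ (N + 1) * Ea η M 1 N p := by
    refine Finset.sum_nonneg fun p _ => mul_nonneg (by positivity) ?_
    unfold Ea
    have := hh_pos η p
    positivity
  have t3 : ((N : ℝ) + 2) * (Real.exp (∑ q ∈ T, (m q + κ q)) *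
      ∑ p ∈ T, (p : ℝ) ^ (N + 1) * Ea η M 1 N p) ≤ (a + 2) * (E2 * (3 * C * l * Real.exp (-a))) := by
    apply mul_le_mul (by linarith) _ (mul_nonneg (Real.exp_pos _).le hEa0) (by linarith)
    exact mul_le_mul (hx1.trans hE12) hEa hEa0 hE2p.le
  have hE2r : E2 = a ^ (2 * K * C) := by
    rw [hE2, Real.rpow_def_of_pos ha0]
    congr 1
    ring
  have hsq : a ^ (2 * K * C + 2) = E2 * a ^ 2 := by
    rw [Real.rpow_add ha0, ← hE2r]
    norm_num
  rw [hsq] at hpol
  have hexp : Real.exp (-a) ≤ Real.exp (-(0.69 * a)) := Real.exp_le_exp.2 (by linarith)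
  set X := Real.exp (-(0.69 * a)) with hX
  have hX0 : 0 < X := Real.exp_pos _
  have s1 : K * C * l * Real.exp (-a) * E2 ≤ 9 * (K * C + 2 * C + 2) * (E2 * a ^ 2) * X := by
    have h2 : K * C * l ≤ 9 * (K * C + 2 * C + 2) * a ^ 2 := by
      have h3 : K * C * l ≤ K * C * a := mul_le_mul_of_nonneg_left hla (by positivity)
      have h4 : K * C * a ≤ K * C * a ^ 2 := by
        apply mul_le_mul_of_nonneg_left _ (by positivity)
        nlinarith
      have h5 : 0 ≤ K * C * a ^ 2 := by positivity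
      have h6 : 0 ≤ (2 * C + 2) * a ^ 2 := by positivity
      nlinarith
    calc K * C * l * Real.exp (-a) * E2 ≤ 9 * (K * C + 2 * C + 2) * a ^ 2 * X * E2 := by gcongr
      _ = _ := by ring
  have s2 : 2 * (X * E2) ≤ 9 * (K * C + 2 * C + 2) * (E2 * a ^ 2) * X := by
    have h2 : 2 ≤ 9 * (K * C + 2 * C + 2) * a ^ 2 := by
      have h3 : (1 : ℝ) ≤ a ^ 2 := by nlinarith
      have h4 : 0 < K * C + 2 * C := by positivity
      nlinarith
    calc 2 * (X * E2) ≤ 9 * (K * C + 2 * C + 2) * a ^ 2 * (X * E2) :=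
          mul_le_mul_of_nonneg_right h2 (by positivity)
      _ = _ := by ring
  have s3 : (a + 2) * (E2 * (3 * C * l * Real.exp (-a))) ≤
      9 * (K * C + 2 * C + 2) * (E2 * a ^ 2) * X := by
    have h2 : (a + 2) * (3 * C * l) ≤ 9 * (K * C + 2 * C + 2) * a ^ 2 := by
      have h3 : (a + 2) * (3 * C * l) ≤ (2 * a) * (3 * C * a) := by
        apply mul_le_mul (by linarith) _ (by positivity) (by linarith)
        exact mul_le_mul_of_nonneg_left hla (by positivity)
      have h4 : 0 ≤ (K * C + 2) * a ^ 2 := by positivity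
      have h5 : 0 ≤ C * a ^ 2 := by positivity
      nlinarith
    calc (a + 2) * (E2 * (3 * C * l * Real.exp (-a))) = (a + 2) * (3 * C * l) * E2 * Real.exp (-a) := by ring
      _ ≤ 9 * (K * C + 2 * C + 2) * a ^ 2 * E2 * X := by gcongr
      _ = _ := by ring
  have hfin : 3 * (9 * (K * C + 2 * C + 2)) * (E2 * a ^ 2) * X ≤ Real.exp (-(a / 2)) := by
    calc 3 * (9 * (K * C + 2 * C + 2)) * (E2 * a ^ 2) * X ≤ Real.exp (a / 20) * X :=
          mul_le_mul_of_nonneg_right hpol hX0.le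
      _ = Real.exp (a / 20 - 0.69 * a) := by rw [hX, ← Real.exp_add]; ring_nf
      _ ≤ _ := Real.exp_le_exp.2 (by linarith)
  have u1 : ((∑ q ∈ T, κ q) * Real.exp (∑ q ∈ T, (m q + κ q)) +
      2 * ((1 / 2) ^ (N + 1) * Real.exp (2 * ∑ q ∈ T, (m q + κ q)))) * ∫ c, Φ c ∂muI ≤
      (∑ q ∈ T, κ q) * Real.exp (∑ q ∈ T, (m q + κ q)) +
      2 * ((1 / 2) ^ (N + 1) * Real.exp (2 * ∑ q ∈ T, (m q + κ q))) := by
    apply hmulI
    have w1 := Real.exp_pos (∑ q ∈ T, (m q + κ q))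
    have w2 := Real.exp_pos (2 * ∑ q ∈ T, (m q + κ q))
    positivity
  linarith

end Pool.Agent.K9h18.EX
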