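import Pool.Agent.K9h18.EX.Void
import Pool.Agent.K9h18.EX.BC
import Pool.Agent.K9h18.AP.Win

set_option autoImplicit false

/-!
# Windows on the scale of the weight: masses and the probability of the absence of events
-/

open Finset Filter Topology MeasureTheory

namespace Pool.Agent.K9h18.EX

open Pool.Agent.TH888.R (wt wt_nonneg wt_le_one VS VS_univ_bound VS_nonneg VS_mono)
open Pool.Agent.K9h18.HS (kc kc_pos log_ge_one wt_tendsto win Nx VS_zero VS_step mass_Ioc)
open Pool.Agent.K9h18.AP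

/-- a function of finitely many events is Lipschitz in the mean -/
lemma dep_Ph {e A : ℕ → ℕ} (hup : ∀ p, e p ≤ p) {U : Finset ℕ} {k : ℕ} (hU : ∀ p ∈ U, 2 ≤ p ∧ p ≤ k)
    {Φ : (ℕ → ℝ) → ℝ} (hm : Measurable Φ) (hb : ∀ c, 0 ≤ Φ c ∧ Φ c ≤ 1)
    (hdep : ∀ c c' : ℕ → ℝ, (∀ p ∈ U, fa e A p c = fa e A p c') → Φ c = Φ c') :
    Ph (2 ^ (k + 1)) 1 Φ := by
  classical
  refine ⟨hm, fun c => (hb c).1, fun c => (hb c).2, fun v n hv hv1 => ?_⟩
  set D := ∑ j ∈ range n, |v j| with hD
  have hD0 : 0 ≤ D := Finset.sum_nonneg fun j _ => abs_nonneg _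
  have hpt : ∀ c, |Φ (sh v c) - Φ c| ≤ ∑ p ∈ U, |fa e A p (sh v c) - fa e A p c| := by
    intro c
    by_cases h : ∀ p ∈ U, fa e A p (sh v c) = fa e A p c
    · rw [hdep _ _ h, sub_self, abs_zero]
      exact Finset.sum_nonneg fun p _ => abs_nonneg _
    · push Not at h
      obtain ⟨p, hp, hne⟩ := h
      have h1 : |fa e A p (sh v c) - fa e A p c| = 1 := by
        rcases fa_01 e A p (sh v c) with h2 | h2 <;> rcases fa_01 e A p c with h3 | h3 <;>
          rw [h2, h3] at hne ⊢
        · exact absurd rfl hne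
        · norm_num
        · norm_num
        · exact absurd rfl hne
      have h2 : 1 ≤ ∑ p ∈ U, |fa e A p (sh v c) - fa e A p c| := by
        rw [← h1]
        exact Finset.single_le_sum (f := fun p => |fa e A p (sh v c) - fa e A p c|)
          (fun p _ => abs_nonneg _) hp
      refine le_trans ?_ h2
      have h3 := hb c
      have h4 := hb (sh v c)
      rw [abs_le]
      constructor <;> linarith [h3.1, h3.2, h4.1, h4.2]
  have hfi : ∀ p, Integrable (fun c => |fa e A p (sh v c) - fa e A p c|) muI := fun p => by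
    refine int_bd (((fa_meas e A p).comp (sh_meas v)).sub (fa_meas e A p)).norm (B := 1) fun c => ?_
    rw [abs_abs]
    change |fa e A p (sh v c) - fa e A p c| ≤ 1
    have h1 := fa_nonneg e A p (sh v c)
    have h2 := fa_le_one e A p (sh v c)
    have h3 := fa_nonneg e A p c
    have h4 := fa_le_one e A p c
    rw [abs_le]
    constructor <;> linarith
  have h1 : ∫ c, |Φ (sh v c) - Φ c| ∂muI ≤
      ∫ c, ∑ p ∈ U, |fa e A p (sh v c) - fa e A p c| ∂muI := by
    refine integral_mono ?_ (integrable_finsetSum _ fun p _ => hfi p) hpt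
    refine int_bd ((hm.comp (sh_meas v)).sub hm).norm (B := 1) fun c => ?_
    rw [abs_abs]
    change |Φ (sh v c) - Φ c| ≤ _
    have h3 := hb c
    have h4 := hb (sh v c)
    rw [abs_le]
    constructor <;> linarith [h3.1, h3.2, h4.1, h4.2]
  refine h1.trans ?_
  rw [integral_finsetSum _ fun p _ => hfi p]
  have h3 : ∀ p ∈ U, ∫ c, |fa e A p (sh v c) - fa e A p c| ∂muI ≤ 2 ^ p * D := by
    intro p hp
    refine (fa_lip (hU p hp).1 hv hv1).trans ?_
    apply mul_le_mul_of_nonneg_right _ hD0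
    exact pow_le_pow_right₀ (by norm_num) (hup p)
  refine (Finset.sum_le_sum h3).trans ?_
  rw [← Finset.sum_mul]
  apply mul_le_mul_of_nonneg_right _ hD0
  have h4 : ∑ p ∈ U, (2 : ℝ) ^ p ≤ ∑ p ∈ range (k + 1), (2 : ℝ) ^ p := by
    apply Finset.sum_le_sum_of_subset_of_nonneg
    · intro p hp
      rw [Finset.mem_range]
      have := (hU p hp).2
      omega
    · intro p _ _
      positivity
  refine h4.trans ?_
  rw [geom_sum_eq (by norm_num)]
  norm_num

lemma vd_dep {e A : ℕ → ℕ} {T U : Finset ℕ} (hTU : T ⊆ U) {c c' : ℕ → ℝ}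
    (h : ∀ p ∈ U, fa e A p c = fa e A p c') : vd e A T c = vd e A T c' := by
  unfold vd
  exact Finset.prod_congr rfl fun q hq => by rw [h q (hTU hq)]

lemma vd_anti {e A : ℕ → ℕ} {T U : Finset ℕ} (hTU : T ⊆ U) (c : ℕ → ℝ) :
    vd e A U c ≤ vd e A T c := by
  rcases vd_01 e A U c with h | h
  · rw [h]
    exact vd_nonneg _ _ _ _
  · have h1 := (vd_one_iff e A U c).1 h
    rw [h, (vd_one_iff e A T c).2 fun q hq => h1 q (hTU hq)]

lemma wt_sqrt (n : ℕ) : wt n ≤ 2 / √(n : ℝ) := by
  rcases Nat.eq_zero_or_pos n with rfl | hn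
  · simp [wt]
  · have hn0 : (0 : ℝ) < n := by exact_mod_cast hn
    have hs : 0 < √(n : ℝ) := Real.sqrt_pos.2 hn0
    have h1 : Real.log n ≤ 2 * √(n : ℝ) := by
      have h2 : Real.log n = 2 * Real.log √(n : ℝ) := by
        rw [Real.log_sqrt hn0.le]
        ring
      rw [h2]
      have := Real.log_le_sub_one_of_pos hs
      linarith
    unfold wt
    rw [div_le_div_iff₀ hn0 hs]
    calc Real.log n * √(n : ℝ) ≤ 2 * √(n : ℝ) * √(n : ℝ) := by gcongr
      _ = 2 * (√(n : ℝ) * √(n : ℝ)) := by ring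
      _ = 2 * n := by rw [Real.mul_self_sqrt hn0.le]

/-- a lower bound for the elements of a window, and the mass -/
lemma win_fact : ∃ C : ℝ, 1 ≤ C ∧ (∀ (S : Set ℕ) (p : ℕ), 1 ≤ p → Real.exp (VS S p - C) ≤ p) ∧
    (∀ (S : Set ℕ) (p q : ℕ), 1 ≤ p → p ≤ q → VS S q - VS S p ≤ Real.log q - Real.log p + C) ∧
    ∀ (S : Set ℕ), Tendsto (VS S) atTop atTop → ∀ x y : ℝ, 0 ≤ x → x ≤ y →
      |∑ p ∈ win S x y, wt p - (y - x)| ≤ 4 * Real.exp (-(x - C) / 2) := by
  obtain ⟨C, hC, h1, h2⟩ := VS_inc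
  have h4 : ∀ (S : Set ℕ) (p : ℕ), 1 ≤ p → Real.exp (VS S p - (C + 1)) ≤ p := by
    intro S p hp
    have hp0 : (0 : ℝ) < p := by exact_mod_cast hp
    rw [← Real.le_log_iff_exp_le hp0]
    have := h2 S p hp
    linarith
  refine ⟨C + 1, by linarith, h4, fun S p q hp hq => ?_, ?_⟩
  · have := h1 S p q hp hq
    linarith
  · intro S hS x y hx hxy
    refine (mass_win' hS hx hxy).trans ?_
    have key : ∀ z, x ≤ z → wt (Nx S z) ≤ 2 * Real.exp (-(x - (C + 1)) / 2) := by
      intro z hz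
      have h5 := Nx_spec' hS z
      have h6 := Nx_pos' hS (hx.trans hz)
      have h7 := h4 S _ h6
      have h8 : Real.exp (x - (C + 1)) ≤ Nx S z := (Real.exp_le_exp.2 (by linarith)).trans h7
      refine (wt_sqrt _).trans ?_
      have h9 : Real.exp ((x - (C + 1)) / 2) ≤ √(Nx S z : ℝ) := by
        apply Real.le_sqrt_of_sq_le
        rw [← Real.exp_nat_mul]
        push_cast
        rw [mul_div_cancel₀ _ (two_ne_zero)]
        exact h8
      calc 2 / √(Nx S z : ℝ) ≤ 2 / Real.exp ((x - (C + 1)) / 2) :=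
            div_le_div_of_nonneg_left (by norm_num) (Real.exp_pos _) h9
        _ = 2 * Real.exp (-(x - (C + 1)) / 2) := by
            rw [div_eq_mul_inv, ← Real.exp_neg]
            congr 2
            ring
    have h5 := key x le_rfl
    have h6 := key y hxy
    linarith

/-- the sum of the means over a window -/
lemma win_m {η : ℝ} {e A : ℕ → ℕ} {m κ : ℕ → ℝ} {P : ℕ} {K : ℝ} (hD : Dat η e A m κ P K) :
    ∃ C X : ℝ, 1 ≤ C ∧ 1 ≤ X ∧ ∀ (S : Set ℕ), Tendsto (VS S) atTop atTop → ∀ x y : ℝ, X ≤ x → x ≤ y →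
      y ≤ 2 * x → (∀ q ∈ win S x y, P ≤ q ∧ m q ≤ C / x) ∧
      |∑ q ∈ win S x y, m q - kc * (y - x)| ≤ C * (y - x + 1) / x := by
  obtain ⟨C, hC1, hC, -, hmass⟩ := win_fact
  have hkc := kc_pos
  have hK := hD.K0
  have h1 : Tendsto (fun x : ℝ => (x - C) / 2) atTop atTop :=
    (tendsto_atTop_add_const_right _ (-C) tendsto_id).atTop_div_const (by norm_num)
  have h2 := (Real.tendsto_pow_mul_exp_neg_atTop_nhds_zero 1).comp h1
  have e1 := h2.eventually_le_const (show (0 : ℝ) < 1 / 16 by norm_num)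
  obtain ⟨X1, hX1⟩ := e1.exists_forall_of_atTop
  refine ⟨4 * kc + 2 * K + 10 * K + 1, max X1 (2 * C + 2 * Real.log (P + 3 : ℕ) + 2), by nlinarith, ?_, ?_⟩
  · refine le_trans ?_ (le_max_right _ _)
    have : 0 ≤ Real.log (P + 3 : ℕ) := Real.log_natCast_nonneg _
    linarith
  intro S hS x y hx hxy hy2
  have hxX1 := hX1 x ((le_max_left _ _).trans hx)
  have hxb := (le_max_right _ _).trans hx
  have hlP : 0 ≤ Real.log (P + 3 : ℕ) := Real.log_natCast_nonneg _
  have hx0 : 0 < x := by linarith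
  have hxC : x / 2 ≤ x - C := by linarith
  simp only [Function.comp, pow_one] at hxX1
  have hexp : Real.exp (-(x - C) / 2) ≤ 1 / (2 * x) := by
    have e2 : -(x - C) / 2 = -((x - C) / 2) := by ring
    rw [e2, le_div_iff₀ (by positivity)]
    have e3 := Real.exp_pos (-((x - C) / 2))
    nlinarith
  have hq : ∀ q ∈ win S x y, q.Prime ∧ Real.exp (x - C) ≤ q ∧ P + 3 ≤ q := by
    intro q hq
    rw [mem_win' hS] at hq
    have h3 := hC S q hq.1.one_lt.le
    have h4 : Real.exp (x - C) ≤ q := (Real.exp_le_exp.2 (by linarith [hq.2.2.1])).trans h3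
    refine ⟨hq.1, h4, ?_⟩
    have h5 : ((P + 3 : ℕ) : ℝ) ≤ Real.exp (x - C) := by
      rw [← Real.log_le_iff_le_exp (by positivity)]
      linarith
    exact_mod_cast h5.trans h4
  have hmm := hmass S hS x y hx0.le hxy
  have hmm2 : 4 * Real.exp (-(x - C) / 2) ≤ 2 / x := by
    calc 4 * Real.exp (-(x - C) / 2) ≤ 4 * (1 / (2 * x)) := by linarith
      _ = 2 / x := by
        field_simp
        norm_num
  have h2x : 2 / x ≤ 2 := by
    rw [div_le_iff₀ hx0]
    linarith
  constructor
  · intro q hq1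
    obtain ⟨g1, g2, g3⟩ := hq q hq1
    refine ⟨by omega, ?_⟩
    have h3 := hD.mw q (by omega)
    have h4 := hD.κ0 q
    have h5 : wt q ≤ 2 * Real.exp (-(x - C) / 2) := by
      refine (wt_sqrt _).trans ?_
      have h9 : Real.exp ((x - C) / 2) ≤ √(q : ℝ) := by
        apply Real.le_sqrt_of_sq_le
        rw [← Real.exp_nat_mul]
        push_cast
        rw [mul_div_cancel₀ _ (two_ne_zero)]
        exact g2
      calc 2 / √(q : ℝ) ≤ 2 / Real.exp ((x - C) / 2) :=
            div_le_div_of_nonneg_left (by norm_num) (Real.exp_pos _) h9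
        _ = 2 * Real.exp (-(x - C) / 2) := by
            rw [div_eq_mul_inv, ← Real.exp_neg]
            congr 2
            ring
    have h6 : K * wt q ≤ K * (1 / x) := by
      apply mul_le_mul_of_nonneg_left _ hK.le
      have : 2 * Real.exp (-(x - C) / 2) ≤ 1 / x := by
        calc 2 * Real.exp (-(x - C) / 2) ≤ 2 * (1 / (2 * x)) := by linarith
          _ = 1 / x := by
            field_simp
      linarith
    calc m q ≤ K * (1 / x) := by linarith
      _ ≤ (4 * kc + 2 * K + 10 * K + 1) * (1 / x) := by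
          apply mul_le_mul_of_nonneg_right _ (by positivity)
          linarith
      _ = _ := by ring
  · have h3 : ∑ q ∈ win S x y, m q - kc * (y - x) =
        ∑ q ∈ win S x y, (m q - kc * wt q) + kc * (∑ q ∈ win S x y, wt q - (y - x)) := by
      rw [Finset.sum_sub_distrib, ← Finset.mul_sum]
      ring
    have h4 : |∑ q ∈ win S x y, (m q - kc * wt q)| ≤ ∑ q ∈ win S x y, 2 * K / x * wt q := by
      refine (Finset.abs_sum_le_sum_abs _ _).trans (Finset.sum_le_sum fun q hq1 => ?_)
      obtain ⟨g1, g2, g3⟩ := hq q hq1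
      refine (hD.mc q (by omega)).trans ?_
      have hq0 : (0 : ℝ) < q := by exact_mod_cast (by omega : 0 < q)
      have h5 : x / 2 ≤ Real.log q := by
        refine hxC.trans ?_
        rw [Real.le_log_iff_exp_le hq0]
        exact g2
      unfold wt
      have e3 : 2 * K / x * (Real.log q / q) = K / q * (Real.log q / (x / 2)) := by
        field_simp
      rw [e3]
      apply le_mul_of_one_le_right (by positivity)
      rw [le_div_iff₀ (by positivity)]
      linarith
    rw [← Finset.mul_sum] at h4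
    have h5 : ∑ q ∈ win S x y, wt q ≤ (y - x) + 2 := by
      have := (abs_le.1 hmm).2
      linarith
    rw [h3]
    refine (abs_add_le _ _).trans ?_
    rw [abs_mul, abs_of_pos hkc]
    have h6 : kc * |∑ q ∈ win S x y, wt q - (y - x)| ≤ kc * (2 / x) := by
      apply mul_le_mul_of_nonneg_left _ hkc.le
      linarith
    have h7 : 2 * K / x * ∑ q ∈ win S x y, wt q ≤ 2 * K / x * ((y - x) + 2) :=
      mul_le_mul_of_nonneg_left h5 (by positivity)
    calc |∑ q ∈ win S x y, (m q - kc * wt q)| + kc * |∑ q ∈ win S x y, wt q - (y - x)| ≤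
          2 * K / x * ((y - x) + 2) + kc * (2 / x) := by linarith
      _ = (2 * K * ((y - x) + 2) + 2 * kc) / x := by ring
      _ ≤ (4 * kc + 2 * K + 10 * K + 1) * (y - x + 1) / x := by
          apply div_le_div_of_nonneg_right _ hx0.le
          have : 0 ≤ y - x := by linarith
          nlinarith

/-- the product of the complementary means over a window -/
lemma win_prod {η : ℝ} {e A : ℕ → ℕ} {m κ : ℕ → ℝ} {P : ℕ} {K : ℝ} (hD : Dat η e A m κ P K) :
    ∃ C X : ℝ, 1 ≤ C ∧ 1 ≤ X ∧ ∀ (S : Set ℕ), Tendsto (VS S) atTop atTop → ∀ x y : ℝ, X ≤ x → x ≤ y →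
      y ≤ 2 * x →
      Real.exp (-(kc * (y - x)) - C * (y - x + 1) / x) ≤ ∏ q ∈ win S x y, (1 - m q) ∧
      ∏ q ∈ win S x y, (1 - m q) ≤ Real.exp (-(kc * (y - x)) + C * (y - x + 1) / x) := by
  obtain ⟨C, X, hC, hX, h⟩ := win_m hD
  have hkc := kc_pos
  refine ⟨C + 2 * C * (kc + 2 * C), X, by nlinarith, hX, fun S hS x y hx hxy hy2 => ?_⟩
  obtain ⟨h1, h2⟩ := h S hS x y hx hxy hy2
  have hx0 : 0 < x := by linarith
  have hyx : 0 ≤ y - x := by linarith
  have h3 := abs_le.1 h2
  have hm1 : ∀ q ∈ win S x y, m q ≤ 1 / 2 := fun q hq => hD.mh q (h1 q hq).1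
  set s := ∑ q ∈ win S x y, m q with hs
  have hs0 : 0 ≤ s := Finset.sum_nonneg fun q _ => hD.m0 q
  constructor
  · have h4 : ∀ q ∈ win S x y, Real.exp (-(m q) - 2 * m q ^ 2) ≤ 1 - m q := by
      intro q hq
      have g1 := hm1 q hq
      have g0 := hD.m0 q
      have g2 : 0 < 1 - m q := by linarith
      rw [← Real.le_log_iff_exp_le g2]
      have g3 := Real.one_sub_inv_le_log_of_pos g2
      refine le_trans ?_ g3
      have g4 : 1 - (1 - m q)⁻¹ = -(m q / (1 - m q)) := by
        field_simp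
        ring
      rw [g4]
      have g5 : m q / (1 - m q) ≤ m q + 2 * m q ^ 2 := by
        rw [div_le_iff₀ g2]
        nlinarith [sq_nonneg (m q), mul_nonneg g0 (sq_nonneg (m q))]
      linarith
    refine le_trans ?_ (Finset.prod_le_prod (fun q _ => (Real.exp_pos _).le) h4)
    rw [← Real.exp_sum, Real.exp_le_exp, Finset.sum_sub_distrib, Finset.sum_neg_distrib, ← Finset.mul_sum]
    have h5 : ∑ q ∈ win S x y, m q ^ 2 ≤ C / x * s := by
      rw [hs, Finset.mul_sum]
      refine Finset.sum_le_sum fun q hq => ?_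
      rw [sq]
      exact mul_le_mul_of_nonneg_right (h1 q hq).2 (hD.m0 q)
    have h6 : s ≤ (kc + 2 * C) * (y - x + 1) := by
      have e1 : C * (y - x + 1) / x ≤ 2 * C * (y - x + 1) := by
        rw [div_le_iff₀ hx0]
        have : 0 ≤ C * (y - x + 1) := by positivity
        nlinarith
      have := h3.2
      nlinarith
    have h7 : C / x * s ≤ C / x * ((kc + 2 * C) * (y - x + 1)) :=
      mul_le_mul_of_nonneg_left h6 (by positivity)
    have h8 : C / x * ((kc + 2 * C) * (y - x + 1)) = (C * (kc + 2 * C)) * (y - x + 1) / x := by ring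
    have h9 : (C + 2 * C * (kc + 2 * C)) * (y - x + 1) / x =
        C * (y - x + 1) / x + 2 * ((C * (kc + 2 * C)) * (y - x + 1) / x) := by ring
    rw [h9]
    linarith [h3.2]
  · have h4 : ∀ q ∈ win S x y, 1 - m q ≤ Real.exp (-(m q)) := fun q _ => by
      have := Real.add_one_le_exp (-(m q))
      linarith
    refine (Finset.prod_le_prod (fun q hq => by linarith [hm1 q hq]) h4).trans ?_
    rw [← Real.exp_sum, Real.exp_le_exp, Finset.sum_neg_distrib]
    have h9 : C * (y - x + 1) / x ≤ (C + 2 * C * (kc + 2 * C)) * (y - x + 1) / x := by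
      apply div_le_div_of_nonneg_right _ hx0.le
      apply mul_le_mul_of_nonneg_right _ (by linarith)
      have : 0 ≤ 2 * C * (kc + 2 * C) := by positivity
      linarith
    linarith [h3.1]

end Pool.Agent.K9h18.EX
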